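import Pool.Agent.LogSc.Defs

open MeasureTheory Set Filter Topology
open scoped ENNReal NNReal

namespace Pool.Agent.LogSc

/-! NT. Orders of `4` modulo `3 ^ t` and of `9` modulo `2 ^ t` (lifting the exponent):
`v_3 (4 ^ d - 1) = 1 + v_3 d`, `v_2 (9 ^ d - 1) = 3 + v_2 d`. HINT: `padicValNat.pow_sub_pow`,
`Nat.emultiplicity_pow_sub_pow`, `padicValNat.pow_two_sub_pow` / `Int.two_pow_sub_pow`. -/

theorem NT_key {p m : ℕ} (hpm : PM p m) : ∃ c : ℕ, c ≤ 3 ∧ p ^ c ≤ 8 ∧ p.Prime ∧ ∀ t d : ℕ,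
    (p ^ t ∣ m ^ d - 1 ↔ (t : ℕ∞) ≤ (c : ℕ∞) + emultiplicity p d) := by
  rcases hpm with ⟨rfl, rfl⟩ | ⟨rfl, rfl⟩
  · refine ⟨1, by norm_num, by norm_num, by norm_num, fun t d => ?_⟩
    have h := Nat.emultiplicity_pow_sub_pow (p := 3) (by norm_num) (by decide) (x := 4) (y := 1)
      (by norm_num) (by norm_num) d
    have e : emultiplicity 3 (4 - 1) = 1 := by
      have := (Nat.prime_three).emultiplicity_self
      simpa using this
    rw [one_pow, e] at h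
    rw [pow_dvd_iff_le_emultiplicity, h]
    simp
  · refine ⟨3, by norm_num, by norm_num, by norm_num, fun t d => ?_⟩
    have h := Int.two_pow_sub_pow' (x := 9) (y := 1) d (by norm_num) (by norm_num)
    have e : emultiplicity (2 : ℤ) (9 - 1) = 3 := by
      have h1 : (9 - 1 : ℤ) = 2 ^ 3 := by norm_num
      rw [h1, emultiplicity_pow_self_of_prime Int.prime_two]
      rfl
    have e2 : emultiplicity (2 : ℤ) (d : ℤ) = emultiplicity 2 d := by
      exact_mod_cast Int.natCast_emultiplicity 2 d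
    rw [one_pow, e, e2] at h
    have h3 : 1 ≤ 9 ^ d := Nat.one_le_pow _ _ (by norm_num)
    have e4 : ((9 ^ d - 1 : ℕ) : ℤ) = 9 ^ d - 1 := by
      rw [Nat.cast_sub h3]
      push_cast
      ring
    have e5 : emultiplicity 2 (9 ^ d - 1) = emultiplicity (2 : ℤ) ((9 : ℤ) ^ d - 1) := by
      rw [← e4]
      exact_mod_cast (Int.natCast_emultiplicity 2 (9 ^ d - 1)).symm
    rw [pow_dvd_iff_le_emultiplicity, e5, h]
    rfl

theorem nt1 {p m t d : ℕ} (hpm : PM p m) (hd : 0 < d) (h : p ^ t ∣ m ^ d - 1) :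
    p ^ t ≤ 8 * d := by
  obtain ⟨c, _, hc, hp, H⟩ := NT_key hpm
  rw [H] at h
  have hf : FiniteMultiplicity p d := Nat.finiteMultiplicity_iff.mpr ⟨hp.one_lt.ne', hd⟩
  rw [hf.emultiplicity_eq_multiplicity] at h
  have h2 : t ≤ c + multiplicity p d := by exact_mod_cast h
  have h3 : p ^ multiplicity p d ≤ d := Nat.le_of_dvd hd (pow_multiplicity_dvd p d)
  calc p ^ t ≤ p ^ (c + multiplicity p d) := Nat.pow_le_pow_right hp.pos h2
    _ = p ^ c * p ^ multiplicity p d := pow_add _ _ _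
    _ ≤ 8 * d := Nat.mul_le_mul hc h3

theorem nt2 {p m τ : ℕ} (hpm : PM p m) (hτ : 4 ≤ τ) :
    ∃ j : ℕ, p ^ (τ - 1) ∣ m ^ j - 1 ∧ ¬ p ^ τ ∣ m ^ j - 1 := by
  obtain ⟨c, hc3, hc, hp, H⟩ := NT_key hpm
  have he : emultiplicity p (p ^ (τ - 1 - c)) = ((τ - 1 - c : ℕ) : ℕ∞) :=
    emultiplicity_pow_self_of_prime hp.prime _
  refine ⟨p ^ (τ - 1 - c), ?_, ?_⟩
  · rw [H, he]
    exact_mod_cast (by omega : τ - 1 ≤ c + (τ - 1 - c))
  · rw [H, he]
    intro hh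
    have : τ ≤ c + (τ - 1 - c) := by exact_mod_cast hh
    omega

theorem nt3 {p m : ℕ} (hpm : PM p m) (k : ℕ) : p ^ k ∣ m ^ (p ^ k) - 1 := by
  obtain ⟨c, hc3, hc, hp, H⟩ := NT_key hpm
  have he : emultiplicity p (p ^ k) = ((k : ℕ) : ℕ∞) :=
    emultiplicity_pow_self_of_prime hp.prime _
  rw [H, he]
  exact_mod_cast (by omega : k ≤ c + k)

end Pool.Agent.LogSc
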