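import Pool.Agent.LogSc.Defs

open MeasureTheory Set Filter Topology
open scoped ENNReal NNReal

namespace Pool.Agent.LogSc

/-! CELL. Elementary facts on `rep` and `cell`. HINT: `AddCircle.coe_equivIco`, `AddCircle.equivIco_coe_eq`,
`Nat.floor_div_natCast`, `Int.fract`; for `cell_smul`: `rep (b ^ j • x) = fract (b ^ j * rep x)`. -/

theorem rep_nonneg (x : T) : 0 ≤ rep x := (AddCircle.equivIco (1 : ℝ) 0 x).2.1

theorem rep_lt_one (x : T) : rep x < 1 := by
  have := (AddCircle.equivIco (1 : ℝ) 0 x).2.2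
  exact lt_of_lt_of_eq this (zero_add 1)

theorem coe_rep (x : T) : ((rep x : ℝ) : T) = x := AddCircle.coe_equivIco

theorem rep_coe {r : ℝ} (h0 : 0 ≤ r) (h1 : r < 1) : rep (r : T) = r := by
  unfold rep
  rw [AddCircle.equivIco_coe_eq (by rw [zero_add]; exact ⟨h0, h1⟩)]

theorem measurable_rep : Measurable rep :=
  measurable_subtype_coe.comp (AddCircle.measurableEquivIco (1 : ℝ) 0).measurable

theorem measurable_cell (b L : ℕ) : Measurable (cell b L) :=
  Nat.measurable_floor.comp (measurable_rep.const_mul _)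

theorem cell_lt {b : ℕ} (hb : 0 < b) (L : ℕ) (x : T) : cell b L x < b ^ L := by
  have hb' : (0 : ℝ) < (b : ℝ) ^ L := by positivity
  unfold cell
  rw [Nat.floor_lt (mul_nonneg hb'.le (rep_nonneg x))]
  push_cast
  have := rep_lt_one x
  nlinarith

theorem CELL_key {b : ℕ} (hb : 0 < b) (j : ℕ) (x : T) :
    (b : ℝ) ^ j * rep x = cell b j x + rep (b ^ j • x) := by
  have hb' : (0 : ℝ) < (b : ℝ) ^ j := by positivity
  have h0 : 0 ≤ (b : ℝ) ^ j * rep x := mul_nonneg hb'.le (rep_nonneg x)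
  have h1 : ((cell b j x : ℕ) : ℝ) ≤ (b : ℝ) ^ j * rep x := Nat.floor_le h0
  have h2 : (b : ℝ) ^ j * rep x < cell b j x + 1 := Nat.lt_floor_add_one _
  have h3 : (((b : ℝ) ^ j * rep x - (cell b j x : ℕ) : ℝ) : T) = b ^ j • x := by
    have e1 : (((b : ℝ) ^ j * rep x - (cell b j x : ℕ) : ℝ) : T) =
        (((b ^ j : ℕ) • rep x : ℝ) : T) - (((cell b j x : ℕ) • (1 : ℝ) : ℝ) : T) := by
      rw [← AddCircle.coe_sub]
      congr 1
      simp
    rw [e1, AddCircle.coe_nsmul, AddCircle.coe_nsmul, coe_rep, AddCircle.coe_period]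
    simp
  have h4 : rep (b ^ j • x) = (b : ℝ) ^ j * rep x - (cell b j x : ℕ) := by
    rw [← h3, rep_coe (by linarith) (by linarith)]
  rw [h4]; ring

theorem CELL_add {b : ℕ} (hb : 0 < b) (L j : ℕ) (x : T) :
    cell b (L + j) x = b ^ L * cell b j x + cell b L (b ^ j • x) := by
  have h := CELL_key hb j x
  have hb' : (0 : ℝ) < (b : ℝ) ^ L := by positivity
  have e : (b : ℝ) ^ (L + j) * rep x =
      ((b ^ L * cell b j x : ℕ) : ℝ) + (b : ℝ) ^ L * rep (b ^ j • x) := by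
    rw [pow_add, mul_assoc, h]; push_cast; ring
  unfold cell at *
  rw [e, add_comm, Nat.floor_add_natCast (mul_nonneg hb'.le (rep_nonneg _)), add_comm]

theorem cell_smul {b : ℕ} (hb : 0 < b) (L j : ℕ) (x : T) :
    cell b L (b ^ j • x) = cell b (L + j) x % b ^ L := by
  rw [CELL_add hb, Nat.mul_add_mod, Nat.mod_eq_of_lt (cell_lt hb L _)]

theorem cell_div {b : ℕ} (hb : 0 < b) (L j : ℕ) (x : T) :
    cell b (L + j) x / b ^ L = cell b j x := by
  rw [CELL_add hb, Nat.mul_add_div (by positivity), Nat.div_eq_of_lt (cell_lt hb L _), add_zero]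

theorem cell_near {b : ℕ} (hb : 0 < b) (L : ℕ) (x y : T) :
    ‖(x - y) - (((((cell b L x : ℕ) : ℝ) - ((cell b L y : ℕ) : ℝ)) / (b : ℝ) ^ L : ℝ) : T)‖ <
      ((b : ℝ) ^ L)⁻¹ := by
  have hb' : (0 : ℝ) < (b : ℝ) ^ L := by positivity
  have h1 := CELL_key hb L x
  have h2 := CELL_key hb L y
  have e : (x - y) - (((((cell b L x : ℕ) : ℝ) - ((cell b L y : ℕ) : ℝ)) / (b : ℝ) ^ L : ℝ) : T) =
      (((rep (b ^ L • x) - rep (b ^ L • y)) * ((b : ℝ) ^ L)⁻¹ : ℝ) : T) := by
    conv_lhs => rw [← coe_rep x, ← coe_rep y]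
    rw [← AddCircle.coe_sub, ← AddCircle.coe_sub]
    congr 1
    rw [coe_rep, coe_rep]
    have h1' : rep (b ^ L • x) = (b : ℝ) ^ L * rep x - cell b L x := by linarith
    have h2' : rep (b ^ L • y) = (b : ℝ) ^ L * rep y - cell b L y := by linarith
    rw [h1', h2']
    field_simp
    ring
  rw [e, UnitAddCircle.norm_eq]
  have h3 := round_le ((rep (b ^ L • x) - rep (b ^ L • y)) * ((b : ℝ) ^ L)⁻¹) 0
  refine lt_of_le_of_lt h3 ?_
  rw [Int.cast_zero, sub_zero, abs_mul, abs_of_pos (inv_pos.2 hb')]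
  have h4 : |rep (b ^ L • x) - rep (b ^ L • y)| < 1 := by
    rw [abs_lt]
    have a1 := rep_nonneg (b ^ L • x)
    have a2 := rep_lt_one (b ^ L • x)
    have a3 := rep_nonneg (b ^ L • y)
    have a4 := rep_lt_one (b ^ L • y)
    constructor <;> linarith
  have h5 := inv_pos.2 hb'
  nlinarith

end Pool.Agent.LogSc
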