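import Pool.Agent.LogSc.Defs

open MeasureTheory Set Filter Topology
open scoped ENNReal NNReal

namespace Pool.Agent.LogSc

/-! UNIQ. Uniqueness of the Fourier coefficients. HINT: two finite measures on the compact circle with
the same integrals of continuous functions are equal (`ext_of_forall_integral_eq_of_IsFiniteMeasure`);
the span of the `fourier n` is dense (`span_fourier_closure_eq_top`). See also
Pool/Agent/MP_e27144_an, which may contain it. -/

theorem UNIQ_vol {n : ℤ} (hn : n ≠ 0) :
    ∫ x : AddCircle (1 : ℝ), fourier n x = 0 := by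
  have h1 : ∫ x : AddCircle (1 : ℝ), fourier n (x + (((1 : ℝ) / 2 / n : ℝ) : AddCircle (1 : ℝ)))
      = ∫ x : AddCircle (1 : ℝ), fourier n x :=
    integral_add_right_eq_self (fun x : AddCircle (1 : ℝ) => (fourier n x : ℂ)) _
  have h2 : ∀ x : AddCircle (1 : ℝ),
      fourier n (x + (((1 : ℝ) / 2 / n : ℝ) : AddCircle (1 : ℝ))) = - fourier n x :=
    fun x => fourier_add_half_inv_index hn one_pos x
  simp_rw [h2] at h1
  rw [integral_neg] at h1
  have h3 : (2 : ℂ) * ∫ x : AddCircle (1 : ℝ), fourier n x = 0 := by
    linear_combination -h1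
  simpa using h3

theorem uniq {ν : Measure T} [IsFiniteMeasure ν] (h : ∀ n : ℤ, n ≠ 0 → fc ν n = 0) :
    ν = ν univ • (volume : Measure T) := by
  have hne : ν univ ≠ ⊤ := measure_ne_top ν univ
  have hfin : IsFiniteMeasure (ν univ • (volume : Measure T)) := by
    refine ⟨?_⟩
    simp only [Measure.smul_apply, smul_eq_mul, AddCircle.measure_univ, ENNReal.ofReal_one,
      mul_one]
    exact lt_top_iff_ne_top.2 hne
  have hI : ∀ (κ : Measure T) [IsFiniteMeasure κ] (f : C(AddCircle (1 : ℝ), ℂ)),
      Integrable f κ := fun κ _ f =>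
    f.continuous.integrable_of_hasCompactSupport (HasCompactSupport.of_compactSpace _)
  have hbd : ∀ (κ : Measure T) [IsFiniteMeasure κ] (f : C(AddCircle (1 : ℝ), ℂ)),
      ‖∫ x, f x ∂κ‖ ≤ ‖f‖ * κ.real univ := by
    intro κ _ f
    exact norm_integral_le_of_norm_le_const (C := ‖f‖)
      (Eventually.of_forall fun x => f.norm_coe_le_norm x)
  have hspan : ∀ g ∈ Submodule.span ℂ (range (@fourier 1)),
      ∫ x, g x ∂ν = ∫ x, g x ∂(ν univ • (volume : Measure T)) := by
    intro g hg
    induction hg using Submodule.span_induction with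
    | mem g hg =>
      obtain ⟨n, rfl⟩ := hg
      by_cases hn : n = 0
      · subst hn
        rw [integral_smul_measure]
        simp [Measure.real]
      · have h1 := h n hn
        unfold fc at h1
        rw [integral_smul_measure, UNIQ_vol hn, h1, smul_zero]
    | zero => simp
    | add f g _ _ hf hg =>
      simp only [ContinuousMap.add_apply]
      rw [integral_add (hI ν f) (hI ν g), integral_add (hI _ f) (hI _ g), hf, hg]
    | smul c f _ hf =>
      simp only [ContinuousMap.smul_apply, smul_eq_mul]
      rw [integral_const_mul, integral_const_mul, hf]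
  have hall : ∀ f : C(AddCircle (1 : ℝ), ℂ),
      ∫ x, f x ∂ν = ∫ x, f x ∂(ν univ • (volume : Measure T)) := by
    intro f
    have hf : f ∈ (Submodule.span ℂ (range (@fourier 1))).topologicalClosure := by
      have : Fact ((0 : ℝ) < 1) := ⟨one_pos⟩
      rw [span_fourier_closure_eq_top]; trivial
    rw [← SetLike.mem_coe, Submodule.topologicalClosure_coe, Metric.mem_closure_iff] at hf
    rw [← sub_eq_zero, ← norm_eq_zero]
    refine le_antisymm (le_of_forall_pos_le_add fun δ hδ => ?_) (norm_nonneg _)
    set M : ℝ := ν.real univ + (ν univ • (volume : Measure T)).real univ with hM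
    have hM0 : 0 ≤ M := by positivity
    obtain ⟨g, hg, hfg⟩ := hf (δ / (M + 1)) (by positivity)
    rw [dist_eq_norm] at hfg
    have e1 : ∫ x, f x ∂ν - ∫ x, f x ∂(ν univ • (volume : Measure T))
        = ∫ x, (f - g) x ∂ν - ∫ x, (f - g) x ∂(ν univ • (volume : Measure T)) := by
      simp only [ContinuousMap.sub_apply]
      rw [integral_sub (hI ν f) (hI ν g), integral_sub (hI _ f) (hI _ g),
        hspan g hg]
      ring
    rw [e1]
    calc ‖∫ x, (f - g) x ∂ν - ∫ x, (f - g) x ∂(ν univ • (volume : Measure T))‖
        ≤ ‖∫ x, (f - g) x ∂ν‖ + ‖∫ x, (f - g) x ∂(ν univ • (volume : Measure T))‖ :=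
          norm_sub_le _ _
      _ ≤ ‖f - g‖ * ν.real univ + ‖f - g‖ * (ν univ • (volume : Measure T)).real univ :=
          add_le_add (hbd ν _) (hbd _ _)
      _ = ‖f - g‖ * M := by rw [hM]; ring
      _ ≤ δ / (M + 1) * (M + 1) := by
          refine mul_le_mul hfg.le (by linarith) hM0 (by positivity)
      _ = 0 + δ := by field_simp; ring
  apply ext_of_forall_integral_eq_of_IsFiniteMeasure
  intro f
  have h1 := hall ⟨fun x => ((f x : ℝ) : ℂ), Complex.continuous_ofReal.comp f.continuous⟩
  simp only [ContinuousMap.coe_mk] at h1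
  rw [integral_complex_ofReal, integral_complex_ofReal] at h1
  exact_mod_cast h1

end Pool.Agent.LogSc
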