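import Mathlib

/-!
# Definitions for the log-scale theorem on measures invariant under `×2` and `×3`
-/

open MeasureTheory Set Filter Topology
open scoped ENNReal NNReal

namespace Pool.Agent.LogSc

/-- The circle `ℝ / ℤ`. -/
abbrev T := AddCircle (1 : ℝ)

/-- The representative in `[0, 1)`. -/
noncomputable def rep (x : T) : ℝ := (AddCircle.equivIco (1 : ℝ) 0 x : ℝ)

/-- The integer formed by the first `L` digits of `x` in base `b`. -/
noncomputable def cell (b L : ℕ) (x : T) : ℕ := ⌊(b : ℝ) ^ L * rep x⌋₊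

/-- Inverse branches of `x ↦ p ^ k • x`: the point `(a + z) / p ^ k`. -/
noncomputable def br (p k a : ℕ) (z : T) : T := (((a + rep z) / (p : ℝ) ^ k : ℝ) : T)

/-- Number of errors made by the predictor `F` (next `n0` digits determine the digit) along the word
`w` of length `n0 + j` (most significant digit first). -/
def err (n0 : ℕ) (F : ℕ → ℕ) (j w : ℕ) : ℕ :=
  ((Finset.range j).filter (fun i =>
    (w % 2 ^ (n0 + i + 1)) / 2 ^ (n0 + i) ≠ F ((w % 2 ^ (n0 + i)) / 2 ^ i))).card

/-- The two pairs (prime, multiplier) used. -/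
def PM (p m : ℕ) : Prop := (p = 3 ∧ m = 4) ∨ (p = 2 ∧ m = 9)

/-- `V` is (mod `ν`) invariant under `x ↦ p • x`, and `x ↦ p • x` is essentially injective on `V`. -/
def Good (ν : Measure T) (p : ℕ) (V : Set T) : Prop :=
  MeasurableSet V ∧ (fun x : T => p • x) ⁻¹' V =ᵐ[ν] V ∧
    ∃ V' ⊆ V, MeasurableSet V' ∧ ν (V \ V') = 0 ∧ InjOn (fun x : T => p • x) V'

/-- The transfer function: conditional probability of `x` given `p • x`, truncated at `1`. -/
noncomputable def rho (ν : Measure T) (p : ℕ) (x : T) : ℝ≥0∞ :=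
  min 1 (((ν.restrict {y | cell p 1 y = cell p 1 x}).map (fun y : T => p • y)).rnDeriv ν (p • x))

/-- Its products along orbits. -/
noncomputable def rhok (ν : Measure T) (p k : ℕ) (x : T) : ℝ≥0∞ :=
  ∏ j ∈ Finset.range k, rho ν p (p ^ j • x)

/-- Points whose orbit `c * m ^ i • x`, `i < N`, is in the covering set for all but `N / 8` of the `i`. -/
def Gs (c m N L : ℕ) (W : Finset ℕ) : Set T :=
  {x | 8 * ((Finset.range N).filter (fun i => cell 2 L ((c * m ^ i) • x) ∉ W)).card ≤ N}

/-- Fourier coefficients. -/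
noncomputable def fc (ν : Measure T) (h : ℤ) : ℂ := ∫ x, fourier h x ∂ν

end Pool.Agent.LogSc
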