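import Pool.Agent.LogSc.Defs

open MeasureTheory Set Filter Topology
open scoped ENNReal NNReal

namespace Pool.Agent.LogSc

/-! ERRC. Counting words with few errors. HINT: show `∑ w < 2 ^ (n0 + j), (1/16) ^ err n0 F j w ≤
2 ^ n0 * (17/16) ^ j` by induction on `j` (write `w = b * 2 ^ (n0 + j) + w'`, `b ∈ {0, 1}`; at most one
of the two `b` is `F (w' / 2 ^ j)`), then Markov. -/

/-- the recursion for `err` -/
theorem ERRC_succ (n0 : ℕ) (F : ℕ → ℕ) (j b w : ℕ) (hw : w < 2 ^ (n0 + j)) (hb : b < 2) :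
    err n0 F (j + 1) (2 ^ (n0 + j) * b + w) = err n0 F j w + (if b ≠ F (w / 2 ^ j) then 1 else 0) := by
  unfold err
  rw [Finset.range_add_one, Finset.filter_insert]
  have hM : 0 < 2 ^ (n0 + j) := by positivity
  have e1 : (2 ^ (n0 + j) * b + w) % 2 ^ (n0 + j + 1) = 2 ^ (n0 + j) * b + w := by
    refine Nat.mod_eq_of_lt ?_
    have : 2 ^ (n0 + j) * b ≤ 2 ^ (n0 + j) * 1 := Nat.mul_le_mul_left _ (by omega)
    rw [pow_succ]
    omega
  have e2 : (2 ^ (n0 + j) * b + w) / 2 ^ (n0 + j) = b := by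
    rw [Nat.mul_add_div hM, Nat.div_eq_of_lt hw, add_zero]
  have e3 : (2 ^ (n0 + j) * b + w) % 2 ^ (n0 + j) = w := by
    rw [Nat.mul_add_mod, Nat.mod_eq_of_lt hw]
  have e4 : (Finset.range j).filter (fun i =>
      ((2 ^ (n0 + j) * b + w) % 2 ^ (n0 + i + 1)) / 2 ^ (n0 + i) ≠
        F (((2 ^ (n0 + j) * b + w) % 2 ^ (n0 + i)) / 2 ^ i)) =
      (Finset.range j).filter (fun i =>
      (w % 2 ^ (n0 + i + 1)) / 2 ^ (n0 + i) ≠ F ((w % 2 ^ (n0 + i)) / 2 ^ i)) := by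
    refine Finset.filter_congr fun i hi => ?_
    rw [Finset.mem_range] at hi
    have a1 : (2 ^ (n0 + j) * b + w) % 2 ^ (n0 + i + 1) = w % 2 ^ (n0 + i + 1) := by
      obtain ⟨c, hc⟩ := pow_dvd_pow 2 (show n0 + i + 1 ≤ n0 + j by omega)
      rw [hc, mul_assoc, Nat.mul_add_mod]
    have a2 : (2 ^ (n0 + j) * b + w) % 2 ^ (n0 + i) = w % 2 ^ (n0 + i) := by
      obtain ⟨c, hc⟩ := pow_dvd_pow 2 (show n0 + i ≤ n0 + j by omega)
      rw [hc, mul_assoc, Nat.mul_add_mod]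
    rw [a1, a2]
  rw [e1, e2, e3, e4]
  by_cases h : b ≠ F (w / 2 ^ j)
  · rw [if_pos h, if_pos h, Finset.card_insert_of_notMem]
    simp
  · rw [if_neg h, if_neg h, add_zero]

theorem ERRC_sum (n0 : ℕ) (F : ℕ → ℕ) (j : ℕ) :
    ∑ w ∈ Finset.range (2 ^ (n0 + j)), (1 / 16 : ℝ) ^ err n0 F j w ≤ 2 ^ n0 * (17 / 16) ^ j := by
  induction j with
  | zero => simp [err]
  | succ j ih =>
    have e : 2 ^ (n0 + (j + 1)) = 2 ^ (n0 + j) + 2 ^ (n0 + j) := by
      rw [← add_assoc, pow_succ]; ring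
    rw [e, Finset.sum_range_add, ← Finset.sum_add_distrib]
    have h : ∀ w ∈ Finset.range (2 ^ (n0 + j)),
        (1 / 16 : ℝ) ^ err n0 F (j + 1) w + (1 / 16 : ℝ) ^ err n0 F (j + 1) (2 ^ (n0 + j) + w) ≤
          (1 / 16 : ℝ) ^ err n0 F j w * (17 / 16) := by
      intro w hw
      rw [Finset.mem_range] at hw
      have h0 := ERRC_succ n0 F j 0 w hw (by norm_num)
      have h1 := ERRC_succ n0 F j 1 w hw (by norm_num)
      rw [mul_zero, zero_add] at h0
      rw [mul_one] at h1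
      rw [h0, h1, pow_add, pow_add, ← mul_add]
      refine mul_le_mul_of_nonneg_left ?_ (by positivity)
      by_cases c0 : (0 : ℕ) ≠ F (w / 2 ^ j)
      · by_cases c1 : (1 : ℕ) ≠ F (w / 2 ^ j)
        · rw [if_pos c0, if_pos c1]; norm_num
        · rw [if_pos c0, if_neg c1]; norm_num
      · have c1 : (1 : ℕ) ≠ F (w / 2 ^ j) := by
          push Not at c0; omega
        rw [if_neg c0, if_pos c1]; norm_num
    calc _ ≤ ∑ w ∈ Finset.range (2 ^ (n0 + j)), (1 / 16 : ℝ) ^ err n0 F j w * (17 / 16) :=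
          Finset.sum_le_sum h
      _ = (∑ w ∈ Finset.range (2 ^ (n0 + j)), (1 / 16 : ℝ) ^ err n0 F j w) * (17 / 16) := by
          rw [Finset.sum_mul]
      _ ≤ (2 ^ n0 * (17 / 16) ^ j) * (17 / 16) := mul_le_mul_of_nonneg_right ih (by norm_num)
      _ = _ := by ring

theorem err_card (n0 : ℕ) (F : ℕ → ℕ) (j e : ℕ) :
    (((Finset.range (2 ^ (n0 + j))).filter (fun w => err n0 F j w ≤ e)).card : ℝ) ≤
      2 ^ n0 * (17 / 16) ^ j * 16 ^ e := by
  have h1 : (((Finset.range (2 ^ (n0 + j))).filter (fun w => err n0 F j w ≤ e)).card : ℝ) *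
      (1 / 16 : ℝ) ^ e ≤ ∑ w ∈ Finset.range (2 ^ (n0 + j)), (1 / 16 : ℝ) ^ err n0 F j w := by
    calc _ = ∑ w ∈ (Finset.range (2 ^ (n0 + j))).filter (fun w => err n0 F j w ≤ e),
          (1 / 16 : ℝ) ^ e := by rw [Finset.sum_const, nsmul_eq_mul]
      _ ≤ ∑ w ∈ (Finset.range (2 ^ (n0 + j))).filter (fun w => err n0 F j w ≤ e),
          (1 / 16 : ℝ) ^ err n0 F j w := by
          refine Finset.sum_le_sum fun w hw => ?_
          exact pow_le_pow_of_le_one (by norm_num) (by norm_num) (Finset.mem_filter.1 hw).2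
      _ ≤ _ := Finset.sum_le_sum_of_subset_of_nonneg (Finset.filter_subset _ _)
          fun _ _ _ => by positivity
  have h2 := h1.trans (ERRC_sum n0 F j)
  have h3 : (1 / 16 : ℝ) ^ e * 16 ^ e = 1 := by rw [← mul_pow]; norm_num
  calc (((Finset.range (2 ^ (n0 + j))).filter (fun w => err n0 F j w ≤ e)).card : ℝ)
      = (((Finset.range (2 ^ (n0 + j))).filter (fun w => err n0 F j w ≤ e)).card : ℝ) *
        (1 / 16 : ℝ) ^ e * 16 ^ e := by rw [mul_assoc, h3, mul_one]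
    _ ≤ _ := mul_le_mul_of_nonneg_right h2 (by positivity)

end Pool.Agent.LogSc
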