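import Pool.Agent.LogSc.Cell

open MeasureTheory Set Filter Topology
open scoped ENNReal NNReal

namespace Pool.Agent.LogSc

/-! ERRX. The errors of the word of `x` are the errors along the orbit. HINT: for `i < j`:
`cell 2 (n0 + j) x % 2 ^ (n0 + i + 1) = cell 2 (n0 + i + 1) (2 ^ (j - 1 - i) • x)` (`cell_smul`), then
`cell_div`; reflect the range `i ↦ j - 1 - i`. -/

theorem ERRX_a (n0 i j : ℕ) (x : T) (h : i < j) :
    (cell 2 (n0 + j) x % 2 ^ (n0 + i + 1)) / 2 ^ (n0 + i) = cell 2 1 (2 ^ (j - 1 - i) • x) := by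
  have h1 := cell_smul (b := 2) (by norm_num) (n0 + i + 1) (j - 1 - i) x
  have e : n0 + i + 1 + (j - 1 - i) = n0 + j := by omega
  rw [e] at h1
  rw [← h1]
  exact cell_div (b := 2) (by norm_num) (n0 + i) 1 _

theorem ERRX_b (n0 i j : ℕ) (x : T) (h : i < j) :
    (cell 2 (n0 + j) x % 2 ^ (n0 + i)) / 2 ^ i = cell 2 n0 (2 ^ (j - 1 - i + 1) • x) := by
  have h1 := cell_smul (b := 2) (by norm_num) (n0 + i) (j - 1 - i + 1) x
  have e : n0 + i + (j - 1 - i + 1) = n0 + j := by omega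
  rw [e] at h1
  rw [← h1, Nat.add_comm n0 i]
  exact cell_div (b := 2) (by norm_num) i n0 _

theorem err_cell (n0 : ℕ) (F : ℕ → ℕ) (j : ℕ) (x : T) :
    err n0 F j (cell 2 (n0 + j) x) =
      ((Finset.range j).filter (fun i =>
        cell 2 1 (2 ^ i • x) ≠ F (cell 2 n0 (2 ^ (i + 1) • x)))).card := by
  unfold err
  refine Finset.card_bij' (fun i _ => j - 1 - i) (fun i _ => j - 1 - i) ?_ ?_ ?_ ?_
  · intro i hi
    rw [Finset.mem_filter, Finset.mem_range] at hi ⊢
    obtain ⟨hi, h⟩ := hi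
    refine ⟨by omega, ?_⟩
    rwa [ERRX_a n0 i j x hi, ERRX_b n0 i j x hi] at h
  · intro i hi
    rw [Finset.mem_filter, Finset.mem_range] at hi ⊢
    obtain ⟨hi, h⟩ := hi
    refine ⟨by omega, ?_⟩
    have hi' : j - 1 - i < j := by omega
    rw [ERRX_a n0 _ j x hi', ERRX_b n0 _ j x hi']
    have e : j - 1 - (j - 1 - i) = i := by omega
    rwa [e]
  · intro i hi
    rw [Finset.mem_filter, Finset.mem_range] at hi
    show j - 1 - (j - 1 - i) = i
    omega
  · intro i hi
    rw [Finset.mem_filter, Finset.mem_range] at hi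
    show j - 1 - (j - 1 - i) = i
    omega

end Pool.Agent.LogSc
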