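import Pool.Agent.LogSc.Pred
import Pool.Agent.LogSc.ErrCard
import Pool.Agent.LogSc.ErrCell

open MeasureTheory Set Filter Topology
open scoped ENNReal NNReal

namespace Pool.Agent.LogSc

/-! COVER. Small covering sets. -/

theorem COVER_mp {σ : Measure T} (h2 : MeasurePreserving (fun x : T => 2 • x) σ σ) :
    ∀ i : ℕ, MeasurePreserving (fun x : T => 2 ^ i • x) σ σ
  | 0 => by
      simp only [pow_zero, one_smul]
      exact MeasurePreserving.id σ
  | i + 1 => by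
      have h := h2.comp (COVER_mp h2 i)
      have e : (fun x : T => 2 ^ (i + 1) • x) = (fun x : T => 2 • x) ∘ (fun x : T => 2 ^ i • x) := by
        funext x
        simp only [Function.comp_apply]
        rw [pow_succ', mul_smul]
      rw [e]
      exact h

theorem COVER_count (n0 : ℕ) (F : ℕ → ℕ) (r : ℕ) (hr : r = n0 + 6) :
    64 * ((Finset.range (2 ^ (n0 + 16 * r))).filter
      (fun w => err n0 F (16 * r) w ≤ r)).card ^ 2 ≤ 2 ^ (n0 + 16 * r) := by
  have h1 := err_card n0 F (16 * r) r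
  obtain ⟨c, hc⟩ : ∃ c, c = ((Finset.range (2 ^ (n0 + 16 * r))).filter
      (fun w => err n0 F (16 * r) w ≤ r)).card := ⟨_, rfl⟩
  rw [← hc] at h1 ⊢
  have h2 : (64 * (c : ℝ) ^ 2) ≤ 2 ^ (n0 + 16 * r) := by
    have h3 : (c : ℝ) ^ 2 ≤ (2 ^ n0 * (17 / 16) ^ (16 * r) * 16 ^ r) ^ 2 :=
      pow_le_pow_left₀ (Nat.cast_nonneg _) h1 2
    have h4 : ((2 : ℝ) ^ n0 * (17 / 16) ^ (16 * r) * 16 ^ r) ^ 2 =
        2 ^ n0 * 2 ^ n0 * ((17 / 16) ^ 32 * 256) ^ r := by
      rw [mul_pow, mul_pow, mul_pow, ← pow_mul, ← pow_mul, ← pow_mul, ← pow_mul]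
      rw [show (256 : ℝ) = 16 ^ 2 by norm_num, ← pow_mul]
      ring
    have h5 : ((17 / 16 : ℝ) ^ 32 * 256) ^ r ≤ 2048 ^ r := by
      apply pow_le_pow_left₀ (by positivity)
      norm_num
    have h6 : (64 : ℝ) * (2 ^ n0 * 2 ^ n0 * 2048 ^ r) ≤ 2 ^ (n0 + 16 * r) := by
      have e1 : (2 : ℝ) ^ (n0 + 16 * r) = 2 ^ n0 * (32 ^ r * 2048 ^ r) := by
        rw [pow_add, ← mul_pow, pow_mul]
        norm_num
      have e2 : (64 : ℝ) * 2 ^ n0 ≤ 32 ^ r := by
        rw [hr]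
        calc (64 : ℝ) * 2 ^ n0 = 2 ^ (n0 + 6) := by rw [pow_add]; ring
          _ ≤ 32 ^ (n0 + 6) := pow_le_pow_left₀ (by norm_num) (by norm_num) _
      rw [e1]
      calc (64 : ℝ) * (2 ^ n0 * 2 ^ n0 * 2048 ^ r) = 2 ^ n0 * ((64 * 2 ^ n0) * 2048 ^ r) := by ring
        _ ≤ 2 ^ n0 * (32 ^ r * 2048 ^ r) := by
            apply mul_le_mul_of_nonneg_left _ (by positivity)
            exact mul_le_mul_of_nonneg_right e2 (by positivity)
    calc 64 * (c : ℝ) ^ 2 ≤ 64 * (2 ^ n0 * 2 ^ n0 * ((17 / 16) ^ 32 * 256) ^ r) := by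
          rw [← h4]
          exact mul_le_mul_of_nonneg_left h3 (by norm_num)
      _ ≤ 64 * (2 ^ n0 * 2 ^ n0 * 2048 ^ r) := by
          apply mul_le_mul_of_nonneg_left _ (by norm_num)
          exact mul_le_mul_of_nonneg_left h5 (by positivity)
      _ ≤ _ := h6
  exact_mod_cast h2

theorem cover {σ : Measure T} [IsFiniteMeasure σ]
    (h2 : MeasurePreserving (fun x : T => 2 • x) σ σ) {X : Set T} (hX : MeasurableSet X)
    (hX0 : σ Xᶜ = 0) (hinj : InjOn (fun x : T => 2 • x) X) {δ : ℝ≥0∞} (hδ : δ ≠ 0) :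
    ∃ (L : ℕ) (W : Finset ℕ), 64 * W.card ^ 2 ≤ 2 ^ L ∧ σ {x | cell 2 L x ∉ W} ≤ δ := by
  have hδ' : δ / 16 ≠ 0 := by
    rw [Ne, ENNReal.div_eq_zero_iff, not_or]
    exact ⟨hδ, by norm_num⟩
  obtain ⟨n0, F, hF⟩ := pred h2 hX hX0 hinj hδ'
  obtain ⟨r, hr⟩ : ∃ r, r = n0 + 6 := ⟨_, rfl⟩
  refine ⟨n0 + 16 * r, (Finset.range (2 ^ (n0 + 16 * r))).filter
      (fun w => err n0 F (16 * r) w ≤ r), COVER_count n0 F r hr, ?_⟩
  set E : Set T := {x | cell 2 1 x ≠ F (cell 2 n0 (2 • x))} with hE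
  have hm2 : ∀ k : ℕ, Measurable (fun x : T => k • x) := fun k => (continuous_const_smul k).measurable
  have hEm : MeasurableSet E := by
    have h1 : Measurable (fun x : T => F (cell 2 n0 (2 • x))) :=
      (measurable_of_countable F).comp ((measurable_cell 2 n0).comp (hm2 2))
    exact (measurableSet_eq_fun (measurable_cell 2 1) h1).compl
  let S : T → ℝ≥0∞ := fun x => ∑ i ∈ Finset.range (16 * r), E.indicator 1 (2 ^ i • x)
  have hSm : Measurable S :=
    Finset.measurable_sum _ (fun i _ => (measurable_one.indicator hEm).comp (hm2 _))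
  have hSint : ∫⁻ x, S x ∂σ ≤ r * δ := by
    calc ∫⁻ x, S x ∂σ = ∑ i ∈ Finset.range (16 * r), ∫⁻ x, E.indicator 1 (2 ^ i • x) ∂σ :=
          lintegral_finsetSum _ (fun i _ => (measurable_one.indicator hEm).comp (hm2 _))
      _ = ∑ i ∈ Finset.range (16 * r), σ E := by
          refine Finset.sum_congr rfl fun i _ => ?_
          rw [(COVER_mp h2 i).lintegral_comp (measurable_one.indicator hEm),
            lintegral_indicator_one hEm]
      _ = (16 * r : ℕ) * σ E := by rw [Finset.sum_const, Finset.card_range, nsmul_eq_mul]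
      _ ≤ (16 * r : ℕ) * (δ / 16) := by gcongr
      _ = r * δ := by
          push_cast
          rw [ENNReal.div_eq_inv_mul]
          rw [show (16 : ℝ≥0∞) * r * (16⁻¹ * δ) = (16 * 16⁻¹) * (r * δ) by ring]
          rw [ENNReal.mul_inv_cancel (by norm_num) (by norm_num), one_mul]
  have hsub : {x | cell 2 (n0 + 16 * r) x ∉ (Finset.range (2 ^ (n0 + 16 * r))).filter
      (fun w => err n0 F (16 * r) w ≤ r)} ⊆ {x | (r : ℝ≥0∞) ≤ S x} := by
    intro x hx
    have h1 : r < err n0 F (16 * r) (cell 2 (n0 + 16 * r) x) := by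
      by_contra h
      push Not at h
      exact hx (Finset.mem_filter.2 ⟨Finset.mem_range.2 (cell_lt (by norm_num) _ x), h⟩)
    rw [err_cell] at h1
    show (r : ℝ≥0∞) ≤ ∑ i ∈ Finset.range (16 * r), E.indicator 1 (2 ^ i • x)
    have h3 : ∑ i ∈ Finset.range (16 * r), E.indicator (1 : T → ℝ≥0∞) (2 ^ i • x) =
        (((Finset.range (16 * r)).filter (fun i =>
        cell 2 1 (2 ^ i • x) ≠ F (cell 2 n0 (2 ^ (i + 1) • x)))).card : ℝ≥0∞) := by
      rw [Finset.card_eq_sum_ones, Nat.cast_sum, Finset.sum_filter]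
      refine Finset.sum_congr rfl fun i _ => ?_
      have h4 : (2 ^ i • x ∈ E) ↔ cell 2 1 (2 ^ i • x) ≠ F (cell 2 n0 (2 ^ (i + 1) • x)) := by
        rw [hE]
        show cell 2 1 (2 ^ i • x) ≠ F (cell 2 n0 (2 • 2 ^ i • x)) ↔ _
        rw [← mul_smul, ← pow_succ']
      by_cases h5 : 2 ^ i • x ∈ E
      · rw [indicator_of_mem h5, if_pos (h4.1 h5)]
        simp
      · rw [indicator_of_notMem h5, if_neg (fun h => h5 (h4.2 h))]
    rw [h3]
    exact_mod_cast h1.le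
  refine (measure_mono hsub).trans ?_
  have hmk := mul_meas_ge_le_lintegral (μ := σ) hSm (r : ℝ≥0∞)
  have hr0 : (r : ℝ≥0∞) ≠ 0 := by
    have : r ≠ 0 := by omega
    exact_mod_cast this
  have h6 := hmk.trans hSint
  exact (ENNReal.mul_le_mul_iff_right hr0 (ENNReal.natCast_ne_top r)).1 h6

end Pool.Agent.LogSc
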