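import Pool.Agent.LogSc.Defs

open MeasureTheory Set Filter Topology
open scoped ENNReal NNReal

namespace Pool.Agent.LogSc

/-! EXH. A maximal good set. HINT: a countable union of good sets is good: with
`N = ⋃ n, (preimage of V_n) ∆ V_n` and `N' = ⋃ n, V_n \ V_n'` (both null) take `V' = (⋃ V_n) \ (N ∪ N')`
(up to measurable supersets of null sets): `x ∈ V_n`, `p • x = p • y` give `p • y ∈ V_n`, `y ∈ V_n`, so
`x, y ∈ V_n'`. Then take `V_n` good with `σ V_n → sup`. -/

theorem EXH_iUnion {σ : Measure T} {p : ℕ} {V : ℕ → Set T} (hV : ∀ n, Good σ p (V n)) :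
    Good σ p (⋃ n, V n) := by
  have hmeas : Measurable (fun x : T => p • x) :=
    (continuous_const_smul (T := T) p).measurable
  choose h1 h2 V' h3 h4 h5 h6 using hV
  have hpre : ∀ n, MeasurableSet ((fun x : T => p • x) ⁻¹' V n) := fun n => hmeas (h1 n)
  have hN : ∀ n, σ (((fun x : T => p • x) ⁻¹' V n) \ V n ∪ V n \ ((fun x : T => p • x) ⁻¹' V n)) = 0 := by
    intro n
    have := measure_symmDiff_eq_zero_iff.2 (h2 n)
    exact this
  refine ⟨MeasurableSet.iUnion h1, ?_, (⋃ n, V n) \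
    ((⋃ n, (((fun x : T => p • x) ⁻¹' V n) \ V n ∪ V n \ ((fun x : T => p • x) ⁻¹' V n))) ∪
      ⋃ n, V n \ V' n), sdiff_subset, ?_, ?_, ?_⟩
  · rw [preimage_iUnion]
    exact Filter.EventuallyEq.countable_iUnion h2
  · exact (MeasurableSet.iUnion h1).diff ((MeasurableSet.iUnion fun n =>
      ((hpre n).diff (h1 n)).union ((h1 n).diff (hpre n))).union
        (MeasurableSet.iUnion fun n => (h1 n).diff (h4 n)))
  · have hsub : (⋃ n, V n) \ ((⋃ n, V n) \
        ((⋃ n, (((fun x : T => p • x) ⁻¹' V n) \ V n ∪ V n \ ((fun x : T => p • x) ⁻¹' V n))) ∪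
          ⋃ n, V n \ V' n)) ⊆
        ((⋃ n, (((fun x : T => p • x) ⁻¹' V n) \ V n ∪ V n \ ((fun x : T => p • x) ⁻¹' V n))) ∪
          ⋃ n, V n \ V' n) := by
      rintro x ⟨hx1, hx2⟩
      by_contra hx3
      exact hx2 ⟨hx1, hx3⟩
    refine measure_mono_null hsub ?_
    refine measure_union_null (measure_iUnion_null hN) (measure_iUnion_null h5)
  · rintro x ⟨hx1, hx2⟩ y ⟨hy1, hy2⟩ hxy
    obtain ⟨n, hxn⟩ := mem_iUnion.1 hx1
    have hx3 : p • x ∈ V n := by
      by_contra hc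
      exact hx2 (Or.inl (mem_iUnion.2 ⟨n, Or.inr ⟨hxn, hc⟩⟩))
    have hx4 : x ∈ V' n := by
      by_contra hc
      exact hx2 (Or.inr (mem_iUnion.2 ⟨n, hxn, hc⟩))
    have hy3 : p • y ∈ V n := by
      have : p • x = p • y := hxy
      rw [← this]
      exact hx3
    have hy4 : y ∈ V n := by
      by_contra hc
      exact hy2 (Or.inl (mem_iUnion.2 ⟨n, Or.inl ⟨hy3, hc⟩⟩))
    have hy5 : y ∈ V' n := by
      by_contra hc
      exact hy2 (Or.inr (mem_iUnion.2 ⟨n, hy4, hc⟩))
    exact h6 n hx4 hy5 hxy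

theorem exh {σ : Measure T} [IsFiniteMeasure σ] (p : ℕ) :
    ∃ W, Good σ p W ∧ ∀ V, Good σ p V → σ (V \ W) = 0 := by
  let S : Set ℝ≥0∞ := {r | ∃ V, Good σ p V ∧ σ V = r}
  have hne : S.Nonempty := by
    refine ⟨σ ∅, ∅, ⟨MeasurableSet.empty, ?_, ∅, subset_rfl, MeasurableSet.empty, ?_, ?_⟩, rfl⟩
    · rw [preimage_empty]
    · simp
    · exact injOn_empty _
  obtain ⟨u, -, hu2, hu3⟩ := exists_seq_tendsto_sSup hne (OrderTop.bddAbove S)
  choose V hV1 hV2 using hu3
  have hW := EXH_iUnion hV1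
  have hσW : ∀ V0, Good σ p V0 → σ V0 ≤ σ (⋃ n, V n) := by
    intro V0 hV0
    have h1 : σ V0 ≤ sSup S := le_sSup ⟨V0, hV0, rfl⟩
    refine h1.trans (le_of_tendsto hu2 (Eventually.of_forall fun n => ?_))
    rw [← hV2 n]
    exact measure_mono (subset_iUnion V n)
  refine ⟨⋃ n, V n, hW, ?_⟩
  intro V0 hV0
  have h2 : Good σ p ((⋃ n, V n) ∪ V0) := by
    have h3 := EXH_iUnion (σ := σ) (p := p) (V := fun n : ℕ => if n = 0 then (⋃ n, V n) else V0)
      (by
        intro n
        by_cases hn : n = 0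
        · simp only [hn, if_true]
          exact hW
        · simp only [hn, if_false]
          exact hV0)
    have h4 : (⋃ k : ℕ, (if k = 0 then (⋃ n, V n) else V0)) = (⋃ n, V n) ∪ V0 := by
      ext x
      simp only [mem_iUnion, mem_union]
      constructor
      · rintro ⟨k, hk⟩
        by_cases hk0 : k = 0
        · left
          rw [if_pos hk0] at hk
          exact mem_iUnion.1 hk
        · right
          rw [if_neg hk0] at hk
          exact hk
      · rintro (h | h)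
        · refine ⟨0, ?_⟩
          rw [if_pos rfl]
          exact mem_iUnion.2 h
        · refine ⟨1, ?_⟩
          rw [if_neg one_ne_zero]
          exact h
    rw [h4] at h3
    exact h3
  have h5 := hσW _ h2
  have h6 : σ ((⋃ n, V n) ∪ V0) = σ (⋃ n, V n) + σ (V0 \ ⋃ n, V n) := by
    rw [← measure_union disjoint_sdiff_self_right (hV0.1.diff hW.1), union_sdiff_self]
  rw [h6] at h5
  have h7 : σ (⋃ n, V n) ≠ ⊤ := measure_ne_top _ _
  by_contra h8
  have h9 : σ (⋃ n, V n) < σ (⋃ n, V n) + σ (V0 \ ⋃ n, V n) :=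
    ENNReal.lt_add_right h7 h8
  exact absurd h5 (not_le.2 h9)

end Pool.Agent.LogSc
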