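import Pool.Agent.LogSc.Nt

open MeasureTheory Set Filter Topology
open scoped ENNReal NNReal

namespace Pool.Agent.LogSc

/-! AVG. Exponential sums over a full period. HINT: `z' = h • (d / p ^ k)` has order `p ^ τ` with
`4 ≤ τ ≤ k` (`v_p h ≤ |h|`). By `nt2` there is `j` with `m ^ j • z' = z' + ω`, `ω ≠ 0`, `p • ω = 0`, hence
`m • ω = ω` (`p ∣ m - 1`), and `m ^ (p ^ k) • z' = z'` (`nt3`). Shifting the sum by `j`:
`S = fourier 1 ω * S` and `fourier 1 ω ≠ 1`. -/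

/-- The character `n ↦ e (n / N)`. -/
noncomputable def AVG_g (N : ℝ) (n : ℤ) : ℂ := (AddCircle.toCircle ((((n : ℝ) / N : ℝ)) : T) : ℂ)

theorem AVG_add (N : ℝ) (a b : ℤ) : AVG_g N (a + b) = AVG_g N a * AVG_g N b := by
  unfold AVG_g
  rw [← Circle.coe_mul, ← AddCircle.toCircle_add, ← AddCircle.coe_add]
  congr 3
  push_cast
  ring

theorem AVG_one {N : ℕ} (hN : 0 < N) {a : ℤ} (h : (N : ℤ) ∣ a) : AVG_g (N : ℝ) a = 1 := by
  obtain ⟨c, rfl⟩ := h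
  unfold AVG_g
  have h1 : ((((N : ℤ) * c : ℤ) : ℝ) / (N : ℝ)) = c := by
    push_cast
    field_simp
  rw [h1]
  have h2 : (((c : ℝ)) : T) = 0 := by
    rw [AddCircle.coe_eq_zero_iff]
    exact ⟨c, by simp⟩
  rw [h2]
  simp

theorem AVG_dvd {N : ℕ} (hN : 0 < N) {a : ℤ} (h : AVG_g (N : ℝ) a = 1) : (N : ℤ) ∣ a := by
  unfold AVG_g at h
  have h1 : AddCircle.toCircle ((((a : ℝ) / (N : ℝ) : ℝ)) : T) = AddCircle.toCircle (0 : T) := by
    rw [AddCircle.toCircle_zero]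
    exact Circle.ext (h.trans Circle.coe_one.symm)
  have h2 := AddCircle.injective_toCircle one_ne_zero h1
  rw [AddCircle.coe_eq_zero_iff] at h2
  obtain ⟨n, hn⟩ := h2
  refine ⟨n, ?_⟩
  have hN' : (N : ℝ) ≠ 0 := by positivity
  have h3 : (a : ℝ) = (N : ℝ) * (n : ℝ) := by
    have h4 : (n : ℝ) = (a : ℝ) / (N : ℝ) := by simpa using hn
    rw [h4]
    field_simp
  exact_mod_cast h3

theorem AVG_fourier (N : ℝ) (h d : ℤ) (M : ℕ) :
    fourier h (M • ((((d : ℝ) / N : ℝ)) : T)) = AVG_g N (h * d * M) := by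
  rw [fourier_apply, AVG_g]
  congr 2
  rw [← AddCircle.coe_nsmul, ← AddCircle.coe_zsmul]
  congr 1
  simp only [zsmul_eq_mul, nsmul_eq_mul]
  push_cast
  ring

theorem AVG_shift {f : ℕ → ℂ} {N : ℕ} (hf : ∀ i, f (i + N) = f i) (j : ℕ) :
    ∑ i ∈ Finset.range N, f (i + j) = ∑ i ∈ Finset.range N, f i := by
  induction j with
  | zero => simp
  | succ j ih =>
    rw [← ih]
    have h1 := Finset.sum_range_succ (fun i => f (i + j)) N
    have h2 := Finset.sum_range_succ' (fun i => f (i + j)) N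
    have h3 : f (N + j) = f (0 + j) := by
      rw [add_comm N j, hf, zero_add]
    rw [h1] at h2
    rw [h3] at h2
    have h4 := add_right_cancel h2
    rw [h4]
    refine Finset.sum_congr rfl fun i _ => ?_
    congr 1
    ring

theorem AVG_prime {p m : ℕ} (hpm : PM p m) : p.Prime := by
  rcases hpm with ⟨rfl, -⟩ | ⟨rfl, -⟩ <;> norm_num

theorem AVG_mod {p m : ℕ} (hpm : PM p m) : (p : ℤ) ∣ (m : ℤ) - 1 := by
  rcases hpm with ⟨rfl, rfl⟩ | ⟨rfl, rfl⟩ <;> norm_num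

theorem AVG_pos {p m : ℕ} (hpm : PM p m) (j : ℕ) : 1 ≤ m ^ j := by
  rcases hpm with ⟨rfl, rfl⟩ | ⟨rfl, rfl⟩ <;> exact Nat.one_le_pow _ _ (by norm_num)

theorem avg_zero {p m k : ℕ} (hpm : PM p m) {h : ℤ} (hh : h ≠ 0) {d : ℤ}
    (hd : ¬ (p : ℤ) ^ k ∣ (p : ℤ) ^ (3 + h.natAbs) * d) :
    ∑ i ∈ Finset.range (p ^ k),
      fourier h (m ^ i • ((((d : ℝ) / (p : ℝ) ^ k : ℝ)) : T)) = 0 := by
  have hp := AVG_prime hpm
  have hd0 : d ≠ 0 := by
    rintro rfl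
    exact hd (by simp)
  have hpos : 0 < p ^ k := Nat.pow_pos hp.pos
  have hpi : Prime (p : ℤ) := Nat.prime_iff_prime_int.1 hp
  -- write `h * d = p ^ v * u`
  have hhd : h * d ≠ 0 := mul_ne_zero hh hd0
  obtain ⟨v, u, hu, hvu⟩ : ∃ (v : ℕ) (u : ℤ), ¬ (p : ℤ) ∣ u ∧ h * d = (p : ℤ) ^ v * u := by
    have hfin : FiniteMultiplicity (p : ℤ) (h * d) := by
      rw [Int.finiteMultiplicity_iff]
      refine ⟨?_, hhd⟩
      simp only [Int.natAbs_natCast]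
      exact hp.one_lt.ne'
    obtain ⟨u, h1, h2⟩ := hfin.exists_eq_pow_mul_and_not_dvd
    exact ⟨_, u, h2, h1⟩
  have hv : v + 4 ≤ k := by
    by_contra hcon
    apply hd
    -- `p ^ (v + 3) ∣ p ^ (3 + |h|) * d`
    have h1 : (p : ℤ) ^ k ∣ (p : ℤ) ^ (v + 3) := pow_dvd_pow _ (by omega)
    refine h1.trans ?_
    -- `h = p ^ a * b`
    obtain ⟨a, b, hb, hab⟩ : ∃ (a : ℕ) (b : ℤ), ¬ (p : ℤ) ∣ b ∧ h = (p : ℤ) ^ a * b := by
      have hfin : FiniteMultiplicity (p : ℤ) h := by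
        rw [Int.finiteMultiplicity_iff]
        refine ⟨?_, hh⟩
        simp only [Int.natAbs_natCast]
        exact hp.one_lt.ne'
      obtain ⟨u, h1, h2⟩ := hfin.exists_eq_pow_mul_and_not_dvd
      exact ⟨_, u, h2, h1⟩
    have ha : a ≤ h.natAbs := by
      have h3 : p ^ a ∣ h.natAbs := by
        rw [hab, Int.natAbs_mul, Int.natAbs_pow, Int.natAbs_natCast]
        exact Dvd.intro _ rfl
      have h4 := Nat.le_of_dvd (Int.natAbs_pos.2 hh) h3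
      exact (Nat.lt_pow_self hp.one_lt).le.trans h4
    have h5 : (p : ℤ) ^ v ∣ (p : ℤ) ^ a * d := by
      have h6 : (p : ℤ) ^ v ∣ b * ((p : ℤ) ^ a * d) := by
        have : b * ((p : ℤ) ^ a * d) = h * d := by rw [hab]; ring
        rw [this, hvu]
        exact Dvd.intro _ rfl
      have h7 : IsCoprime ((p : ℤ) ^ v) b :=
        ((Prime.coprime_iff_not_dvd hpi).2 hb).pow_left
      exact h7.dvd_of_dvd_mul_left h6
    have h8 : (p : ℤ) ^ (v + 3) ∣ (p : ℤ) ^ (a + 3) * d := by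
      rw [pow_add, pow_add, mul_right_comm]
      exact mul_dvd_mul_right h5 _
    refine h8.trans (mul_dvd_mul_right (pow_dvd_pow _ (by omega)) _)
  obtain ⟨j, hj1, hj2⟩ := nt2 hpm (τ := k - v) (by omega)
  set f : ℕ → ℂ := fun i => AVG_g ((p : ℝ) ^ k) (h * d * (m : ℤ) ^ i) with hf
  have hcast : ((p ^ k : ℕ) : ℝ) = (p : ℝ) ^ k := by push_cast; rfl
  have hsum : ∑ i ∈ Finset.range (p ^ k),
      fourier h (m ^ i • ((((d : ℝ) / (p : ℝ) ^ k : ℝ)) : T)) = ∑ i ∈ Finset.range (p ^ k), f i := by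
    refine Finset.sum_congr rfl fun i _ => ?_
    rw [AVG_fourier, hf]
    push_cast
    rfl
  rw [hsum]
  have hdif : ∀ a b : ℤ, ((p ^ k : ℕ) : ℤ) ∣ a - b →
      AVG_g ((p : ℝ) ^ k) a = AVG_g ((p : ℝ) ^ k) b := by
    intro a b hab
    have h1 : a = b + (a - b) := by ring
    rw [h1, AVG_add, ← hcast, AVG_one hpos hab, mul_one]
  have hsub : ∀ j : ℕ, ((m ^ j - 1 : ℕ) : ℤ) = (m : ℤ) ^ j - 1 := by
    intro j
    rw [Nat.cast_sub (AVG_pos hpm j)]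
    push_cast
    rfl
  -- period
  have hper : ∀ i, f (i + p ^ k) = f i := by
    intro i
    refine hdif _ _ ?_
    have h1 : ((p ^ k : ℕ) : ℤ) ∣ ((m ^ (p ^ k) - 1 : ℕ) : ℤ) := Int.natCast_dvd_natCast.2 (nt3 hpm k)
    rw [hsub] at h1
    have h2 : h * d * (m : ℤ) ^ (i + p ^ k) - h * d * (m : ℤ) ^ i =
        (h * d * (m : ℤ) ^ i) * ((m : ℤ) ^ (p ^ k) - 1) := by ring
    rw [h2]
    exact Dvd.dvd.mul_left h1 _
  -- shift
  set ω : ℂ := AVG_g ((p : ℝ) ^ k) (h * d * ((m : ℤ) ^ j - 1)) with hω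
  have hstep : ∀ i, f (i + j) = ω * f i := by
    intro i
    rw [hω, hf]
    simp only
    rw [← AVG_add]
    refine hdif _ _ ?_
    have h1 : ((p ^ (k - v - 1) : ℕ) : ℤ) ∣ ((m ^ j - 1 : ℕ) : ℤ) := Int.natCast_dvd_natCast.2 hj1
    rw [hsub] at h1
    have h2 : (p : ℤ) ∣ (m : ℤ) ^ i - 1 := by
      refine (AVG_mod hpm).trans ?_
      simpa using sub_dvd_pow_sub_pow (m : ℤ) 1 i
    obtain ⟨c1, hc1⟩ := h1
    obtain ⟨c2, hc2⟩ := h2
    have h3 : h * d * (m : ℤ) ^ (i + j) - (h * d * ((m : ℤ) ^ j - 1) + h * d * (m : ℤ) ^ i) =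
        (h * d) * ((m : ℤ) ^ j - 1) * ((m : ℤ) ^ i - 1) := by ring
    rw [h3, hvu, hc1, hc2]
    refine ⟨u * c1 * c2, ?_⟩
    have h4 : ((p ^ k : ℕ) : ℤ) = (p : ℤ) ^ v * (p : ℤ) ^ (k - v - 1) * (p : ℤ) := by
      push_cast
      rw [← pow_add, ← pow_succ]
      congr 1
      omega
    rw [h4]
    push_cast
    ring
  have hω1 : ω ≠ 1 := by
    intro hcon
    rw [hω, ← hcast] at hcon
    have h1 := AVG_dvd hpos hcon
    rw [hvu] at h1
    apply hj2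
    rw [← Int.natCast_dvd_natCast, hsub]
    have h2 : ((p ^ k : ℕ) : ℤ) = (p : ℤ) ^ v * (p : ℤ) ^ (k - v) := by
      push_cast
      rw [← pow_add]
      congr 1
      omega
    rw [h2, mul_assoc] at h1
    have h3 : (p : ℤ) ^ (k - v) ∣ u * ((m : ℤ) ^ j - 1) :=
      (mul_dvd_mul_iff_left (pow_ne_zero _ hpi.ne_zero)).1 h1
    have h4 : IsCoprime ((p : ℤ) ^ (k - v)) u :=
      ((Prime.coprime_iff_not_dvd hpi).2 hu).pow_left
    push_cast
    exact h4.dvd_of_dvd_mul_left h3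
  have h1 := AVG_shift hper j
  simp_rw [hstep] at h1
  rw [← Finset.mul_sum] at h1
  have h2 : (ω - 1) * ∑ i ∈ Finset.range (p ^ k), f i = 0 := by
    rw [sub_mul, h1, one_mul, sub_self]
  rcases mul_eq_zero.1 h2 with h3 | h3
  · exact absurd (sub_eq_zero.1 h3) hω1
  · exact h3

end Pool.Agent.LogSc
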