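import Pool.Agent.LogSc.Suffix
import Pool.Agent.LogSc.Avg

open MeasureTheory Set Filter Topology
open scoped ENNReal NNReal

namespace Pool.Agent.LogSc

/-! FOU. The Fourier estimate. -/

theorem FOU_cs {ν : Measure T} [IsFiniteMeasure ν] {g : T → ℂ} (hg : Measurable g) {C : ℝ}
    (hC : ∀ z, ‖g z‖ ≤ C) : ‖∫ z, g z ∂ν‖ ^ 2 ≤ (ν univ).toReal * ∫ z, ‖g z‖ ^ 2 ∂ν := by
  have hC0 : 0 ≤ C := (norm_nonneg _).trans (hC 0)
  have i1 : Integrable (fun z => ‖g z‖) ν := by
    refine Integrable.of_bound hg.norm.aestronglyMeasurable C ?_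
    exact Eventually.of_forall fun z => by rw [norm_norm]; exact hC z
  have i2 : Integrable (fun z => ‖g z‖ ^ 2) ν := by
    refine Integrable.of_bound (hg.norm.pow_const 2).aestronglyMeasurable (C ^ 2) ?_
    refine Eventually.of_forall fun z => ?_
    rw [Real.norm_of_nonneg (by positivity)]
    exact pow_le_pow_left₀ (norm_nonneg _) (hC z) 2
  set I := ∫ z, ‖g z‖ ∂ν with hI
  set J := ∫ z, ‖g z‖ ^ 2 ∂ν with hJ
  set V := (ν univ).toReal with hV
  have hV0 : 0 ≤ V := ENNReal.toReal_nonneg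
  have hI0 : 0 ≤ I := integral_nonneg fun z => norm_nonneg _
  have hJ0 : 0 ≤ J := integral_nonneg fun z => by positivity
  have h1 : ‖∫ z, g z ∂ν‖ ≤ I := norm_integral_le_integral_norm _
  have h2 : 0 ≤ ∫ z, (V * ‖g z‖ - I) ^ 2 ∂ν := integral_nonneg fun z => by positivity
  have h3 : ∫ z, (V * ‖g z‖ - I) ^ 2 ∂ν = V ^ 2 * J - 2 * V * I * I + I ^ 2 * V := by
    have e : (fun z => (V * ‖g z‖ - I) ^ 2) =
        fun z => (V ^ 2 * ‖g z‖ ^ 2 - 2 * V * I * ‖g z‖) + I ^ 2 := by
      funext z; ring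
    have j1 : Integrable (fun z => V ^ 2 * ‖g z‖ ^ 2 - 2 * V * I * ‖g z‖) ν :=
      (i2.const_mul _).sub (i1.const_mul _)
    rw [e, integral_add j1 (integrable_const _),
      integral_sub (i2.const_mul _) (i1.const_mul _), integral_const_mul, integral_const_mul,
      integral_const, smul_eq_mul]
    simp only [Measure.real]
    rw [← hV]
    ring
  have h4 : I ^ 2 ≤ V * J := by
    rcases hV0.eq_or_lt with h5 | h5
    · have h6 : ν univ = 0 := by
        have := hV.symm.trans h5.symm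
        rcases (ENNReal.toReal_eq_zero_iff _).1 this with h7 | h7
        · exact h7
        · exact absurd h7 (measure_ne_top ν univ)
      have h7 : ν = 0 := Measure.measure_univ_eq_zero.1 h6
      have h8 : I = 0 := by rw [hI, h7]; simp
      rw [h8]
      have := mul_nonneg hV0 hJ0
      simpa using this
    · rw [h3] at h2
      have h6 : 0 ≤ V * (V * J - I ^ 2) := by
        calc (0 : ℝ) ≤ V ^ 2 * J - 2 * V * I * I + I ^ 2 * V := h2
          _ = V * (V * J - I ^ 2) := by ring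
      have h7 := nonneg_of_mul_nonneg_right h6 h5
      linarith
  exact (pow_le_pow_left₀ (norm_nonneg _) h1 2).trans h4

theorem FOU_smul_coe (n : ℕ) (r : ℝ) : n • ((r : ℝ) : T) = (((n : ℝ) * r : ℝ) : T) := by
  rw [← nsmul_eq_mul]
  rfl

theorem FOU_add (h : ℤ) (x y : T) : fourier h (x + y) = fourier h x * fourier h y := by
  rw [fourier_apply, fourier_apply, fourier_apply, smul_add, AddCircle.toCircle_add]
  push_cast
  rfl

theorem FOU_neg (h : ℤ) (x : T) : fourier h (-x) = (starRingEnd ℂ) (fourier h x) := by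
  rw [fourier_apply, fourier_apply, smul_neg, AddCircle.toCircle_neg, Circle.coe_inv_eq_conj]

theorem FOU_norm (h : ℤ) (x : T) : ‖fourier h x‖ = 1 := by
  rw [fourier_apply]
  exact Circle.norm_coe _

/-- the finite inequality -/
theorem FOU_fin {p m : ℕ} (hpm : PM p m) {h : ℤ} (hh : h ≠ 0) (κ : ℕ) (G : ℕ → ℝ)
    (hG : ∀ a, 0 ≤ G a) :
    ∑ i ∈ Finset.range (p ^ (3 + h.natAbs + κ)),
      ‖∑ a ∈ Finset.range (p ^ (3 + h.natAbs + κ)), ((G a : ℝ) : ℂ) *
        fourier h (m ^ i • ((((a : ℝ) / (p : ℝ) ^ (3 + h.natAbs + κ) : ℝ)) : T))‖ ^ 2 ≤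
      (p : ℝ) ^ (3 + h.natAbs + κ) * ∑ a ∈ Finset.range (p ^ (3 + h.natAbs + κ)),
        ∑ b ∈ Finset.range (p ^ (3 + h.natAbs + κ)),
          (if a % p ^ κ = b % p ^ κ then G a * G b else 0) := by
  have hp0 : 0 < p := by
    rcases hpm with ⟨rfl, -⟩ | ⟨rfl, -⟩ <;> norm_num
  obtain ⟨k, hk⟩ : ∃ k, k = 3 + h.natAbs + κ := ⟨_, rfl⟩
  rw [← hk]
  obtain ⟨E, hE'⟩ : ∃ E : ℕ → ℕ → ℂ, ∀ i a : ℕ,
      fourier h (m ^ i • ((((a : ℝ) / (p : ℝ) ^ k : ℝ)) : T)) = E i a :=
    ⟨fun i a => fourier h (m ^ i • ((((a : ℝ) / (p : ℝ) ^ k : ℝ)) : T)), fun _ _ => rfl⟩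
  simp only [hE']
  have hEE : ∀ i a b : ℕ, E i a * (starRingEnd ℂ) (E i b) =
      fourier h (m ^ i • ((((((a : ℤ) - (b : ℤ) : ℤ) : ℝ) / (p : ℝ) ^ k : ℝ)) : T)) := by
    intro i a b
    rw [← hE', ← hE', ← FOU_neg, ← FOU_add, ← smul_neg, ← smul_add, ← AddCircle.coe_neg, ← AddCircle.coe_add]
    congr 3
    push_cast
    ring_nf
  have hsum : ∀ a b : ℕ, ‖∑ i ∈ Finset.range (p ^ k), E i a * (starRingEnd ℂ) (E i b)‖ ≤
      if a % p ^ κ = b % p ^ κ then (p : ℝ) ^ k else 0 := by
    intro a b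
    simp only [hEE]
    split_ifs with hab
    · refine (norm_sum_le _ _).trans ?_
      simp only [FOU_norm]
      rw [Finset.sum_const, Finset.card_range, nsmul_eq_mul, mul_one]
      push_cast
      exact le_rfl
    · rw [avg_zero hpm hh, norm_zero]
      rintro hd
      apply hab
      have h1 : (p : ℤ) ^ k = (p : ℤ) ^ (3 + h.natAbs) * (p : ℤ) ^ κ := by rw [hk, pow_add]
      rw [h1] at hd
      have h2 : (p : ℤ) ^ κ ∣ (a : ℤ) - b :=
        Int.dvd_of_mul_dvd_mul_left (pow_ne_zero _ (by exact_mod_cast hp0.ne')) hd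
      have h3 : ((p ^ κ : ℕ) : ℤ) ∣ (a : ℤ) - b := by exact_mod_cast h2
      exact ((Nat.modEq_iff_dvd.2 (by exact_mod_cast h3)) : b ≡ a [MOD p ^ κ]).symm
  have key : (((∑ i ∈ Finset.range (p ^ k), ‖∑ a ∈ Finset.range (p ^ k),
      ((G a : ℝ) : ℂ) * E i a‖ ^ 2 : ℝ)) : ℂ) =
      ∑ a ∈ Finset.range (p ^ k), ∑ b ∈ Finset.range (p ^ k),
        (((G a * G b : ℝ)) : ℂ) * ∑ i ∈ Finset.range (p ^ k), E i a * (starRingEnd ℂ) (E i b) := by
    push_cast
    have e1 : ∀ i, ((‖∑ a ∈ Finset.range (p ^ k), ((G a : ℝ) : ℂ) * E i a‖ : ℂ)) ^ 2 =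
        ∑ a ∈ Finset.range (p ^ k), ∑ b ∈ Finset.range (p ^ k),
          ((G a : ℂ) * (G b : ℂ)) * (E i a * (starRingEnd ℂ) (E i b)) := by
      intro i
      rw [← Complex.mul_conj', map_sum, Finset.sum_mul_sum]
      refine Finset.sum_congr rfl fun a _ => Finset.sum_congr rfl fun b _ => ?_
      rw [map_mul, Complex.conj_ofReal]
      ring
    simp only [e1]
    rw [Finset.sum_comm]
    refine Finset.sum_congr rfl fun a _ => ?_
    rw [Finset.sum_comm]
    refine Finset.sum_congr rfl fun b _ => ?_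
    rw [Finset.mul_sum]
  have hnn : 0 ≤ ∑ i ∈ Finset.range (p ^ k), ‖∑ a ∈ Finset.range (p ^ k),
      ((G a : ℝ) : ℂ) * E i a‖ ^ 2 := Finset.sum_nonneg fun i _ => by positivity
  rw [← Real.norm_of_nonneg hnn, ← Complex.norm_real, key]
  refine (norm_sum_le _ _).trans ?_
  rw [Finset.mul_sum]
  refine Finset.sum_le_sum fun a _ => ?_
  refine (norm_sum_le _ _).trans ?_
  rw [Finset.mul_sum]
  refine Finset.sum_le_sum fun b _ => ?_
  rw [norm_mul, Complex.norm_real, Real.norm_of_nonneg (mul_nonneg (hG a) (hG b))]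
  refine (mul_le_mul_of_nonneg_left (hsum a b) (mul_nonneg (hG a) (hG b))).trans ?_
  split_ifs
  · rw [mul_comm]
  · simp

theorem fou {ν : Measure T} [IsFiniteMeasure ν] {p m : ℕ} (hpm : PM p m)
    (hp : MeasurePreserving (fun x : T => p • x) ν ν)
    (hm : MeasurePreserving (fun x : T => m • x) ν ν) {h : ℤ} (hh : h ≠ 0) (κ : ℕ) :
    ‖fc ν h‖ ^ 2 ≤ (ν univ).toReal * (∫⁻ x, rhok ν p κ x ∂ν).toReal := by
  have hp0 : 0 < p := by
    rcases hpm with ⟨rfl, -⟩ | ⟨rfl, -⟩ <;> norm_num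
  have hmi : ∀ i : ℕ, MeasurePreserving (fun x : T => m ^ i • x) ν ν := by
    intro i
    induction i with
    | zero =>
      simp only [pow_zero, one_smul]
      exact MeasurePreserving.id ν
    | succ i ih =>
      have h' := hm.comp ih
      have e : (fun x : T => m ^ (i + 1) • x) =
          (fun x : T => m • x) ∘ (fun x : T => m ^ i • x) := by
        funext x
        simp only [Function.comp_apply]
        rw [pow_succ', mul_smul]
      rw [e]
      exact h'
  obtain ⟨k, hk⟩ : ∃ k, k = 3 + h.natAbs + κ := ⟨_, rfl⟩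
  let G : ℕ → T → ℝ := fun a z => (rhok ν p k (br p k a z)).toReal
  have hGm : ∀ a, Measurable (G a) := fun a =>
    ((measurable_rhok ν p k).comp (measurable_br p k a)).ennreal_toReal
  have hG0 : ∀ a z, 0 ≤ G a z := fun a z => ENNReal.toReal_nonneg
  have hG1 : ∀ a z, G a z ≤ 1 := fun a z => by
    have := ENNReal.toReal_mono ENNReal.one_ne_top (rhok_le_one ν p k (br p k a z))
    simpa using this
  let Φ : ℕ → T → ℂ := fun i z => ∑ a ∈ Finset.range (p ^ k), ((G a z : ℝ) : ℂ) *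
    fourier h (m ^ i • ((((a : ℝ) / (p : ℝ) ^ k : ℝ)) : T))
  have hΦm : ∀ i, Measurable (Φ i) := fun i =>
    Finset.measurable_sum _ fun a _ => (Complex.measurable_ofReal.comp (hGm a)).mul_const _
  have hΦb : ∀ i z, ‖Φ i z‖ ≤ (p : ℝ) ^ k := by
    intro i z
    refine (norm_sum_le _ _).trans ?_
    calc _ ≤ ∑ a ∈ Finset.range (p ^ k), (1 : ℝ) := by
          refine Finset.sum_le_sum fun a _ => ?_
          rw [norm_mul, FOU_norm, mul_one, Complex.norm_real, Real.norm_of_nonneg (hG0 a z)]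
          exact hG1 a z
      _ = _ := by simp
  -- one `i`
  have hone : ∀ i, ‖fc ν h‖ ^ 2 ≤ (ν univ).toReal * ∫ z, ‖Φ i z‖ ^ 2 ∂ν := by
    intro i
    have hcont : Continuous (fun x : T => fourier h (m ^ i • x)) :=
      (map_continuous (fourier h)).comp (continuous_const_smul _)
    have e1 : fc ν h = ∫ x, fourier h (m ^ i • x) ∂ν := by
      unfold fc
      have h1 := integral_map (μ := ν) (φ := fun x : T => m ^ i • x)
        (f := fun x => fourier h x) (hmi i).measurable.aemeasurable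
        ((map_continuous (fourier h)).aestronglyMeasurable)
      rw [(hmi i).map_eq] at h1
      exact h1
    have e2 : ∫ x, fourier h (m ^ i • x) ∂ν =
        ∫ z, fourier h (m ^ i • (((rep z / (p : ℝ) ^ k : ℝ)) : T)) * Φ i z ∂ν := by
      rw [int_rhok hp0 hp k hcont]
      refine integral_congr_ae (Eventually.of_forall fun z => ?_)
      simp only [Φ]
      rw [Finset.mul_sum]
      refine Finset.sum_congr rfl fun a _ => ?_
      have e3 : br p k a z = (((a : ℝ) / (p : ℝ) ^ k : ℝ) : T) + ((rep z / (p : ℝ) ^ k : ℝ) : T) := by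
        unfold br
        rw [← AddCircle.coe_add, add_div]
      show ((G a z : ℝ) : ℂ) * fourier h (m ^ i • br p k a z) = _
      rw [e3, smul_add, FOU_add]
      ring
    have hmeas : Measurable (fun z : T =>
        fourier h (m ^ i • (((rep z / (p : ℝ) ^ k : ℝ)) : T)) * Φ i z) := by
      refine Measurable.mul ?_ (hΦm i)
      have h1 : Measurable (fun z : T => (((rep z / (p : ℝ) ^ k : ℝ)) : T)) :=
        (AddCircle.continuous_mk' (1 : ℝ)).measurable.comp (measurable_rep.div_const _)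
      exact hcont.measurable.comp h1
    have h2 := FOU_cs (ν := ν) hmeas (C := (p : ℝ) ^ k) (fun z => by
      rw [norm_mul, FOU_norm, one_mul]
      exact hΦb i z)
    rw [e1, e2]
    refine h2.trans (le_of_eq ?_)
    congr 1
    refine integral_congr_ae (Eventually.of_forall fun z => ?_)
    simp only
    rw [norm_mul, FOU_norm, one_mul]
  -- the sum over `i`
  let Q : T → ℝ := fun z => ∑ a ∈ Finset.range (p ^ k), ∑ b ∈ Finset.range (p ^ k),
    (if a % p ^ κ = b % p ^ κ then G a z * G b z else 0)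
  have hQm : Measurable Q := by
    refine Finset.measurable_sum _ fun a _ => Finset.measurable_sum _ fun b _ => ?_
    split_ifs
    · exact (hGm a).mul (hGm b)
    · exact measurable_const
  have hQ0 : ∀ z, 0 ≤ Q z := by
    intro z
    refine Finset.sum_nonneg fun a _ => Finset.sum_nonneg fun b _ => ?_
    split_ifs
    · exact mul_nonneg (hG0 a z) (hG0 b z)
    · exact le_rfl
  have hQb : ∀ z, Q z ≤ (p : ℝ) ^ k * (p : ℝ) ^ k := by
    intro z
    calc Q z ≤ ∑ a ∈ Finset.range (p ^ k), ∑ b ∈ Finset.range (p ^ k), (1 : ℝ) := by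
          refine Finset.sum_le_sum fun a _ => Finset.sum_le_sum fun b _ => ?_
          split_ifs
          · exact mul_le_one₀ (hG1 a z) (hG0 b z) (hG1 b z)
          · norm_num
      _ = _ := by simp
  have hQi : Integrable Q ν := by
    refine Integrable.of_bound hQm.aestronglyMeasurable ((p : ℝ) ^ k * (p : ℝ) ^ k) ?_
    exact Eventually.of_forall fun z => by
      rw [Real.norm_of_nonneg (hQ0 z)]
      exact hQb z
  have hΦi : ∀ i, Integrable (fun z => ‖Φ i z‖ ^ 2) ν := by
    intro i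
    refine Integrable.of_bound ((hΦm i).norm.pow_const 2).aestronglyMeasurable
      (((p : ℝ) ^ k) ^ 2) ?_
    refine Eventually.of_forall fun z => ?_
    rw [Real.norm_of_nonneg (by positivity)]
    exact pow_le_pow_left₀ (norm_nonneg _) (hΦb i z) 2
  have hV0 : 0 ≤ (ν univ).toReal := ENNReal.toReal_nonneg
  have hpk : (0 : ℝ) < (p : ℝ) ^ k := by positivity
  have hsum : (p : ℝ) ^ k * ‖fc ν h‖ ^ 2 ≤ (ν univ).toReal * ((p : ℝ) ^ k * ∫ z, Q z ∂ν) := by
    calc (p : ℝ) ^ k * ‖fc ν h‖ ^ 2 = ∑ i ∈ Finset.range (p ^ k), ‖fc ν h‖ ^ 2 := by simp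
      _ ≤ ∑ i ∈ Finset.range (p ^ k), (ν univ).toReal * ∫ z, ‖Φ i z‖ ^ 2 ∂ν :=
          Finset.sum_le_sum fun i _ => hone i
      _ = (ν univ).toReal * ∫ z, ∑ i ∈ Finset.range (p ^ k), ‖Φ i z‖ ^ 2 ∂ν := by
          rw [integral_finsetSum _ (fun i _ => hΦi i), Finset.mul_sum]
      _ ≤ (ν univ).toReal * ∫ z, (p : ℝ) ^ k * Q z ∂ν := by
          apply mul_le_mul_of_nonneg_left _ hV0
          refine integral_mono (integrable_finsetSum _ fun i _ => hΦi i) (hQi.const_mul _) ?_
          intro z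
          have h3 := FOU_fin hpm hh κ (fun a => G a z) (fun a => hG0 a z)
          rw [← hk] at h3
          exact h3
      _ = _ := by rw [integral_const_mul]
  have hfin : ‖fc ν h‖ ^ 2 ≤ (ν univ).toReal * ∫ z, Q z ∂ν := by
    have h4 : (p : ℝ) ^ k * ‖fc ν h‖ ^ 2 ≤ (p : ℝ) ^ k * ((ν univ).toReal * ∫ z, Q z ∂ν) := by
      refine hsum.trans (le_of_eq (by ring))
    exact le_of_mul_le_mul_left h4 hpk
  refine hfin.trans (le_of_eq ?_)
  congr 1
  have h5 := pair_lint hp0 hp (3 + h.natAbs) κ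
  rw [← hk] at h5
  rw [← h5]
  rw [← integral_toReal]
  · refine integral_congr_ae (Eventually.of_forall fun z => ?_)
    simp only [Q]
    rw [ENNReal.toReal_sum]
    · refine Finset.sum_congr rfl fun a _ => ?_
      rw [ENNReal.toReal_sum]
      · refine Finset.sum_congr rfl fun b _ => ?_
        split_ifs
        · rw [ENNReal.toReal_mul]
        · simp
      · intro b _
        split_ifs
        · exact ENNReal.mul_ne_top ((rhok_le_one ν p k _).trans_lt ENNReal.one_lt_top).ne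
            ((rhok_le_one ν p k _).trans_lt ENNReal.one_lt_top).ne
        · simp
    · intro a _
      refine (ENNReal.sum_lt_top.2 fun b _ => ?_).ne
      split_ifs
      · exact ENNReal.mul_lt_top ((rhok_le_one ν p k _).trans_lt ENNReal.one_lt_top)
            ((rhok_le_one ν p k _).trans_lt ENNReal.one_lt_top)
      · simp
  · refine Measurable.aemeasurable ?_
    refine Finset.measurable_sum _ fun a _ => Finset.measurable_sum _ fun b _ => ?_
    split_ifs
    · exact ((measurable_rhok ν p k).comp (measurable_br p k a)).mul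
        ((measurable_rhok ν p k).comp (measurable_br p k b))
    · exact measurable_const
  · refine Eventually.of_forall fun z => ?_
    refine ENNReal.sum_lt_top.2 fun a _ => ENNReal.sum_lt_top.2 fun b _ => ?_
    split_ifs
    · exact ENNReal.mul_lt_top ((rhok_le_one ν p k _).trans_lt ENNReal.one_lt_top)
          ((rhok_le_one ν p k _).trans_lt ENNReal.one_lt_top)
    · simp

end Pool.Agent.LogSc
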