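import Pool.Agent.LogSc.Defs

open MeasureTheory Set Filter Topology
open scoped ENNReal NNReal

namespace Pool.Agent.LogSc

/-! GOODM. Operations on good sets. HINT for `good_preimage`: `p • x = p • y` with `m • x, m • y ∈ V'`
gives `m • x = m • y`, and `p`, `m` coprime, so `x = y`. -/

theorem good_preimage {σ : Measure T} {p m : ℕ} (hpm : PM p m)
    (hm : MeasurePreserving (fun x : T => m • x) σ σ) {V : Set T} (hV : Good σ p V) :
    Good σ p ((fun x : T => m • x) ⁻¹' V) := by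
  obtain ⟨hV1, hV2, V', hV3, hV4, hV5, hV6⟩ := hV
  refine ⟨hm.measurable hV1, ?_, (fun x : T => m • x) ⁻¹' V', preimage_mono hV3,
    hm.measurable hV4, ?_, ?_⟩
  · have h1 := hm.quasiMeasurePreserving.preimage_ae_eq hV2
    have h2 : (fun x : T => p • x) ⁻¹' ((fun x : T => m • x) ⁻¹' V) =
        (fun x : T => m • x) ⁻¹' ((fun x : T => p • x) ⁻¹' V) := by
      ext x
      simp only [mem_preimage]
      rw [smul_comm]
    rw [h2]
    exact h1
  · rw [← preimage_sdiff, hm.measure_preimage (hV1.diff hV4).nullMeasurableSet]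
    exact hV5
  · intro x hx y hy hxy
    have h1 : m • x = m • y := by
      apply hV6 hx hy
      show p • (m • x) = p • (m • y)
      rw [smul_comm p m x, smul_comm p m y]
      exact congrArg (fun z : T => m • z) hxy
    have h2 : p • x = p • y := hxy
    rcases hpm with ⟨rfl, rfl⟩ | ⟨rfl, rfl⟩
    · have h3 : x = 4 • x - 3 • x := by
        rw [eq_sub_iff_add_eq]
        abel
      have h4 : y = 4 • y - 3 • y := by
        rw [eq_sub_iff_add_eq]
        abel
      rw [h3, h4, h1, h2]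
    · have h3 : x = 9 • x - 4 • (2 • x) := by
        rw [eq_sub_iff_add_eq]
        abel
      have h4 : y = 9 • y - 4 • (2 • y) := by
        rw [eq_sub_iff_add_eq]
        abel
      rw [h3, h4, h1, h2]

theorem good_restrict {σ : Measure T} [IsFiniteMeasure σ] {p : ℕ}
    (hp : MeasurePreserving (fun x : T => p • x) σ σ) {W : Set T} (hW : Good σ p W) {V : Set T}
    (hV : Good (σ.restrict Wᶜ) p V) : Good σ p (V ∩ Wᶜ) := by
  obtain ⟨hW1, hW2, -⟩ := hW
  obtain ⟨hV1, hV2, V', hV3, hV4, hV5, hV6⟩ := hV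
  refine ⟨hV1.inter hW1.compl, ?_, V' ∩ Wᶜ, inter_subset_inter_left _ hV3,
    hV4.inter hW1.compl, ?_, hV6.mono inter_subset_left⟩
  · have h1 : ∀ᵐ x ∂σ, x ∈ Wᶜ → (((fun x : T => p • x) ⁻¹' V) x = V x) := by
      rw [← ae_restrict_iff' hW1.compl]
      exact hV2
    filter_upwards [h1, hW2] with x hx1 hx2
    have hx2' : (p • x ∈ W) = (x ∈ W) := hx2
    show (p • x ∈ V ∧ ¬ (p • x ∈ W)) = (x ∈ V ∧ ¬ (x ∈ W))
    rw [hx2']
    by_cases hxW : x ∈ W
    · simp [hxW]
    · have hx1' : (p • x ∈ V) = (x ∈ V) := hx1 hxW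
      rw [hx1']
  · have h1 : (V ∩ Wᶜ) \ (V' ∩ Wᶜ) ⊆ (V \ V') ∩ Wᶜ := by
      rintro x ⟨⟨hx1, hx2⟩, hx3⟩
      exact ⟨⟨hx1, fun h => hx3 ⟨h, hx2⟩⟩, hx2⟩
    refine measure_mono_null h1 ?_
    rw [← Measure.restrict_apply (hV1.diff hV4)]
    exact hV5

end Pool.Agent.LogSc
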