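import Pool.Agent.LogSc.RhoLim
import Pool.Agent.LogSc.Fou
import Pool.Agent.LogSc.Uniq
import Pool.Agent.LogSc.Exh
import Pool.Agent.LogSc.GoodM

open MeasureTheory Set Filter Topology
open scoped ENNReal NNReal

namespace Pool.Agent.LogSc

/-! INJ. `p •` is essentially injective for singular invariant measures (Rudolph's theorem). -/

theorem inj_of_singular {σ : Measure T} [IsFiniteMeasure σ] {p m : ℕ} (hpm : PM p m)
    (hp : MeasurePreserving (fun x : T => p • x) σ σ)
    (hm : MeasurePreserving (fun x : T => m • x) σ σ) (hs : σ ⟂ₘ volume) :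
    ∃ X : Set T, MeasurableSet X ∧ σ Xᶜ = 0 ∧ InjOn (fun x : T => p • x) X := by
  have hp2 : 2 ≤ p := by
    rcases hpm with ⟨rfl, _⟩ | ⟨rfl, _⟩ <;> norm_num
  obtain ⟨W, hW, hmax⟩ := exh (σ := σ) p
  have hW' := good_preimage hpm hm hW
  have h1 : σ ((fun x : T => m • x) ⁻¹' W \ W) = 0 := hmax _ hW'
  have h2 : (fun x : T => m • x) ⁻¹' W =ᵐ[σ] W := by
    refine ae_eq_of_ae_subset_of_measure_ge ?_ ?_ hW'.1.nullMeasurableSet (measure_ne_top _ _)
    · exact (ae_le_set).2 h1
    · rw [hm.measure_preimage hW.1.nullMeasurableSet]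
  set ν := σ.restrict Wᶜ with hν
  have key : ∀ q : ℕ, MeasurePreserving (fun x : T => q • x) σ σ →
      (fun x : T => q • x) ⁻¹' W =ᵐ[σ] W → MeasurePreserving (fun x : T => q • x) ν ν := by
    intro q hq hqW
    have h := hq.restrict_preimage hW.1.compl
    have e : σ.restrict ((fun x : T => q • x) ⁻¹' Wᶜ) = ν := by
      rw [preimage_compl]
      exact Measure.restrict_congr_set hqW.compl
    rwa [e] at h
  have hpν := key p hp hW.2.1
  have hmν := key m hm h2
  have hgood : ∀ V, Good ν p V → ν V = 0 := by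
    intro V hV
    have h3 := hmax _ (good_restrict hp hW hV)
    rw [hν, Measure.restrict_apply hV.1]
    have e : (V ∩ Wᶜ) \ W = V ∩ Wᶜ := by
      ext x
      simp only [Set.mem_sdiff, mem_inter_iff, mem_compl_iff]
      tauto
    rwa [e] at h3
  have hlim := rho_lim hp2 hpν hgood
  have hfc : ∀ n : ℤ, n ≠ 0 → fc ν n = 0 := by
    intro n hn
    have hl : Tendsto (fun k => (ν univ).toReal * (∫⁻ x, rhok ν p k x ∂ν).toReal) atTop
        (𝓝 ((ν univ).toReal * (0 : ℝ≥0∞).toReal)) :=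
      ((ENNReal.tendsto_toReal ENNReal.zero_ne_top).comp hlim).const_mul _
    have hle : ‖fc ν n‖ ^ 2 ≤ (ν univ).toReal * (0 : ℝ≥0∞).toReal :=
      ge_of_tendsto' hl (fun κ => fou hpm hpν hmν hn κ)
    have h0 : ‖fc ν n‖ ^ 2 ≤ 0 := by simpa using hle
    have h4 : ‖fc ν n‖ = 0 := by
      have := sq_nonneg ‖fc ν n‖
      exact pow_eq_zero_iff (two_ne_zero) |>.1 (le_antisymm h0 this)
    exact norm_eq_zero.1 h4
  have huniq := uniq hfc
  have hνs : ν ⟂ₘ volume := hs.mono_ac (Measure.absolutelyContinuous_of_le Measure.restrict_le_self) Measure.AbsolutelyContinuous.rfl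
  obtain ⟨s, hs1, hs2, hs3⟩ := hνs
  have hν0 : ν univ = 0 := by
    have h5 : ν sᶜ = 0 := by
      rw [huniq]
      simp [hs3]
    have h6 : ν univ ≤ ν s + ν sᶜ := by
      rw [← union_compl_self s]
      exact measure_union_le _ _
    rw [hs2, h5, add_zero] at h6
    exact le_antisymm h6 (by simp)
  have hWc : σ Wᶜ = 0 := by
    rw [hν, Measure.restrict_apply_univ] at hν0
    exact hν0
  obtain ⟨V', hV'W, hV'm, hV'0, hV'i⟩ := hW.2.2
  refine ⟨V', hV'm, ?_, hV'i⟩
  refine measure_mono_null (t := Wᶜ ∪ (W \ V')) ?_ (measure_union_null hWc hV'0)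
  intro x hx
  by_cases hxW : x ∈ W
  · exact Or.inr ⟨hxW, hx⟩
  · exact Or.inl hxW

end Pool.Agent.LogSc
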