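import Pool.Agent.LogSc.Cell

open MeasureTheory Set Filter Topology
open scoped ENNReal NNReal

namespace Pool.Agent.LogSc

/-! BR. Elementary facts on the inverse branches `br p k a z = (a + rep z) / p ^ k`. -/

theorem rep_br {p : ℕ} (hp : 0 < p) {k a : ℕ} (ha : a < p ^ k) (z : T) :
    rep (br p k a z) = (a + rep z) / (p : ℝ) ^ k := by
  have hp' : (0 : ℝ) < (p : ℝ) ^ k := by positivity
  have h1 := rep_nonneg z
  have h2 := rep_lt_one z
  have h3 : ((a : ℝ) + 1) ≤ (p : ℝ) ^ k := by exact_mod_cast ha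
  unfold br
  refine rep_coe (by positivity) ?_
  rw [div_lt_one hp']
  linarith

theorem cell_br {p : ℕ} (hp : 0 < p) {k a : ℕ} (ha : a < p ^ k) (z : T) :
    cell p k (br p k a z) = a := by
  have hp' : (0 : ℝ) < (p : ℝ) ^ k := by positivity
  have h1 := rep_nonneg z
  have h2 := rep_lt_one z
  unfold cell
  rw [rep_br hp ha, mul_div_cancel₀ _ hp'.ne', Nat.floor_eq_iff (by positivity)]
  constructor <;> linarith

theorem smul_br {p : ℕ} (hp : 0 < p) (k a : ℕ) (z : T) : p ^ k • br p k a z = z := by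
  have hp' : (0 : ℝ) < (p : ℝ) ^ k := by positivity
  unfold br
  rw [← AddCircle.coe_nsmul, nsmul_eq_mul]
  have : ((p ^ k : ℕ) : ℝ) * ((a + rep z) / (p : ℝ) ^ k) = a • (1 : ℝ) + rep z := by
    push_cast
    rw [mul_div_cancel₀ _ hp'.ne']
    simp
  rw [this, AddCircle.coe_add, AddCircle.coe_nsmul, AddCircle.coe_period, coe_rep]
  simp

theorem br_cell {p : ℕ} (hp : 0 < p) (k : ℕ) (x : T) :
    br p k (cell p k x) (p ^ k • x) = x := by
  have hp' : (0 : ℝ) < (p : ℝ) ^ k := by positivity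
  unfold br
  rw [← CELL_key hp k x, mul_comm, mul_div_assoc, div_self hp'.ne', mul_one, coe_rep]

theorem br_comp {p : ℕ} (hp : 0 < p) (j k a : ℕ) {c : ℕ} (hc : c < p ^ k) (z : T) :
    br p j a (br p k c z) = br p (j + k) (a * p ^ k + c) z := by
  have hp' : (0 : ℝ) < (p : ℝ) ^ k := by positivity
  have hp'' : (0 : ℝ) < (p : ℝ) ^ j := by positivity
  have e : rep (br p k c z) = (c + rep z) / (p : ℝ) ^ k := rep_br hp hc z
  have e1 : br p j a (br p k c z) = (((a + rep (br p k c z)) / (p : ℝ) ^ j : ℝ) : T) := rfl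
  have e2 : br p (j + k) (a * p ^ k + c) z =
      (((((a * p ^ k + c : ℕ) : ℝ) + rep z) / (p : ℝ) ^ (j + k) : ℝ) : T) := rfl
  rw [e1, e2, e]
  congr 1
  push_cast
  rw [pow_add]
  field_simp
  ring

theorem measurable_br (p k a : ℕ) : Measurable (br p k a) := by
  unfold br
  exact (AddCircle.continuous_mk' 1).measurable.comp
    ((measurable_rep.const_add _).div_const _)

end Pool.Agent.LogSc
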