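import Pool.Agent.LogSc.Cell

open MeasureTheory Set Filter Topology
open scoped ENNReal NNReal

namespace Pool.Agent.LogSc

/-! SMALL. Small orders. HINT: `Z` = points `x` with `(2 ^ i * 3 ^ j) • x ∈ X ∩ Y` for all `i, j` has
`σ Zᶜ = 0`, and `x, y ∈ Z`, `6 ^ L • x = 6 ^ L • y` imply `x = y`. Take `K ⊆ Z` compact with
`σ (Z \ K) ≤ δ`; the finitely many `θ ≠ 0` with `6 ^ L • θ = 0` are not in the compact set `K - K`. -/

theorem SMALL_inj {X Y : Set T} (hXi : InjOn (fun x : T => 2 • x) X)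
    (hYi : InjOn (fun x : T => 3 • x) Y) {x y : T}
    (hx : ∀ i j : ℕ, (2 ^ i * 3 ^ j) • x ∈ X ∩ Y) (hy : ∀ i j : ℕ, (2 ^ i * 3 ^ j) • y ∈ X ∩ Y)
    (i j : ℕ) (h : (2 ^ i * 3 ^ j) • x = (2 ^ i * 3 ^ j) • y) : x = y := by
  induction i with
  | zero =>
    induction j with
    | zero => simpa using h
    | succ j ih =>
      apply ih
      have h1 : 3 • ((2 ^ 0 * 3 ^ j) • x) = 3 • ((2 ^ 0 * 3 ^ j) • y) := by
        rw [← mul_smul, ← mul_smul]
        have : 3 * (2 ^ 0 * 3 ^ j) = 2 ^ 0 * 3 ^ (j + 1) := by ring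
        rw [this]
        exact h
      exact hYi (hx 0 j).2 (hy 0 j).2 h1
  | succ i ih =>
    apply ih
    have h1 : 2 • ((2 ^ i * 3 ^ j) • x) = 2 • ((2 ^ i * 3 ^ j) • y) := by
      rw [← mul_smul, ← mul_smul]
      have : 2 * (2 ^ i * 3 ^ j) = 2 ^ (i + 1) * 3 ^ j := by ring
      rw [this]
      exact h
    exact hXi (hx i j).1 (hy i j).1 h1

theorem SMALL_mp {σ : Measure T}
    (h2 : MeasurePreserving (fun x : T => 2 • x) σ σ)
    (h3 : MeasurePreserving (fun x : T => 3 • x) σ σ) (i j : ℕ) :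
    MeasurePreserving (fun x : T => (2 ^ i * 3 ^ j) • x) σ σ := by
  induction i with
  | zero =>
    induction j with
    | zero =>
      have : (fun x : T => (2 ^ 0 * 3 ^ 0) • x) = id := by
        funext x
        simp
      rw [this]
      exact MeasurePreserving.id σ
    | succ j ih =>
      have : (fun x : T => (2 ^ 0 * 3 ^ (j + 1)) • x) =
          (fun x : T => 3 • x) ∘ (fun x : T => (2 ^ 0 * 3 ^ j) • x) := by
        funext x
        simp only [Function.comp]
        rw [← mul_smul]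
        congr 1
        ring
      rw [this]
      exact h3.comp ih
  | succ i ih =>
    have : (fun x : T => (2 ^ (i + 1) * 3 ^ j) • x) =
        (fun x : T => 2 • x) ∘ (fun x : T => (2 ^ i * 3 ^ j) • x) := by
      funext x
      simp only [Function.comp]
      rw [← mul_smul]
      congr 1
      ring
    rw [this]
    exact h2.comp ih

theorem SMALL_fin {n : ℕ} (hn : 0 < n) : {θ : T | n • θ = 0}.Finite := by
  have : {θ : T | n • θ = 0} ⊆ (fun m : ℕ => ((((m : ℝ) / (n : ℝ)) : ℝ) : T)) '' (Set.Iio n) := by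
    intro θ hθ
    have h0 := coe_rep θ
    have h1 := rep_nonneg θ
    have h2 := rep_lt_one θ
    have hn0 : (0 : ℝ) < n := by exact_mod_cast hn
    have h3 : (((n : ℝ) * rep θ : ℝ) : T) = 0 := by
      rw [← nsmul_eq_mul, AddCircle.coe_nsmul, h0]
      exact hθ
    rw [AddCircle.coe_eq_zero_iff] at h3
    obtain ⟨z, hz⟩ := h3
    rw [zsmul_eq_mul, mul_one] at hz
    have h4 : (0 : ℝ) ≤ (z : ℝ) := by rw [hz]; positivity
    have h5 : (z : ℝ) < n := by
      rw [hz]
      nlinarith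
    have h6 : (0 : ℤ) ≤ z := by exact_mod_cast h4
    obtain ⟨m, rfl⟩ := Int.eq_ofNat_of_zero_le h6
    refine ⟨m, ?_, ?_⟩
    · have : ((m : ℤ) : ℝ) < n := h5
      rw [Int.cast_natCast] at this
      exact_mod_cast this
    · show ((((m : ℝ) / (n : ℝ)) : ℝ) : T) = θ
      rw [← h0]
      congr 1
      rw [div_eq_iff hn0.ne']
      rw [Int.cast_natCast] at hz
      linarith
  exact ((Set.finite_Iio n).image _).subset this

theorem small {σ : Measure T} [IsFiniteMeasure σ]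
    (h2 : MeasurePreserving (fun x : T => 2 • x) σ σ)
    (h3 : MeasurePreserving (fun x : T => 3 • x) σ σ)
    {X Y : Set T} (hX : MeasurableSet X) (hX0 : σ Xᶜ = 0) (hXi : InjOn (fun x : T => 2 • x) X)
    (hY : MeasurableSet Y) (hY0 : σ Yᶜ = 0) (hYi : InjOn (fun x : T => 3 • x) Y)
    (L : ℕ) {δ : ℝ≥0∞} (hδ : δ ≠ 0) :
    ∃ K : Set T, MeasurableSet K ∧ σ Kᶜ ≤ δ ∧ ∃ η : ℝ, 0 < η ∧
      ∀ x ∈ K, ∀ y ∈ K, ∀ θ : T, θ ≠ 0 → 6 ^ L • θ = 0 → η ≤ ‖x - y - θ‖ := by
  let Z : Set T := ⋂ i : ℕ, ⋂ j : ℕ, (fun x : T => (2 ^ i * 3 ^ j) • x) ⁻¹' (X ∩ Y)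
  have hZm : MeasurableSet Z := MeasurableSet.iInter fun i => MeasurableSet.iInter fun j =>
    (SMALL_mp h2 h3 i j).measurable (hX.inter hY)
  have hXY0 : σ (X ∩ Y)ᶜ = 0 := by
    rw [compl_inter]
    exact measure_union_null hX0 hY0
  have hZ0 : σ Zᶜ = 0 := by
    simp only [Z, compl_iInter]
    refine measure_iUnion_null fun i => measure_iUnion_null fun j => ?_
    rw [← preimage_compl, (SMALL_mp h2 h3 i j).measure_preimage
      (hX.inter hY).compl.nullMeasurableSet]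
    exact hXY0
  obtain ⟨K, hKZ, hKc, hKδ⟩ := hZm.exists_isClosed_sdiff_lt (measure_ne_top σ Z) hδ
  have hK : IsCompact K := hKc.isCompact
  refine ⟨K, hKc.measurableSet, ?_, ?_⟩
  · have h1 : Kᶜ ⊆ Zᶜ ∪ (Z \ K) := by
      intro x hx
      by_cases hxZ : x ∈ Z
      · exact Or.inr ⟨hxZ, hx⟩
      · exact Or.inl hxZ
    calc σ Kᶜ ≤ σ (Zᶜ ∪ (Z \ K)) := measure_mono h1
      _ ≤ σ Zᶜ + σ (Z \ K) := measure_union_le _ _
      _ ≤ δ := by rw [hZ0, zero_add]; exact hKδ.le
  · let Θ : Set T := {θ : T | θ ≠ 0 ∧ 6 ^ L • θ = 0}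
    have hΘ : Θ.Finite := (SMALL_fin (n := 6 ^ L) (by positivity)).subset fun θ hθ => hθ.2
    have hS : IsCompact (K ×ˢ (K ×ˢ Θ)) := hK.prod (hK.prod hΘ.isCompact)
    by_cases hne : (K ×ˢ (K ×ˢ Θ)).Nonempty
    · obtain ⟨⟨x0, y0, θ0⟩, ⟨hx0, hy0, hθ0⟩, hmin⟩ := hS.exists_isMinOn hne
        (f := fun q : T × T × T => ‖q.1 - q.2.1 - q.2.2‖) (by fun_prop)
      refine ⟨‖x0 - y0 - θ0‖, ?_, ?_⟩
      · rw [norm_pos_iff]
        intro h
        have h1 : θ0 = x0 - y0 := (sub_eq_zero.1 h).symm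
        have h4 : 6 ^ L • x0 = 6 ^ L • y0 := by
          have := hθ0.2
          rw [h1, smul_sub] at this
          exact sub_eq_zero.1 this
        have h5 : x0 = y0 := by
          refine SMALL_inj (x := x0) (y := y0) hXi hYi ?_ ?_ L L ?_
          · intro i j
            have := hKZ hx0
            simp only [Z, mem_iInter] at this
            exact this i j
          · intro i j
            have := hKZ hy0
            simp only [Z, mem_iInter] at this
            exact this i j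
          · have h6 : (2 ^ L * 3 ^ L : ℕ) = 6 ^ L := by
              rw [← mul_pow]
              norm_num
            rw [h6]
            exact h4
        apply hθ0.1
        rw [h1, h5, sub_self]
      · intro x hx y hy θ hθ hθ2
        have hθmem : θ ∈ Θ := ⟨hθ, hθ2⟩
        have hmem : (x, y, θ) ∈ K ×ˢ (K ×ˢ Θ) := Set.mk_mem_prod hx (Set.mk_mem_prod hy hθmem)
        have hfin := isMinOn_iff.1 hmin (x, y, θ) hmem
        simpa using hfin
    · refine ⟨1, one_pos, ?_⟩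
      intro x hx y hy θ hθ hθ2
      exact absurd ⟨(x, y, θ), hx, hy, hθ, hθ2⟩ hne

end Pool.Agent.LogSc
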