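import Pool.Agent.LogSc.Cell

open MeasureTheory Set Filter Topology
open scoped ENNReal NNReal

namespace Pool.Agent.LogSc

/-! GSET. Markov's inequality for the sets `Gs`. HINT: the sum over `i < N` of the indicators of
`{x | cell 2 L ((c * m ^ i) • x) ∉ W}` has integral `≤ N δ`; on the complement of `Gs` it is `> N / 8`. -/

private theorem gset_meas (L k : ℕ) (W : Finset ℕ) :
    MeasurableSet {x : T | cell 2 L (k • x) ∉ W} := by
  have h : Measurable (fun x : T => cell 2 L (k • x)) :=
    (measurable_cell 2 L).comp (continuous_nsmul k).measurable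
  exact h (MeasurableSet.of_discrete (s := {j : ℕ | j ∉ W}))

theorem measurableSet_gs (c m N L : ℕ) (W : Finset ℕ) : MeasurableSet (Gs c m N L W) := by
  have h : Measurable (fun x : T => ((Finset.range N).filter
      (fun i => cell 2 L ((c * m ^ i) • x) ∉ W)).card) := by
    simp only [Finset.card_filter]
    refine Finset.measurable_sum _ (fun i _ => ?_)
    exact Measurable.ite (gset_meas L (c * m ^ i) W) measurable_const measurable_const
  exact h (MeasurableSet.of_discrete (s := {j : ℕ | 8 * j ≤ N}))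

theorem gset {σ : Measure T} [IsFiniteMeasure σ] {m c N L : ℕ} {W : Finset ℕ} {δ : ℝ≥0∞}
    (hm : MeasurePreserving (fun x : T => m • x) σ σ)
    (hc : MeasurePreserving (fun x : T => c • x) σ σ) (hN : 0 < N)
    (hE : σ {x | cell 2 L x ∉ W} ≤ δ) : σ (Gs c m N L W)ᶜ ≤ 8 * δ := by
  have hEm : MeasurableSet {x : T | cell 2 L x ∉ W} := by
    simpa using gset_meas L 1 W
  have hi : ∀ i : ℕ, σ {x : T | cell 2 L ((c * m ^ i) • x) ∉ W} ≤ δ := by
    intro i
    have h1 : MeasurePreserving (fun x : T => (c * m ^ i) • x) σ σ := by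
      have h2 := hc.comp (hm.iterate i)
      have h3 : ((fun x : T => c • x) ∘ (fun x : T => m • x)^[i]) =
          fun x : T => (c * m ^ i) • x := by
        rw [smul_iterate]
        funext x
        simp only [Function.comp_apply]
        rw [mul_smul]
      rwa [h3] at h2
    have h4 := h1.measure_preimage hEm.nullMeasurableSet
    exact (le_of_eq h4).trans hE
  set F : T → ℝ≥0∞ := fun x => ∑ i ∈ Finset.range N,
    ({x : T | cell 2 L ((c * m ^ i) • x) ∉ W}.indicator (fun _ => (1 : ℝ≥0∞)) x) with hF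
  have hFm : Measurable F :=
    Finset.measurable_sum _ (fun i _ => measurable_const.indicator (gset_meas L (c * m ^ i) W))
  have hint : ∫⁻ x, F x ∂σ ≤ N * δ := by
    rw [hF, lintegral_finset_sum _
      (fun i _ => measurable_const.indicator (gset_meas L (c * m ^ i) W))]
    calc ∑ i ∈ Finset.range N, ∫⁻ x, ({x : T | cell 2 L ((c * m ^ i) • x) ∉ W}.indicator
          (fun _ => (1 : ℝ≥0∞)) x) ∂σ
        ≤ ∑ _i ∈ Finset.range N, δ := by
          refine Finset.sum_le_sum (fun i _ => ?_)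
          rw [lintegral_indicator_const (gset_meas L (c * m ^ i) W), one_mul]
          exact hi i
      _ = N * δ := by simp
  have hFcard : ∀ x, F x = (((Finset.range N).filter
      (fun i => cell 2 L ((c * m ^ i) • x) ∉ W)).card : ℝ≥0∞) := by
    intro x
    rw [hF, Finset.card_filter]
    push_cast
    refine Finset.sum_congr rfl (fun i _ => ?_)
    by_cases h : cell 2 L ((c * m ^ i) • x) ∉ W
    · rw [if_pos h, Set.indicator_of_mem (by exact h)]
    · rw [if_neg h, Set.indicator_of_notMem (by exact h)]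
  have hsub : (Gs c m N L W)ᶜ ⊆ {x | (N : ℝ≥0∞) / 8 ≤ F x} := by
    intro x hx
    have h1 : N < 8 * ((Finset.range N).filter
        (fun i => cell 2 L ((c * m ^ i) • x) ∉ W)).card := by
      simpa [Gs] using hx
    show (N : ℝ≥0∞) / 8 ≤ F x
    rw [hFcard x]
    refine ENNReal.div_le_of_le_mul ?_
    have h2 : (N : ℝ≥0∞) ≤ ((8 * ((Finset.range N).filter
        (fun i => cell 2 L ((c * m ^ i) • x) ∉ W)).card : ℕ) : ℝ≥0∞) := by
      exact_mod_cast h1.le
    rw [mul_comm]
    push_cast at h2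
    exact h2
  have hmk := mul_meas_ge_le_lintegral (μ := σ) hFm ((N : ℝ≥0∞) / 8)
  have h5 : (N : ℝ≥0∞) / 8 * σ (Gs c m N L W)ᶜ ≤ N * δ :=
    (mul_le_mul_right (measure_mono hsub) _).trans (hmk.trans hint)
  have hN0 : (N : ℝ≥0∞) ≠ 0 := by exact_mod_cast hN.ne'
  have hNt : (N : ℝ≥0∞) ≠ ∞ := ENNReal.natCast_ne_top N
  have h6 : (N : ℝ≥0∞) * σ (Gs c m N L W)ᶜ ≤ N * (8 * δ) := by
    have h7 : (N : ℝ≥0∞) = 8 * ((N : ℝ≥0∞) / 8) := by
      rw [ENNReal.mul_div_cancel (by norm_num) (by norm_num)]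
    calc (N : ℝ≥0∞) * σ (Gs c m N L W)ᶜ = 8 * ((N : ℝ≥0∞) / 8 * σ (Gs c m N L W)ᶜ) := by
          rw [← mul_assoc, ← h7]
      _ ≤ 8 * (N * δ) := by gcongr
      _ = N * (8 * δ) := by ring
  exact (ENNReal.mul_le_mul_iff_right hN0 hNt).1 h6

end Pool.Agent.LogSc
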