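import Pool.Agent.LogSc.Br

open MeasureTheory Set Filter Topology
open scoped ENNReal NNReal

namespace Pool.Agent.LogSc

/-! PREDF. From separation to prediction. HINT: if `x, y ∈ D` have the same cell `cell b n (b ^ k • x)`
and `w = cell b k x ≠ w' = cell b k y`, then with `θ = (w - w') / b ^ k` (`θ ≠ 0`, `b ^ k • θ = 0`):
`x - y - θ = (rep (b ^ k • x) - rep (b ^ k • y)) / b ^ k` (`br_cell`), of norm `< b ^ (-n) ≤ 2 ^ (-n)`. -/

theorem predictor {D : Set T} {b k n : ℕ} (hb : 2 ≤ b)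
    (hD : ∀ x ∈ D, ∀ y ∈ D, ∀ θ : T, θ ≠ 0 → b ^ k • θ = 0 → ((2 : ℝ) ^ n)⁻¹ ≤ ‖x - y - θ‖) :
    ∃ F : ℕ → ℕ, ∀ x ∈ D, cell b k x = F (cell b n (b ^ k • x)) := by
  classical
  have key : ∀ x ∈ D, ∀ y ∈ D, cell b n (b ^ k • x) = cell b n (b ^ k • y) →
      cell b k x = cell b k y := by
    intro x hx y hy hxy
    by_contra hne
    have hb0 : 0 < b := by omega
    have hw : cell b k x < b ^ k := cell_lt hb0 k x
    have hw' : cell b k y < b ^ k := cell_lt hb0 k y
    have hxb := br_cell hb0 k x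
    have hyb := br_cell hb0 k y
    generalize cell b k x = w at *
    generalize cell b k y = w' at *
    have hb1 : (0 : ℝ) < (b : ℝ) := by exact_mod_cast hb0
    have hbk : (0 : ℝ) < (b : ℝ) ^ k := pow_pos hb1 k
    have hθ1 : b ^ k • ((((w : ℝ) - (w' : ℝ)) / (b : ℝ) ^ k : ℝ) : T) = 0 := by
      rw [← AddCircle.coe_nsmul, nsmul_eq_mul, Nat.cast_pow, mul_div_cancel₀ _ hbk.ne',
        AddCircle.coe_eq_zero_iff]
      refine ⟨(w : ℤ) - (w' : ℤ), ?_⟩
      simp
    have hθ0 : ((((w : ℝ) - (w' : ℝ)) / (b : ℝ) ^ k : ℝ) : T) ≠ 0 := by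
      intro h
      rw [AddCircle.coe_eq_zero_iff] at h
      obtain ⟨z, hz⟩ := h
      rw [zsmul_eq_mul, mul_one, eq_div_iff hbk.ne'] at hz
      have hz' : z * (b : ℤ) ^ k = (w : ℤ) - (w' : ℤ) := by exact_mod_cast hz
      have h1 : (w : ℤ) < (b : ℤ) ^ k := by exact_mod_cast hw
      have h2 : (w' : ℤ) < (b : ℤ) ^ k := by exact_mod_cast hw'
      have h3 : (0 : ℤ) ≤ w := by positivity
      have h4 : (0 : ℤ) ≤ w' := by positivity
      have hz0 : z = 0 := by
        by_contra hz0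
        rcases lt_or_gt_of_ne hz0 with h5 | h5
        · nlinarith
        · nlinarith
      rw [hz0, zero_mul] at hz'
      apply hne
      omega
    have h1 := hD x hx y hy _ hθ0 hθ1
    have h2 : x - y - ((((w : ℝ) - (w' : ℝ)) / (b : ℝ) ^ k : ℝ) : T) =
        (((rep (b ^ k • x) - rep (b ^ k • y)) / (b : ℝ) ^ k : ℝ) : T) := by
      conv_lhs => rw [← hxb, ← hyb]
      unfold br
      rw [← AddCircle.coe_sub, ← AddCircle.coe_sub]
      congr 1
      field_simp
      ring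
    rw [h2, AddCircle.norm_eq] at h1
    have h3 := round_le ((rep (b ^ k • x) - rep (b ^ k • y)) / (b : ℝ) ^ k) 0
    simp only [inv_one, one_mul, mul_one] at h1
    rw [Int.cast_zero, sub_zero] at h3
    have h4 : |rep (b ^ k • x) - rep (b ^ k • y)| * (b : ℝ) ^ n < 1 := by
      unfold cell at hxy
      have hr1 := rep_nonneg (b ^ k • x)
      have hr2 := rep_nonneg (b ^ k • y)
      have hf1 := Nat.floor_le (a := (b : ℝ) ^ n * rep (b ^ k • x)) (by positivity)
      have hf2 := Nat.floor_le (a := (b : ℝ) ^ n * rep (b ^ k • y)) (by positivity)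
      have hf3 := Nat.lt_floor_add_one ((b : ℝ) ^ n * rep (b ^ k • x))
      have hf4 := Nat.lt_floor_add_one ((b : ℝ) ^ n * rep (b ^ k • y))
      rw [hxy] at hf1 hf3
      have h5 : |(b : ℝ) ^ n * rep (b ^ k • x) - (b : ℝ) ^ n * rep (b ^ k • y)| < 1 := by
        rw [abs_lt]
        constructor <;> linarith
      rw [← mul_sub, abs_mul, abs_of_pos (pow_pos hb1 n)] at h5
      linarith
    have h6 : (2 : ℝ) ^ n ≤ (b : ℝ) ^ n := by
      apply pow_le_pow_left₀ (by norm_num)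
      exact_mod_cast hb
    have h7 : (1 : ℝ) ≤ (b : ℝ) ^ k := one_le_pow₀ (by exact_mod_cast hb0)
    have h8 : |(rep (b ^ k • x) - rep (b ^ k • y)) / (b : ℝ) ^ k| ≤
        |rep (b ^ k • x) - rep (b ^ k • y)| := by
      rw [abs_div, abs_of_pos hbk]
      exact div_le_self (abs_nonneg _) h7
    have h9 : ((2 : ℝ) ^ n)⁻¹ ≤ |rep (b ^ k • x) - rep (b ^ k • y)| := h1.trans (h3.trans h8)
    have h10 : (0 : ℝ) < (2 : ℝ) ^ n := by positivity
    rw [inv_le_iff_one_le_mul₀ h10] at h9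
    have h11 : |rep (b ^ k • x) - rep (b ^ k • y)| * (2 : ℝ) ^ n ≤
        |rep (b ^ k • x) - rep (b ^ k • y)| * (b : ℝ) ^ n :=
      mul_le_mul_of_nonneg_left h6 (abs_nonneg _)
    linarith
  refine ⟨fun c => if h : ∃ x, x ∈ D ∧ cell b n (b ^ k • x) = c then
    cell b k (Classical.choose h) else 0, ?_⟩
  intro x hx
  have h : ∃ y, y ∈ D ∧ cell b n (b ^ k • y) = cell b n (b ^ k • x) := ⟨x, hx, rfl⟩
  simp only [dif_pos h]
  have hs := Classical.choose_spec h
  exact key x hx _ hs.1 hs.2.symm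

end Pool.Agent.LogSc
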