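import Pool.Agent.LogSc.Defs

open MeasureTheory Set Filter Topology
open scoped ENNReal NNReal

namespace Pool.Agent.LogSc

/-! ARITH. Choice of the parameters (`r = Nat.log 2 n`, `u = r / 4`). -/

theorem arith (A L : ℕ) : ∀ᶠ n : ℕ in atTop, L < Nat.log 2 n / 4 ∧
    A * (Nat.log 2 n + 1) ≤ (8 * A + 8) * (Nat.log 2 n / 4 - L) ∧
    3 * (A * (Nat.log 2 n + 1)) + 4 * 4 ^ (Nat.log 2 n / 4) + 3 * L ≤ n := by
  filter_upwards [eventually_ge_atTop (2 ^ (4 * (12 * A + 3 * L + 4)))] with n hn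
  have hn0 : n ≠ 0 := by
    have : 0 < 2 ^ (4 * (12 * A + 3 * L + 4)) := by positivity
    omega
  have hr : 4 * (12 * A + 3 * L + 4) ≤ Nat.log 2 n :=
    (Nat.le_log_iff_pow_le (by norm_num) hn0).2 hn
  have hpow : 2 ^ Nat.log 2 n ≤ n := Nat.pow_log_le_self 2 hn0
  obtain ⟨r, hr'⟩ : ∃ r, r = Nat.log 2 n := ⟨_, rfl⟩
  rw [← hr'] at hr hpow ⊢
  obtain ⟨k, hk⟩ : ∃ k, k = r / 4 := ⟨_, rfl⟩
  rw [← hk]
  have h1 : 4 * k ≤ r := by omega
  have h2 : r ≤ 4 * k + 3 := by omega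
  have h3 : 12 * A + 3 * L + 4 ≤ k := by omega
  refine ⟨by omega, ?_, ?_⟩
  · obtain ⟨m, hm⟩ : ∃ m, k = L + m := ⟨k - L, by omega⟩
    have h4 : k - L = m := by omega
    rw [h4]
    have h5 : L + 1 ≤ m := by omega
    calc A * (r + 1) ≤ A * (4 * k + 4) := Nat.mul_le_mul_left _ (by omega)
      _ = A * (4 * L + 4) + A * (4 * m) := by rw [hm]; ring
      _ ≤ A * (4 * m) + A * (4 * m) := by
          apply Nat.add_le_add_right
          exact Nat.mul_le_mul_left _ (by omega)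
      _ ≤ (8 * A + 8) * m := by nlinarith
  · obtain ⟨y, hy⟩ : ∃ y, y = 4 ^ k := ⟨_, rfl⟩
    rw [← hy]
    have h4 : k + 1 ≤ y := by
      rw [hy]
      exact Nat.lt_pow_self (by norm_num)
    have h5 : y * y ≤ n := by
      calc y * y = 2 ^ (4 * k) := by
            rw [hy, pow_mul, ← mul_pow, show (4 * 4 : ℕ) = 2 ^ 4 by norm_num]
        _ ≤ 2 ^ r := Nat.pow_le_pow_right (by norm_num) h1
        _ ≤ n := hpow
    have h6 : 12 * A + 3 * L + 4 ≤ y := by omega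
    have h7 : A * (r + 1) ≤ A * (4 * y) := Nat.mul_le_mul_left _ (by omega)
    have h8 : (12 * A + 3 * L + 4) * y ≤ y * y := Nat.mul_le_mul_right _ h6
    have h9 : L ≤ L * y := Nat.le_mul_of_pos_right _ (by omega)
    nlinarith

theorem grid {e v u L G : ℕ} (hv : v = u - L) (hL : L < u) (he : e ≤ G * v) (heL : L ≤ e) :
    ∃ g ≤ G, g * v ≤ e ∧ L ≤ e - g * v ∧ e - g * v ≤ u := by
  have hv0 : 0 < v := by omega
  have h1 := Nat.div_add_mod (e - L) v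
  have h2 := Nat.mod_lt (e - L) hv0
  have h3 : (e - L) / v * v = v * ((e - L) / v) := mul_comm _ _
  refine ⟨(e - L) / v, ?_, ?_, ?_, ?_⟩
  · have h4 : (e - L) / v * v ≤ G * v := by omega
    exact Nat.le_of_mul_le_mul_right h4 hv0
  · omega
  · omega
  · omega

theorem qbound {A n s t : ℕ} (h : 2 ^ s * 3 ^ t ≤ n ^ A) :
    s ≤ A * (Nat.log 2 n + 1) ∧ t ≤ A * (Nat.log 2 n + 1) := by
  have h1 : n ≤ 2 ^ (Nat.log 2 n + 1) := (Nat.lt_pow_succ_log_self (by norm_num) n).le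
  have h2 : n ^ A ≤ 2 ^ (A * (Nat.log 2 n + 1)) := by
    rw [mul_comm, pow_mul]
    exact Nat.pow_le_pow_left h1 A
  have h3 := h.trans h2
  constructor
  · have h4 : 2 ^ s ≤ 2 ^ (A * (Nat.log 2 n + 1)) :=
      (Nat.le_mul_of_pos_right _ (by positivity)).trans h3
    exact (Nat.pow_le_pow_iff_right (by norm_num)).1 h4
  · have h4 : 2 ^ t ≤ 3 ^ t := Nat.pow_le_pow_left (by norm_num) t
    have h5 : 2 ^ t ≤ 2 ^ (A * (Nat.log 2 n + 1)) :=
      (h4.trans (Nat.le_mul_of_pos_left _ (by positivity))).trans h3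
    exact (Nat.pow_le_pow_iff_right (by norm_num)).1 h5

end Pool.Agent.LogSc
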