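import Pool.Agent.LogSc.Orb

open MeasureTheory Set Filter Topology
open scoped ENNReal NNReal

namespace Pool.Agent.LogSc

/-! KEY. Two points of `Gs` are not at distance `< 2 ^ (-n)` from `θ` if `c • θ` has large order `≤ N`.
HINT: for at least `3 N / 4` of the `i < N` both `(c m ^ i) • x`, `(c m ^ i) • y` are in the covering
set; for these `‖m ^ i • (c • θ) - (w - w') / 2 ^ L‖ < 2 / 2 ^ L` by `cell_near` and
`‖(c m ^ i) • (x - y - θ)‖ ≤ c m ^ i 2 ^ (-n) ≤ 2 ^ (-L)`; contradiction to `orbit_count`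
(`48 N ≤ 45 N`, `N > 0`). -/

theorem key {p m L t N n c : ℕ} {W : Finset ℕ} (hpm : PM p m) (hW : 64 * W.card ^ 2 ≤ 2 ^ L)
    {x y θ : T} (hθ : addOrderOf (c • θ) = p ^ t) (h1 : 2 ^ L ≤ p ^ t) (h2 : p ^ t ≤ N)
    (hc : c * m ^ N * 2 ^ L ≤ 2 ^ n) (hx : x ∈ Gs c m N L W) (hy : y ∈ Gs c m N L W) :
    ((2 : ℝ) ^ n)⁻¹ ≤ ‖x - y - θ‖ := by
  classical
  by_contra hlt
  rw [not_le] at hlt
  have horb := orbit_count (N := N) hpm hW hθ h1 h2
  have hm1 : 1 ≤ m := by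
    rcases hpm with ⟨_, rfl⟩ | ⟨_, rfl⟩ <;> norm_num
  have hN : 0 < N := lt_of_lt_of_le (by positivity) (h1.trans h2)
  have hx' : 8 * ((Finset.range N).filter (fun i => cell 2 L ((c * m ^ i) • x) ∉ W)).card ≤ N := hx
  have hy' : 8 * ((Finset.range N).filter (fun i => cell 2 L ((c * m ^ i) • y) ∉ W)).card ≤ N := hy
  have key2 : ∀ i < N, cell 2 L ((c * m ^ i) • x) ∈ W → cell 2 L ((c * m ^ i) • y) ∈ W →
      ∃ w ∈ W, ∃ w' ∈ W,
      ‖m ^ i • (c • θ) - ((((w : ℝ) - (w' : ℝ)) / (2 : ℝ) ^ L : ℝ) : T)‖ <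
        2 * ((2 : ℝ) ^ L)⁻¹ := by
    intro i hi hwx hwy
    refine ⟨_, hwx, _, hwy, ?_⟩
    have hn := cell_near (b := 2) (by norm_num) L ((c * m ^ i) • x) ((c * m ^ i) • y)
    push_cast at hn
    set Z : T := (((((cell 2 L ((c * m ^ i) • x) : ℕ) : ℝ) -
      ((cell 2 L ((c * m ^ i) • y) : ℕ) : ℝ)) / (2 : ℝ) ^ L : ℝ) : T) with hZ
    have e1 : m ^ i • (c • θ) - Z =
        (((c * m ^ i) • x - (c * m ^ i) • y) - Z) - (c * m ^ i) • (x - y - θ) := by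
      have e2 : (c * m ^ i) • (x - y - θ) =
          (c * m ^ i) • x - (c * m ^ i) • y - m ^ i • (c • θ) := by
        rw [smul_sub, smul_sub]
        congr 1
        rw [← mul_smul, mul_comm]
      rw [e2]
      abel
    have e3 : ‖(c * m ^ i) • (x - y - θ)‖ ≤ ((2 : ℝ) ^ L)⁻¹ := by
      refine (norm_nsmul_le).trans ?_
      have h5 : ((c * m ^ i : ℕ) : ℝ) * ((2 : ℝ) ^ n)⁻¹ ≤ ((2 : ℝ) ^ L)⁻¹ := by
        have h6 : c * m ^ i * 2 ^ L ≤ 2 ^ n :=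
          (Nat.mul_le_mul_right _ (Nat.mul_le_mul_left _
            (Nat.pow_le_pow_right hm1 hi.le))).trans hc
        have h7 : ((c * m ^ i : ℕ) : ℝ) * (2 : ℝ) ^ L ≤ (2 : ℝ) ^ n := by exact_mod_cast h6
        rw [← div_eq_mul_inv, div_le_iff₀ (by positivity)]
        rw [inv_mul_eq_div, le_div_iff₀ (by positivity)]
        exact h7
      refine le_trans ?_ h5
      exact mul_le_mul_of_nonneg_left hlt.le (Nat.cast_nonneg _)
    calc ‖m ^ i • (c • θ) - Z‖ ≤ ‖((c * m ^ i) • x - (c * m ^ i) • y) - Z‖ +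
          ‖(c * m ^ i) • (x - y - θ)‖ := by
          rw [e1]
          exact norm_sub_le _ _
      _ < ((2 : ℝ) ^ L)⁻¹ + ((2 : ℝ) ^ L)⁻¹ := add_lt_add_of_lt_of_le hn e3
      _ = 2 * ((2 : ℝ) ^ L)⁻¹ := by ring
  have hsub : Finset.range N ⊆
      ((Finset.range N).filter (fun i => cell 2 L ((c * m ^ i) • x) ∉ W) ∪
      (Finset.range N).filter (fun i => cell 2 L ((c * m ^ i) • y) ∉ W)) ∪
      (Finset.range N).filter (fun i => ∃ w ∈ W, ∃ w' ∈ W,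
      ‖m ^ i • (c • θ) - ((((w : ℝ) - (w' : ℝ)) / (2 : ℝ) ^ L : ℝ) : T)‖ <
        2 * ((2 : ℝ) ^ L)⁻¹) := by
    intro i hi
    simp only [Finset.mem_union, Finset.mem_filter]
    by_cases hwx : cell 2 L ((c * m ^ i) • x) ∈ W
    · by_cases hwy : cell 2 L ((c * m ^ i) • y) ∈ W
      · exact Or.inr ⟨hi, key2 i (Finset.mem_range.1 hi) hwx hwy⟩
      · exact Or.inl (Or.inr ⟨hi, hwy⟩)
    · exact Or.inl (Or.inl ⟨hi, hwx⟩)
  have hcard := (Finset.card_le_card hsub).trans (Finset.card_union_le _ _)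
  have hcard2 := Finset.card_union_le
    ((Finset.range N).filter (fun i => cell 2 L ((c * m ^ i) • x) ∉ W))
    ((Finset.range N).filter (fun i => cell 2 L ((c * m ^ i) • y) ∉ W))
  rw [Finset.card_range] at hcard
  have horb' : 64 * ((Finset.range N).filter (fun i => ∃ w ∈ W, ∃ w' ∈ W,
      ‖m ^ i • (c • θ) - ((((w : ℝ) - (w' : ℝ)) / (2 : ℝ) ^ L : ℝ) : T)‖ <
        2 * ((2 : ℝ) ^ L)⁻¹)).card ≤ 45 * N := by
    convert horb
  omega

end Pool.Agent.LogSc
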