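import Pool.Agent.LogSc.Cover
import Pool.Agent.LogSc.Gset
import Pool.Agent.LogSc.Key
import Pool.Agent.LogSc.Small
import Pool.Agent.LogSc.Arith

open MeasureTheory Set Filter Topology
open scoped ENNReal NNReal

namespace Pool.Agent.LogSc

/-! SEP. The separation theorem for the singular part. HINT: let `G = 8 A + 8`; `cover` with
`δ / (32 (G + 1))` gives `L, W`; `small` with `L` and `δ / 2` gives `K, η`. For large `n` (`arith`,
`2 ^ (-n) < η`) put `r = Nat.log 2 n`, `u = r / 4`, `N = 4 ^ u`, `I = A (r + 1)`, and `D = K ∩` all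
`Gs (2 ^ I * 3 ^ (g (u - L))) 4 N L W ∩ Gs (3 ^ L * 2 ^ (g (u - L))) 9 N L W`, `g ≤ G`. If `θ` has order
`2 ^ s' * 3 ^ t'`: (a) `t' ≥ L`: `grid` gives `g` with `c • θ` of order `3 ^ (t' - g (u - L))` in
`[2 ^ L, N]`, `key` with `(3, 4)`; (b) `t' < L ≤ s'`: the same with `(2, 9)`; (c) both `< L`: `small`. -/

private theorem sep_ord {p q a b I k : ℕ} (hpq : Nat.Coprime p q) (hp : 0 < p) (hq : 0 < q)
    {θ : T} (hθ : addOrderOf θ = p ^ a * q ^ b) (ha : a ≤ I) (hk : k ≤ b) :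
    addOrderOf ((p ^ I * q ^ k) • θ) = q ^ (b - k) := by
  have hne : p ^ I * q ^ k ≠ 0 := by positivity
  rw [addOrderOf_nsmul' θ hne, hθ]
  have e1 : p ^ I * q ^ k = (p ^ a * q ^ k) * p ^ (I - a) := by
    have : p ^ I = p ^ a * p ^ (I - a) := by rw [← pow_add]; congr 1; omega
    rw [this]; ring
  have e2 : p ^ a * q ^ b = (p ^ a * q ^ k) * q ^ (b - k) := by
    have : q ^ b = q ^ k * q ^ (b - k) := by rw [← pow_add]; congr 1; omega
    rw [this]; ring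
  have hcop : Nat.gcd (q ^ (b - k)) (p ^ (I - a)) = 1 := Nat.Coprime.pow _ _ hpq.symm
  rw [e1, e2, Nat.gcd_mul_left, hcop, mul_one]
  exact Nat.mul_div_cancel_left _ (by positivity)

private theorem sep_mp {σ : Measure T} (h2 : MeasurePreserving (fun x : T => 2 • x) σ σ)
    (h3 : MeasurePreserving (fun x : T => 3 • x) σ σ) (a b : ℕ) :
    MeasurePreserving (fun x : T => (2 ^ a * 3 ^ b) • x) σ σ := by
  have h := (h2.iterate a).comp (h3.iterate b)
  have e : ((fun x : T => 2 • x)^[a] ∘ (fun x : T => 3 • x)^[b]) =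
      fun x : T => (2 ^ a * 3 ^ b) • x := by
    rw [smul_iterate, smul_iterate]
    funext x
    simp only [Function.comp_apply]
    rw [mul_smul]
  rwa [e] at h

theorem separation {σ : Measure T} [IsFiniteMeasure σ]
    (h2 : MeasurePreserving (fun x : T => 2 • x) σ σ)
    (h3 : MeasurePreserving (fun x : T => 3 • x) σ σ)
    {X Y : Set T} (hX : MeasurableSet X) (hX0 : σ Xᶜ = 0) (hXi : InjOn (fun x : T => 2 • x) X)
    (hY : MeasurableSet Y) (hY0 : σ Yᶜ = 0) (hYi : InjOn (fun x : T => 3 • x) Y)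
    (A : ℕ) {δ : ℝ≥0∞} (hδ : δ ≠ 0) :
    ∀ᶠ n : ℕ in atTop, ∃ D : Set T, MeasurableSet D ∧ σ Dᶜ ≤ δ ∧
      ∀ x ∈ D, ∀ y ∈ D, ∀ s t : ℕ, 2 ^ s * 3 ^ t ≤ n ^ A → ∀ θ : T, θ ≠ 0 →
        (2 ^ s * 3 ^ t) • θ = 0 → ((2 : ℝ) ^ n)⁻¹ ≤ ‖x - y - θ‖ := by
  set G : ℕ := 8 * A + 8 with hG
  set δ' : ℝ≥0∞ := δ / ((32 * (G + 1) : ℕ) : ℝ≥0∞) with hδ'
  have hq0 : ((32 * (G + 1) : ℕ) : ℝ≥0∞) ≠ 0 := by
    have : (32 * (G + 1) : ℕ) ≠ 0 := by omega
    exact_mod_cast this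
  have hqt : ((32 * (G + 1) : ℕ) : ℝ≥0∞) ≠ ∞ := ENNReal.natCast_ne_top _
  have hδ'0 : δ' ≠ 0 := ENNReal.div_ne_zero.2 ⟨hδ, hqt⟩
  obtain ⟨L, W, hW, hcov⟩ := cover h2 hX hX0 hXi hδ'0
  have hδ2 : δ / 2 ≠ 0 := ENNReal.div_ne_zero.2 ⟨hδ, by norm_num⟩
  obtain ⟨K, hKm, hK0, η, hη, hKs⟩ := small h2 h3 hX hX0 hXi hY hY0 hYi L hδ2
  have hev : ∀ᶠ n : ℕ in atTop, ((2 : ℝ) ^ n)⁻¹ < η := by
    have h := tendsto_pow_atTop_nhds_zero_of_lt_one (r := (1 / 2 : ℝ)) (by norm_num)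
      (by norm_num)
    filter_upwards [h.eventually_lt_const hη] with n hn
    rwa [one_div, inv_pow] at hn
  filter_upwards [arith A L, hev] with n hn hnη
  obtain ⟨ha1, ha2, ha3⟩ := hn
  set r : ℕ := Nat.log 2 n with hr
  set u : ℕ := r / 4 with hu
  set N : ℕ := 4 ^ u with hN
  set I : ℕ := A * (r + 1) with hI
  set v : ℕ := u - L with hv
  have hNpos : 0 < N := by positivity
  have hm4 : MeasurePreserving (fun x : T => 4 • x) σ σ := by
    have := sep_mp h2 h3 2 0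
    simpa using this
  have hm9 : MeasurePreserving (fun x : T => 9 • x) σ σ := by
    have := sep_mp h2 h3 0 2
    simpa using this
  have hgA : ∀ g : ℕ, σ (Gs (2 ^ I * 3 ^ (g * v)) 4 N L W)ᶜ ≤ 8 * δ' := fun g =>
    gset hm4 (sep_mp h2 h3 I (g * v)) hNpos hcov
  have hgB : ∀ g : ℕ, σ (Gs (3 ^ L * 2 ^ (g * v)) 9 N L W)ᶜ ≤ 8 * δ' := fun g =>
    gset hm9 (by rw [mul_comm (3 ^ L)]; exact sep_mp h2 h3 (g * v) L) hNpos hcov
  refine ⟨K ∩ ⋂ g ∈ Finset.range (G + 1), (Gs (2 ^ I * 3 ^ (g * v)) 4 N L W ∩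
    Gs (3 ^ L * 2 ^ (g * v)) 9 N L W), ?_, ?_, ?_⟩
  · refine hKm.inter (MeasurableSet.biInter (Finset.countable_toSet _) (fun g _ => ?_))
    exact (measurableSet_gs _ _ _ _ _).inter (measurableSet_gs _ _ _ _ _)
  · rw [compl_inter]
    refine (measure_union_le _ _).trans ?_
    have h5 : (⋂ g ∈ Finset.range (G + 1), (Gs (2 ^ I * 3 ^ (g * v)) 4 N L W ∩
        Gs (3 ^ L * 2 ^ (g * v)) 9 N L W))ᶜ = ⋃ g ∈ Finset.range (G + 1),
        ((Gs (2 ^ I * 3 ^ (g * v)) 4 N L W)ᶜ ∪ (Gs (3 ^ L * 2 ^ (g * v)) 9 N L W)ᶜ) := by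
      simp only [compl_iInter, compl_inter]
    have h6 : σ (⋂ g ∈ Finset.range (G + 1), (Gs (2 ^ I * 3 ^ (g * v)) 4 N L W ∩
        Gs (3 ^ L * 2 ^ (g * v)) 9 N L W))ᶜ ≤ δ / 2 := by
      rw [h5]
      refine (measure_biUnion_finset_le _ _).trans ?_
      calc ∑ g ∈ Finset.range (G + 1), σ ((Gs (2 ^ I * 3 ^ (g * v)) 4 N L W)ᶜ ∪
            (Gs (3 ^ L * 2 ^ (g * v)) 9 N L W)ᶜ)
          ≤ ∑ _g ∈ Finset.range (G + 1), (16 * δ') := by
            refine Finset.sum_le_sum (fun g _ => (measure_union_le _ _).trans ?_)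
            calc σ (Gs (2 ^ I * 3 ^ (g * v)) 4 N L W)ᶜ + σ (Gs (3 ^ L * 2 ^ (g * v)) 9 N L W)ᶜ
                ≤ 8 * δ' + 8 * δ' := add_le_add (hgA g) (hgB g)
              _ = 16 * δ' := by ring
        _ = δ / 2 := by
            rw [Finset.sum_const, Finset.card_range, nsmul_eq_mul]
            rw [ENNReal.eq_div_iff (by norm_num) (by norm_num)]
            calc 2 * (((G + 1 : ℕ) : ℝ≥0∞) * (16 * δ'))
                = ((32 * (G + 1) : ℕ) : ℝ≥0∞) * δ' := by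
                  push_cast
                  ring
              _ = δ := by
                  rw [hδ', ENNReal.mul_div_cancel hq0 hqt]
    calc σ Kᶜ + _ ≤ δ / 2 + δ / 2 := add_le_add hK0 h6
      _ = δ := ENNReal.add_halves δ
  · rintro x ⟨hxK, hxG⟩ y ⟨hyK, hyG⟩ s t hst θ hθ hθ0
    have hxG' : ∀ g ≤ G, x ∈ Gs (2 ^ I * 3 ^ (g * v)) 4 N L W ∧
        x ∈ Gs (3 ^ L * 2 ^ (g * v)) 9 N L W := by
      intro g hg
      exact Set.mem_iInter₂.1 hxG g (Finset.mem_range.2 (by omega))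
    have hyG' : ∀ g ≤ G, y ∈ Gs (2 ^ I * 3 ^ (g * v)) 4 N L W ∧
        y ∈ Gs (3 ^ L * 2 ^ (g * v)) 9 N L W := by
      intro g hg
      exact Set.mem_iInter₂.1 hyG g (Finset.mem_range.2 (by omega))
    obtain ⟨hs, ht⟩ := qbound hst
    have hdvd : addOrderOf θ ∣ 2 ^ s * 3 ^ t := addOrderOf_dvd_of_nsmul_eq_zero hθ0
    obtain ⟨k1, k2, hk1, hk2, hk⟩ := (Nat.dvd_mul).1 hdvd
    obtain ⟨s', hs', rfl⟩ := (Nat.dvd_prime_pow Nat.prime_two).1 hk1
    obtain ⟨t', ht', rfl⟩ := (Nat.dvd_prime_pow Nat.prime_three).1 hk2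
    have hsI : s' ≤ I := hs'.trans hs
    have htI : t' ≤ I := ht'.trans ht
    have hp4 : ∀ a : ℕ, (4 : ℕ) ^ a = 2 ^ (2 * a) := fun a => by
      rw [pow_mul]; norm_num
    have hp16 : ∀ a : ℕ, (16 : ℕ) ^ a = 2 ^ (4 * a) := fun a => by
      rw [pow_mul]; norm_num
    by_cases hLt : L ≤ t'
    · obtain ⟨g, hgG, hgv, hgL, hgu⟩ := grid (G := G) hv ha1 (htI.trans ha2) hLt
      have hord := sep_ord (p := 2) (q := 3) (by norm_num) (by norm_num) (by norm_num)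
        (θ := θ) hk.symm hsI hgv
      refine key (p := 3) (m := 4) (N := N) (Or.inl ⟨rfl, rfl⟩) hW hord ?_ ?_ ?_
        (hxG' g hgG).1 (hyG' g hgG).1
      · exact (Nat.pow_le_pow_left (by norm_num) L).trans
          (Nat.pow_le_pow_right (by norm_num) hgL)
      · exact (Nat.pow_le_pow_right (by norm_num) hgu).trans
          (Nat.pow_le_pow_left (by norm_num) u)
      · have h7 : 3 ^ (g * v) ≤ 2 ^ (2 * I) := by
          rw [← hp4]
          exact (Nat.pow_le_pow_left (by norm_num) _).trans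
            (Nat.pow_le_pow_right (by norm_num) (hgv.trans htI))
        calc 2 ^ I * 3 ^ (g * v) * 4 ^ N * 2 ^ L ≤ 2 ^ I * 2 ^ (2 * I) * 4 ^ N * 2 ^ L := by
              gcongr
          _ = 2 ^ (I + 2 * I + 2 * N + L) := by
              rw [hp4, ← pow_add, ← pow_add, ← pow_add]
          _ ≤ 2 ^ n := Nat.pow_le_pow_right (by norm_num) (by omega)
    · by_cases hLs : L ≤ s'
      · obtain ⟨g, hgG, hgv, hgL, hgu⟩ := grid (G := G) hv ha1 (hsI.trans ha2) hLs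
        have hord := sep_ord (p := 3) (q := 2) (by norm_num) (by norm_num) (by norm_num)
          (θ := θ) (by rw [← hk, mul_comm]) (show t' ≤ L by omega) hgv
        refine key (p := 2) (m := 9) (N := N) (Or.inr ⟨rfl, rfl⟩) hW hord ?_ ?_ ?_
          (hxG' g hgG).2 (hyG' g hgG).2
        · exact Nat.pow_le_pow_right (by norm_num) hgL
        · exact (Nat.pow_le_pow_right (by norm_num) hgu).trans
            (Nat.pow_le_pow_left (by norm_num) u)
        · have h7 : 3 ^ L ≤ 2 ^ (2 * L) := by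
            rw [← hp4]
            exact Nat.pow_le_pow_left (by norm_num) _
          have h8 : 2 ^ (g * v) ≤ 2 ^ I :=
            Nat.pow_le_pow_right (by norm_num) (hgv.trans hsI)
          have h9 : 9 ^ N ≤ 2 ^ (4 * N) := by
            rw [← hp16]
            exact Nat.pow_le_pow_left (by norm_num) _
          calc 3 ^ L * 2 ^ (g * v) * 9 ^ N * 2 ^ L
              ≤ 2 ^ (2 * L) * 2 ^ I * 2 ^ (4 * N) * 2 ^ L := by gcongr
            _ = 2 ^ (2 * L + I + 4 * N + L) := by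
                rw [← pow_add, ← pow_add, ← pow_add]
            _ ≤ 2 ^ n := Nat.pow_le_pow_right (by norm_num) (by omega)
      · have h6 : 6 ^ L • θ = 0 := by
          refine addOrderOf_dvd_iff_nsmul_eq_zero.1 ?_
          rw [← hk]
          have : (6 : ℕ) ^ L = 2 ^ L * 3 ^ L := by
            rw [← mul_pow]
            norm_num
          rw [this]
          exact Nat.mul_dvd_mul (pow_dvd_pow 2 (by omega)) (pow_dvd_pow 3 (by omega))
        exact hnη.le.trans (hKs x hxK y hyK θ hθ h6)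

end Pool.Agent.LogSc
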