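import Pool.Agent.LogSc.Cell

open MeasureTheory Set Filter Topology
open scoped ENNReal NNReal

namespace Pool.Agent.LogSc

/-! ARC. Torsion points in an arc. HINT: `‖z - c‖ < ρ` gives a real `u`, `|u| < ρ`, with
`z = ((rep c + u : ℝ) : T)`; `q • z = 0` says that `q (rep c + u)` is an integer `j`, and
`z = ((j / q : ℝ) : T)`; the open interval `(q (rep c - ρ), q (rep c + ρ))` contains at most
`2 ρ q + 1` integers. -/

theorem arc_card {q : ℕ} (hq : 0 < q) (c : T) {ρ : ℝ} (hρ : 0 < ρ) :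
    ∃ Z : Finset T, (∀ z : T, q • z = 0 → ‖z - c‖ < ρ → z ∈ Z) ∧
      (Z.card : ℝ) ≤ 2 * ρ * q + 1 := by
  classical
  have hq' : (0 : ℝ) < q := by exact_mod_cast hq
  refine ⟨(Finset.Ioo ⌊(q : ℝ) * (rep c - ρ)⌋ ⌈(q : ℝ) * (rep c + ρ)⌉).image
    (fun j : ℤ => (((j : ℝ) / (q : ℝ) : ℝ) : T)), ?_, ?_⟩
  · intro z hz hzc
    have hx : z - c = ((rep z - rep c : ℝ) : T) := by
      rw [AddCircle.coe_sub, coe_rep, coe_rep]
    set x : ℝ := rep z - rep c with hxdef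
    rw [hx, AddCircle.norm_eq] at hzc
    simp only [inv_one, one_mul, mul_one] at hzc
    set u : ℝ := x - round x with hu
    have hzu : z = ((rep c + u : ℝ) : T) := by
      have e1 : rep c + u = rep z + ((-(round x) : ℤ) : ℝ) * 1 := by
        rw [hu, hxdef]; push_cast; ring
      have e2 : ((((-(round x) : ℤ) : ℝ) * 1 : ℝ) : T) = 0 := by
        rw [AddCircle.coe_eq_zero_iff]
        exact ⟨-(round x), by simp⟩
      rw [e1, AddCircle.coe_add, e2, add_zero, coe_rep]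
    have h0 : (((q : ℝ) * (rep c + u) : ℝ) : T) = 0 := by
      have e3 : (((q : ℝ) * (rep c + u) : ℝ) : T) = q • ((rep c + u : ℝ) : T) := by
        rw [← AddCircle.coe_nsmul, nsmul_eq_mul]
      rw [e3, ← hzu, hz]
    rw [AddCircle.coe_eq_zero_iff] at h0
    obtain ⟨n, hn⟩ := h0
    simp only [zsmul_eq_mul, mul_one] at hn
    rw [Finset.mem_image]
    refine ⟨n, ?_, ?_⟩
    · have habs := abs_lt.1 hzc
      rw [Finset.mem_Ioo]
      constructor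
      · have h1 : ((⌊(q : ℝ) * (rep c - ρ)⌋ : ℤ) : ℝ) ≤ (q : ℝ) * (rep c - ρ) := Int.floor_le _
        have h2 : (q : ℝ) * (rep c - ρ) < (q : ℝ) * (rep c + u) :=
          mul_lt_mul_of_pos_left (by linarith [habs.1]) hq'
        have h3 : ((⌊(q : ℝ) * (rep c - ρ)⌋ : ℤ) : ℝ) < (n : ℝ) := by rw [hn]; linarith
        exact_mod_cast h3
      · have h1 : (q : ℝ) * (rep c + ρ) ≤ ((⌈(q : ℝ) * (rep c + ρ)⌉ : ℤ) : ℝ) := Int.le_ceil _
        have h2 : (q : ℝ) * (rep c + u) < (q : ℝ) * (rep c + ρ) :=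
          mul_lt_mul_of_pos_left (by linarith [habs.2]) hq'
        have h3 : (n : ℝ) < ((⌈(q : ℝ) * (rep c + ρ)⌉ : ℤ) : ℝ) := by rw [hn]; linarith
        exact_mod_cast h3
    · rw [hn, mul_div_cancel_left₀ _ hq'.ne', ← hzu]
  · have h1 : (((Finset.Ioo ⌊(q : ℝ) * (rep c - ρ)⌋ ⌈(q : ℝ) * (rep c + ρ)⌉).image
        (fun j : ℤ => (((j : ℝ) / (q : ℝ) : ℝ) : T))).card : ℝ) ≤
        ((Finset.Ioo ⌊(q : ℝ) * (rep c - ρ)⌋ ⌈(q : ℝ) * (rep c + ρ)⌉).card : ℝ) := by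
      exact_mod_cast Finset.card_image_le
    refine h1.trans ?_
    rw [Int.card_Ioo]
    have hpos : (0 : ℝ) ≤ 2 * ρ * q + 1 := by positivity
    by_cases hc : 0 ≤ ⌈(q : ℝ) * (rep c + ρ)⌉ - ⌊(q : ℝ) * (rep c - ρ)⌋ - 1
    · have h2 : (((⌈(q : ℝ) * (rep c + ρ)⌉ - ⌊(q : ℝ) * (rep c - ρ)⌋ - 1).toNat : ℕ) : ℝ) =
          ((⌈(q : ℝ) * (rep c + ρ)⌉ - ⌊(q : ℝ) * (rep c - ρ)⌋ - 1 : ℤ) : ℝ) := by
        have h3 := Int.toNat_of_nonneg hc
        exact_mod_cast congrArg (fun t : ℤ => (t : ℝ)) h3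
      rw [h2]
      push_cast
      have h4 := Int.ceil_lt_add_one ((q : ℝ) * (rep c + ρ))
      have h5 := Int.lt_floor_add_one ((q : ℝ) * (rep c - ρ))
      nlinarith
    · push Not at hc
      rw [Int.toNat_of_nonpos hc.le]
      simpa using hpos

end Pool.Agent.LogSc
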