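import Pool.Agent.LogSc.Inj
import Pool.Agent.LogSc.Sep
import Pool.Agent.LogSc.Predictor

/-!
# Separation from `6`-smooth rationals and prediction of digits at the logarithmic scale

Let `μ` be a probability measure on the circle invariant under `×2` and `×3`. Its singular part is
carried by sets `D` whose points have all their differences at distance at least `2 ^ (-n)` from the
nonzero rationals with denominator `2 ^ s * 3 ^ t ≤ n ^ A`. So the first `A log n` digits of a typical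
point of the singular part are a function of the next `n` digits.
-/

open Set Filter Topology MeasureTheory
open scoped ENNReal NNReal

namespace Pool.Agent.Results.MP_e27144_an.LogScale

open Pool.Agent.LogSc

theorem mp_smul {σ : Measure (AddCircle (1 : ℝ))}
    (h2 : MeasurePreserving (fun x : AddCircle (1 : ℝ) => (2 : ℕ) • x) σ σ)
    (h3 : MeasurePreserving (fun x : AddCircle (1 : ℝ) => (3 : ℕ) • x) σ σ) (i j : ℕ) :
    MeasurePreserving (fun x : AddCircle (1 : ℝ) => (2 ^ i * 3 ^ j : ℕ) • x) σ σ := by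
  induction i with
  | zero =>
    induction j with
    | zero =>
      have e : (fun x : AddCircle (1 : ℝ) => (2 ^ 0 * 3 ^ 0 : ℕ) • x) = id := by
        ext x; simp
      rw [e]
      exact MeasurePreserving.id σ
    | succ j ih =>
      have h := h3.comp ih
      have e : ((fun x : AddCircle (1 : ℝ) => (3 : ℕ) • x) ∘
          fun x : AddCircle (1 : ℝ) => (2 ^ 0 * 3 ^ j : ℕ) • x) =
          fun x : AddCircle (1 : ℝ) => (2 ^ 0 * 3 ^ (j + 1) : ℕ) • x := by
        ext x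
        simp only [Function.comp_apply, smul_smul]
        congr 1
        ring
      rwa [e] at h
  | succ i ih =>
    have h := h2.comp ih
    have e : ((fun x : AddCircle (1 : ℝ) => (2 : ℕ) • x) ∘
        fun x : AddCircle (1 : ℝ) => (2 ^ i * 3 ^ j : ℕ) • x) =
        fun x : AddCircle (1 : ℝ) => (2 ^ (i + 1) * 3 ^ j : ℕ) • x := by
      ext x
      simp only [Function.comp_apply, smul_smul]
      congr 1
      ring
    rwa [e] at h

/-- **Main theorem.** -/
theorem result (μ : Measure (AddCircle (1 : ℝ))) (_hμ : IsProbabilityMeasure μ)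
    (_h2 : MeasurePreserving (fun x : AddCircle (1 : ℝ) => (2 : ℕ) • x) μ μ)
    (_h3 : MeasurePreserving (fun x : AddCircle (1 : ℝ) => (3 : ℕ) • x) μ μ) :
    ∃ S : Set (AddCircle (1 : ℝ)), MeasurableSet S ∧
      (fun x : AddCircle (1 : ℝ) => (2 : ℕ) • x) ⁻¹' S = S ∧
      (fun x : AddCircle (1 : ℝ) => (3 : ℕ) • x) ⁻¹' S = S ∧
      (volume : Measure (AddCircle (1 : ℝ))) S = 0 ∧
      μ = μ Sᶜ • (volume : Measure (AddCircle (1 : ℝ))) + μ.restrict S ∧
      (∀ A δ : ℝ, 0 < δ → ∀ᶠ n : ℕ in atTop, ∃ D ⊆ S, MeasurableSet D ∧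
        μ (S \ D) ≤ ENNReal.ofReal δ ∧
        ∀ x ∈ D, ∀ y ∈ D, ∀ s t : ℕ, (2 : ℝ) ^ s * (3 : ℝ) ^ t ≤ (n : ℝ) ^ A →
          ∀ θ : AddCircle (1 : ℝ), θ ≠ 0 → (2 ^ s * 3 ^ t : ℕ) • θ = 0 →
            ((2 : ℝ) ^ n)⁻¹ ≤ ‖x - y - θ‖) ∧
      (∀ b : ℕ, (∃ u v : ℕ, b = 2 ^ u * 3 ^ v) → 2 ≤ b → ∀ A δ : ℝ, 0 < δ →
        ∀ᶠ n : ℕ in atTop, ∀ k : ℕ, (k : ℝ) ≤ A * Real.log n → ∃ F : ℕ → ℕ,
          μ {x | x ∈ S ∧ ⌊(b : ℝ) ^ k * (AddCircle.equivIco (1 : ℝ) 0 x : ℝ)⌋₊ ≠
            F ⌊(b : ℝ) ^ n * (AddCircle.equivIco (1 : ℝ) 0 (b ^ k • x) : ℝ)⌋₊} ≤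
              ENNReal.ofReal δ) := by
  have herg2 : Ergodic (fun x : AddCircle (1 : ℝ) => (2 : ℕ) • x) volume :=
    AddCircle.ergodic_nsmul (by norm_num)
  have herg3 : Ergodic (fun x : AddCircle (1 : ℝ) => (3 : ℕ) • x) volume :=
    AddCircle.ergodic_nsmul (by norm_num)
  set σ := μ.singularPart volume with hσ
  have hσs : σ ⟂ₘ volume := μ.mutuallySingular_singularPart volume
  have hσ2 := _h2.singularPart herg2.toMeasurePreserving
  have hσ3 := _h3.singularPart herg3.toMeasurePreserving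
  have hac2 := _h2.withDensity_rnDeriv herg2.toMeasurePreserving
  set α := volume.withDensity (μ.rnDeriv volume) with hα
  have hαfin : IsFiniteMeasure α := by
    refine isFiniteMeasure_of_le μ ?_
    exact μ.withDensity_rnDeriv_le volume
  obtain ⟨a, ha⟩ := herg2.eq_smul_of_absolutelyContinuous hac2 (withDensity_absolutelyContinuous _ _)
  have hdecomp : μ = a • volume + σ := by
    conv_lhs => rw [μ.haveLebesgueDecomposition_add volume]
    rw [← hα, ← hσ, ha, add_comm]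
  have hσs' := hσs
  -- an invariant null set carrying `σ`
  obtain ⟨N, hNm, hσN, hvN⟩ := hσs'
  -- `σ N = 0`, `volume Nᶜ = 0`
  set E : Set (AddCircle (1 : ℝ)) :=
    {x | ∃ n : ℕ, ∀ i j : ℕ, n ≤ i → n ≤ j → (2 ^ i * 3 ^ j : ℕ) • x ∈ Nᶜ} with hE
  have hsm : ∀ m : ℕ, Measurable (fun x : AddCircle (1 : ℝ) => m • x) := fun m =>
    (continuous_nsmul m).measurable
  have hEm : MeasurableSet E := by
    have : E = ⋃ n : ℕ, ⋂ i : ℕ, ⋂ j : ℕ, ⋂ (_ : n ≤ i), ⋂ (_ : n ≤ j),
        (fun x : AddCircle (1 : ℝ) => (2 ^ i * 3 ^ j : ℕ) • x) ⁻¹' Nᶜ := by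
      ext x; simp [hE]
    rw [this]
    exact MeasurableSet.iUnion fun n => MeasurableSet.iInter fun i => MeasurableSet.iInter fun j =>
      MeasurableSet.iInter fun _ => MeasurableSet.iInter fun _ =>
        hsm _ hNm.compl
  have hE2 : (fun x : AddCircle (1 : ℝ) => (2 : ℕ) • x) ⁻¹' E = E := by
    ext x
    simp only [mem_preimage, hE, mem_ofPred_eq]
    constructor
    · rintro ⟨n, hn⟩
      refine ⟨n + 1, fun i j hi hj => ?_⟩
      have := hn (i - 1) j (by omega) (by omega)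
      rw [smul_smul] at this
      have e : 2 ^ (i - 1) * 3 ^ j * 2 = 2 ^ i * 3 ^ j := by
        have : 2 ^ i = 2 ^ (i - 1) * 2 := by
          rw [← pow_succ]; congr 1; omega
        rw [this]; ring
      rwa [e] at this
    · rintro ⟨n, hn⟩
      refine ⟨n, fun i j hi hj => ?_⟩
      have := hn (i + 1) j (by omega) hj
      rw [smul_smul]
      have e : 2 ^ i * 3 ^ j * 2 = 2 ^ (i + 1) * 3 ^ j := by ring
      rwa [e]
  have hE3 : (fun x : AddCircle (1 : ℝ) => (3 : ℕ) • x) ⁻¹' E = E := by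
    ext x
    simp only [mem_preimage, hE, mem_ofPred_eq]
    constructor
    · rintro ⟨n, hn⟩
      refine ⟨n + 1, fun i j hi hj => ?_⟩
      have := hn i (j - 1) (by omega) (by omega)
      rw [smul_smul] at this
      have e : 2 ^ i * 3 ^ (j - 1) * 3 = 2 ^ i * 3 ^ j := by
        have : 3 ^ j = 3 ^ (j - 1) * 3 := by
          rw [← pow_succ]; congr 1; omega
        rw [this]; ring
      rwa [e] at this
    · rintro ⟨n, hn⟩
      refine ⟨n, fun i j hi hj => ?_⟩
      have := hn i (j + 1) hi (by omega)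
      rw [smul_smul]
      have e : 2 ^ i * 3 ^ j * 3 = 2 ^ i * 3 ^ (j + 1) := by ring
      rwa [e]
  have hvolE : (volume : Measure (AddCircle (1 : ℝ))) E = 0 := by
    have hsub : E ⊆ ⋃ n : ℕ, (fun x : AddCircle (1 : ℝ) => (2 ^ n * 3 ^ n : ℕ) • x) ⁻¹' Nᶜ := by
      rintro x ⟨n, hn⟩
      exact mem_iUnion.mpr ⟨n, hn n n le_rfl le_rfl⟩
    refine measure_mono_null hsub (measure_iUnion_null fun n => ?_)
    rw [(mp_smul herg2.toMeasurePreserving herg3.toMeasurePreserving n n).measure_preimage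
      hNm.compl.nullMeasurableSet]
    exact hvN
  have hσE : σ Eᶜ = 0 := by
    have hsub : Eᶜ ⊆ ⋃ i : ℕ, ⋃ j : ℕ,
        (fun x : AddCircle (1 : ℝ) => (2 ^ i * 3 ^ j : ℕ) • x) ⁻¹' N := by
      intro x hx
      simp only [hE, mem_compl_iff, mem_ofPred_eq, not_exists, not_forall] at hx
      obtain ⟨i, j, -, -, hij⟩ := hx 0
      simp only [not_not] at hij
      exact mem_iUnion.mpr ⟨i, mem_iUnion.mpr ⟨j, hij⟩⟩
    refine measure_mono_null hsub (measure_iUnion_null fun i => measure_iUnion_null fun j => ?_)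
    rw [(mp_smul hσ2 hσ3 i j).measure_preimage hNm.nullMeasurableSet]
    exact hσN
  have hσeq : μ.restrict E = σ := by
    rw [hdecomp, Measure.restrict_add, Measure.restrict_smul,
      Measure.restrict_eq_zero.2 hvolE, smul_zero, zero_add]
    refine Measure.restrict_eq_self_of_ae_mem ?_
    rw [ae_iff]
    exact hσE
  have haE : μ Eᶜ = a := by
    have hv : (volume : Measure (AddCircle (1 : ℝ))) Eᶜ = 1 := by
      have h1 : (volume : Measure (AddCircle (1 : ℝ))) E + volume Eᶜ = volume univ :=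
        measure_add_measure_compl hEm
      rw [hvolE, zero_add] at h1
      rw [h1, AddCircle.measure_univ]
      simp
    rw [hdecomp, Measure.add_apply, Measure.smul_apply, hσE, hv, add_zero, smul_eq_mul, mul_one]
  have hσfin : IsFiniteMeasure σ := by
    rw [← hσeq]; infer_instance
  -- essential injectivity
  have h4 : MeasurePreserving (fun x : AddCircle (1 : ℝ) => (4 : ℕ) • x) σ σ := by
    have := mp_smul hσ2 hσ3 2 0
    simpa using this
  have h9 : MeasurePreserving (fun x : AddCircle (1 : ℝ) => (9 : ℕ) • x) σ σ := by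
    have := mp_smul hσ2 hσ3 0 2
    simpa using this
  obtain ⟨X, hX, hX0, hXi⟩ := inj_of_singular (Or.inr ⟨rfl, rfl⟩) hσ2 h9 hσs
  obtain ⟨Y, hY, hY0, hYi⟩ := inj_of_singular (Or.inl ⟨rfl, rfl⟩) hσ3 h4 hσs
  have hsep : ∀ A δ : ℝ, 0 < δ → ∀ᶠ n : ℕ in atTop, ∃ D ⊆ E, MeasurableSet D ∧
        μ (E \ D) ≤ ENNReal.ofReal δ ∧
        ∀ x ∈ D, ∀ y ∈ D, ∀ s t : ℕ, (2 : ℝ) ^ s * (3 : ℝ) ^ t ≤ (n : ℝ) ^ A →
          ∀ θ : AddCircle (1 : ℝ), θ ≠ 0 → (2 ^ s * 3 ^ t : ℕ) • θ = 0 →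
            ((2 : ℝ) ^ n)⁻¹ ≤ ‖x - y - θ‖ := by
    intro A δ hδ
    have hδ' : ENNReal.ofReal δ ≠ 0 := by
      rw [Ne, ENNReal.ofReal_eq_zero, not_le]; exact hδ
    filter_upwards [separation hσ2 hσ3 hX hX0 hXi hY hY0 hYi ⌈A⌉₊ hδ', eventually_ge_atTop 1]
      with n hn hn1
    obtain ⟨D, hD, hDδ, hDs⟩ := hn
    refine ⟨D ∩ E, inter_subset_right, hD.inter hEm, ?_, ?_⟩
    · have e : E \ (D ∩ E) = Dᶜ ∩ E := by
        ext x
        simp only [Set.mem_sdiff, mem_inter_iff, mem_compl_iff]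
        tauto
      rw [e, ← Measure.restrict_apply hD.compl, hσeq]
      exact hDδ
    · intro x hx y hy s t hst θ hθ hθ0
      refine hDs x hx.1 y hy.1 s t ?_ θ hθ hθ0
      have h1 : (n : ℝ) ^ A ≤ (n : ℝ) ^ (⌈A⌉₊ : ℝ) :=
        Real.rpow_le_rpow_of_exponent_le (by exact_mod_cast hn1) (Nat.le_ceil A)
      rw [Real.rpow_natCast] at h1
      have h2 := hst.trans h1
      exact_mod_cast h2
  refine ⟨E, hEm, hE2, hE3, hvolE, ?_, hsep, ?_⟩
  · rw [haE, hσeq]; exact hdecomp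
  · rintro b ⟨u, v, rfl⟩ hb A δ hδ
    set b : ℕ := 2 ^ u * 3 ^ v with hbdef
    filter_upwards [hsep (A * Real.log b) δ hδ, eventually_ge_atTop 1] with n hn hn1 k hk
    obtain ⟨D, hDE, hD, hDδ, hDs⟩ := hn
    obtain ⟨F, hF⟩ := predictor (D := D) (b := b) (k := k) (n := n) hb (by
      intro x hx y hy θ hθ hθ0
      refine hDs x hx y hy (u * k) (v * k) ?_ θ hθ ?_
      · have hn0 : (0 : ℝ) < n := by exact_mod_cast hn1
        have hb0 : (0 : ℝ) < b := by
          have : 0 < b := by omega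
          exact_mod_cast this
        have hlb : 0 ≤ Real.log b := Real.log_natCast_nonneg b
        have e1 : (2 : ℝ) ^ (u * k) * (3 : ℝ) ^ (v * k) = (b : ℝ) ^ k := by
          rw [hbdef]; push_cast; rw [mul_pow, ← pow_mul, ← pow_mul]
        rw [e1]
        have e2 : (b : ℝ) ^ k = Real.exp (k * Real.log b) := by
          rw [Real.exp_nat_mul, Real.exp_log hb0]
        have e3 : (n : ℝ) ^ (A * Real.log b) = Real.exp (Real.log n * (A * Real.log b)) :=
          Real.rpow_def_of_pos hn0 _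
        rw [e2, e3]
        apply Real.exp_le_exp.2
        calc (k : ℝ) * Real.log b ≤ (A * Real.log n) * Real.log b :=
              mul_le_mul_of_nonneg_right hk hlb
          _ = Real.log n * (A * Real.log b) := by ring
      · have e1 : 2 ^ (u * k) * 3 ^ (v * k) = b ^ k := by
          rw [hbdef, mul_pow, ← pow_mul, ← pow_mul]
        rw [e1]
        exact hθ0)
    refine ⟨F, le_trans (measure_mono ?_) hDδ⟩
    rintro x ⟨hxE, hx⟩
    refine ⟨hxE, fun hxD => hx ?_⟩
    exact hF x hxD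

end Pool.Agent.Results.MP_e27144_an.LogScale
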