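import Pool.Agent.LogSc.Arc
import Pool.Agent.LogSc.Nt

open MeasureTheory Set Filter Topology
open scoped ENNReal NNReal

namespace Pool.Agent.LogSc

/-! ORB. The orbit `m ^ i • θ` does not concentrate in the difference set of the covering set. HINT:
`q = p ^ t`. By `arc_card` with `ρ = 2 / 2 ^ L` the set `Z` of points `z` with `q • z = 0` in the
difference set has at most `card W ^ 2 * (4 q / 2 ^ L + 1) ≤ 5 q / 64` elements. For each `z` the
indices `i < N` with `m ^ i • θ = z` have mutual distances `≥ q / 8` (`addOrderOf_dvd_iff_nsmul_eq_zero`,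
`m` coprime to `p`, `nt1`), so `i ↦ 8 * i / q` is injective on them: at most `8 N / q + 1 ≤ 9 N / q`. -/

theorem ORB_gap {p m t : ℕ} (hpm : PM p m) {θ : T} (hθ : addOrderOf θ = p ^ t) {i d : ℕ}
    (hd : 0 < d) (h : m ^ i • θ = m ^ (i + d) • θ) : p ^ t ≤ 8 * d := by
  apply nt1 hpm hd
  have hm : 1 ≤ m := by
    rcases hpm with ⟨_, rfl⟩ | ⟨_, rfl⟩ <;> norm_num
  have hcop : Nat.Coprime (p ^ t) (m ^ i) := by
    apply Nat.Coprime.pow
    rcases hpm with ⟨rfl, rfl⟩ | ⟨rfl, rfl⟩ <;> norm_num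
  have h1 : 1 ≤ m ^ d := Nat.one_le_pow _ _ hm
  have h2 : (m ^ i * (m ^ d - 1)) • θ = 0 := by
    have h3 : m ^ (i + d) = m ^ i * (m ^ d - 1) + m ^ i := by
      obtain ⟨k, hk⟩ := Nat.exists_eq_add_of_le h1
      rw [pow_add, hk]
      simp only [Nat.add_sub_cancel_left]
      ring
    rw [h3, add_nsmul] at h
    have h4 : (m ^ i * (m ^ d - 1)) • θ + m ^ i • θ = 0 + m ^ i • θ := by rw [zero_add, ← h]
    exact add_right_cancel h4
  have h5 : p ^ t ∣ m ^ i * (m ^ d - 1) := by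
    rw [← hθ]
    exact addOrderOf_dvd_iff_nsmul_eq_zero.mpr h2
  exact hcop.dvd_of_dvd_mul_left h5

theorem ORB_fib {p m t N : ℕ} (hpm : PM p m) {θ : T} (hθ : addOrderOf θ = p ^ t) (S : Finset ℕ)
    (hS : ∀ i ∈ S, i < N) (z : T) (hz : ∀ i ∈ S, m ^ i • θ = z) :
    S.card ≤ 8 * N / p ^ t + 1 := by
  have hp : 0 < p ^ t := by
    rcases hpm with ⟨rfl, _⟩ | ⟨rfl, _⟩ <;> positivity
  have hlt : ∀ i ∈ S, ∀ j ∈ S, i < j → 8 * i / p ^ t < 8 * j / p ^ t := by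
    intro i hi j hj hij
    have h1 : p ^ t ≤ 8 * (j - i) := by
      apply ORB_gap hpm hθ (i := i) (d := j - i) (by omega)
      rw [hz i hi, show i + (j - i) = j by omega, hz j hj]
    have h2 : 8 * i + p ^ t ≤ 8 * j := by omega
    calc 8 * i / p ^ t < 8 * i / p ^ t + 1 := Nat.lt_succ_self _
      _ = (8 * i + p ^ t) / p ^ t := (Nat.add_div_right _ hp).symm
      _ ≤ 8 * j / p ^ t := Nat.div_le_div_right h2
  have h3 : S.card ≤ (Finset.range (8 * N / p ^ t + 1)).card := by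
    apply Finset.card_le_card_of_injOn (fun i => 8 * i / p ^ t)
    · intro i hi
      have hi' : i ∈ S := hi
      rw [Finset.mem_coe, Finset.mem_range]
      have h4 : 8 * i / p ^ t ≤ 8 * N / p ^ t :=
        Nat.div_le_div_right (by have := hS i hi'; omega)
      exact Nat.lt_succ_of_le h4
    · intro i hi j hj hij
      have hi' : i ∈ S := hi
      have hj' : j ∈ S := hj
      have hij' : 8 * i / p ^ t = 8 * j / p ^ t := hij
      rcases lt_trichotomy i j with h | h | h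
      · have := hlt i hi' j hj' h
        omega
      · exact h
      · have := hlt j hj' i hi' h
        omega
  rwa [Finset.card_range] at h3

open Classical in
theorem orbit_count {p m L t N : ℕ} {W : Finset ℕ} (hpm : PM p m) (hW : 64 * W.card ^ 2 ≤ 2 ^ L)
    {θ : T} (hθ : addOrderOf θ = p ^ t) (h1 : 2 ^ L ≤ p ^ t) (h2 : p ^ t ≤ N) :
    64 * ((Finset.range N).filter (fun i => ∃ w ∈ W, ∃ w' ∈ W,
      ‖m ^ i • θ - ((((w : ℝ) - (w' : ℝ)) / (2 : ℝ) ^ L : ℝ) : T)‖ < 2 * ((2 : ℝ) ^ L)⁻¹)).card ≤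
      45 * N := by
  have hq : 0 < p ^ t := by
    rcases hpm with ⟨rfl, _⟩ | ⟨rfl, _⟩ <;> positivity
  have hL : (0 : ℝ) < 2 ^ L := by positivity
  have hρ : (0 : ℝ) < 2 * ((2 : ℝ) ^ L)⁻¹ := by positivity
  choose Z hZ hZc using fun c : T => arc_card (q := p ^ t) hq c hρ
  let cc : ℕ × ℕ → T := fun v => ((((v.1 : ℝ) - (v.2 : ℝ)) / (2 : ℝ) ^ L : ℝ) : T)
  let ZZ : Finset T := (W ×ˢ W).biUnion (fun v => Z (cc v))
  have hcard : (ZZ.card : ℝ) ≤ (W.card : ℝ) ^ 2 * (2 * (2 * ((2 : ℝ) ^ L)⁻¹) * (p ^ t : ℕ) + 1) := by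
    have e1 : ZZ.card ≤ ∑ v ∈ W ×ˢ W, (Z (cc v)).card := Finset.card_biUnion_le
    have e2 : (ZZ.card : ℝ) ≤ ∑ v ∈ W ×ˢ W, ((Z (cc v)).card : ℝ) := by exact_mod_cast e1
    refine e2.trans ?_
    have e3 := Finset.sum_le_card_nsmul (W ×ˢ W) (fun v => ((Z (cc v)).card : ℝ))
      (2 * (2 * ((2 : ℝ) ^ L)⁻¹) * (p ^ t : ℕ) + 1) (fun v _ => hZc (cc v))
    refine e3.trans (le_of_eq ?_)
    rw [Finset.card_product, nsmul_eq_mul]
    push_cast
    ring
  have hZ64 : 64 * ZZ.card ≤ 5 * p ^ t := by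
    have hW' : 64 * (W.card : ℝ) ^ 2 ≤ (2 : ℝ) ^ L := by exact_mod_cast hW
    have h1' : (2 : ℝ) ^ L ≤ ((p ^ t : ℕ) : ℝ) := by exact_mod_cast h1
    have hx : 0 ≤ 2 * (2 * ((2 : ℝ) ^ L)⁻¹) * ((p ^ t : ℕ) : ℝ) + 1 := by positivity
    have e1 : 64 * (ZZ.card : ℝ) ≤ 5 * ((p ^ t : ℕ) : ℝ) := by
      calc 64 * (ZZ.card : ℝ)
          ≤ 64 * ((W.card : ℝ) ^ 2 * (2 * (2 * ((2 : ℝ) ^ L)⁻¹) * (p ^ t : ℕ) + 1)) := by
            linarith
        _ = (64 * (W.card : ℝ) ^ 2) * (2 * (2 * ((2 : ℝ) ^ L)⁻¹) * (p ^ t : ℕ) + 1) := by ring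
        _ ≤ (2 : ℝ) ^ L * (2 * (2 * ((2 : ℝ) ^ L)⁻¹) * (p ^ t : ℕ) + 1) :=
            mul_le_mul_of_nonneg_right hW' hx
        _ = 4 * ((p ^ t : ℕ) : ℝ) + (2 : ℝ) ^ L := by
            field_simp
            ring
        _ ≤ 5 * ((p ^ t : ℕ) : ℝ) := by linarith
    exact_mod_cast e1
  set S := (Finset.range N).filter (fun i => ∃ w ∈ W, ∃ w' ∈ W,
      ‖m ^ i • θ - ((((w : ℝ) - (w' : ℝ)) / (2 : ℝ) ^ L : ℝ) : T)‖ < 2 * ((2 : ℝ) ^ L)⁻¹) with hS
  have hmap : ∀ i ∈ S, m ^ i • θ ∈ ZZ := by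
    intro i hi
    rw [hS, Finset.mem_filter] at hi
    obtain ⟨_, w, hw, w', hw', hn⟩ := hi
    rw [Finset.mem_biUnion]
    refine ⟨(w, w'), Finset.mem_product.mpr ⟨hw, hw'⟩, ?_⟩
    apply hZ (cc (w, w'))
    · rw [smul_comm, ← hθ, addOrderOf_nsmul_eq_zero, smul_zero]
    · exact hn
  have hcount : S.card ≤ (8 * N / p ^ t + 1) * ZZ.card := by
    apply Finset.card_le_mul_card_image_of_maps_to hmap
    intro z _
    apply ORB_fib hpm hθ _ _ z
    · intro i hi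
      exact (Finset.mem_filter.mp hi).2
    · intro i hi
      have h3 := (Finset.mem_filter.mp hi).1
      rw [hS, Finset.mem_filter, Finset.mem_range] at h3
      exact h3.1
  have h9 : p ^ t * (8 * N / p ^ t + 1) ≤ 9 * N := by
    have h10 : p ^ t * (8 * N / p ^ t) ≤ 8 * N := Nat.mul_div_le _ _
    calc p ^ t * (8 * N / p ^ t + 1) = p ^ t * (8 * N / p ^ t) + p ^ t := by ring
      _ ≤ 8 * N + N := Nat.add_le_add h10 h2
      _ = 9 * N := by ring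
  have hfin : p ^ t * (64 * S.card) ≤ p ^ t * (45 * N) := by
    calc p ^ t * (64 * S.card) ≤ p ^ t * (64 * ((8 * N / p ^ t + 1) * ZZ.card)) :=
          Nat.mul_le_mul_left _ (Nat.mul_le_mul_left _ hcount)
      _ = (p ^ t * (8 * N / p ^ t + 1)) * (64 * ZZ.card) := by ring
      _ ≤ (9 * N) * (5 * p ^ t) := Nat.mul_le_mul h9 hZ64
      _ = p ^ t * (45 * N) := by ring
  exact Nat.le_of_mul_le_mul_left hfin hq

end Pool.Agent.LogSc
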