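import Pool.Agent.LogSc.Cell

open MeasureTheory Set Filter Topology
open scoped ENNReal NNReal

namespace Pool.Agent.LogSc

/-! PRED. If `x ↦ 2 x` is essentially injective, the first binary digit is a function of the next `n0`
digits outside a set of small measure. HINT: `A_b = X ∩ {cell 2 1 x = b}` (`b = 0, 1`), the images
`B_b = 2 • A_b` are measurable (`MeasurableSet.image_of_measurable_injOn`) and disjoint; compact
`K_b ⊆ B_b` with `σ (B_b \ K_b) ≤ δ / 2` (`MeasurableSet.exists_isCompact_diff_lt` or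
`measure_eq_iSup_isCompact`); `K_0`, `K_1` have positive distance, so for large `n0` no cell of level
`n0` meets both; `F c = 1` iff the cell `c` meets `K_1`. The bad points of `X` are in
`2 •⁻¹ (B_b \ K_b)`. -/

theorem PRED_near {n0 : ℕ} {x y : T} (h : cell 2 n0 x = cell 2 n0 y) : dist x y < ((2 : ℝ) ^ n0)⁻¹ := by
  have h1 := cell_near (b := 2) (by norm_num) n0 x y
  rw [h, sub_self, zero_div, QuotientAddGroup.mk_zero, sub_zero] at h1
  rw [dist_eq_norm]
  exact_mod_cast h1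

theorem pred {σ : Measure T} [IsFiniteMeasure σ]
    (h2 : MeasurePreserving (fun x : T => 2 • x) σ σ) {X : Set T} (hX : MeasurableSet X)
    (hX0 : σ Xᶜ = 0) (hinj : InjOn (fun x : T => 2 • x) X) {δ : ℝ≥0∞} (hδ : δ ≠ 0) :
    ∃ (n0 : ℕ) (F : ℕ → ℕ), σ {x | cell 2 1 x ≠ F (cell 2 n0 (2 • x))} ≤ δ := by
  classical
  have hdm : Measurable (fun x : T => 2 • x) := (continuous_nsmul 2).measurable
  set A : ℕ → Set T := fun b => X ∩ {x | cell 2 1 x = b} with hA
  have hAm : ∀ b, MeasurableSet (A b) := fun b =>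
    hX.inter (measurable_cell 2 1 (measurableSet_singleton b))
  set B : ℕ → Set T := fun b => (fun x : T => 2 • x) '' (A b) with hB
  have hBm : ∀ b, MeasurableSet (B b) := fun b =>
    (hAm b).image_of_measurable_injOn hdm (hinj.mono inter_subset_left)
  have hex : ∀ b, ∃ K ⊆ B b, IsCompact K ∧ σ (B b \ K) < δ / 2 := by
    intro b
    have := (hBm b).exists_isCompact_sdiff_lt (measure_ne_top σ _) (ε := δ / 2)
      (by simpa using hδ)
    obtain ⟨K, hK1, hK2, hK3⟩ := this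
    exact ⟨K, hK1, hK2, hK3⟩
  choose K hKB hKc hKs using hex
  have hdisj : Disjoint (K 0) (K 1) := by
    rw [Set.disjoint_left]
    intro y hy0 hy1
    obtain ⟨x0, hx0, e0⟩ := hKB 0 hy0
    obtain ⟨x1, hx1, e1⟩ := hKB 1 hy1
    have h3 : x0 = x1 := hinj hx0.1 hx1.1 (by simp only at e0 e1 ⊢; rw [e0, e1])
    have h4 : cell 2 1 x0 = 0 := hx0.2
    have h5 : cell 2 1 x1 = 1 := hx1.2
    rw [h3] at h4
    omega
  obtain ⟨r, hr, hsep⟩ := Metric.exists_pos_forall_lt_edist (hKc 0) (hKc 1).isClosed hdisj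
  have hr' : (0 : ℝ) < r := by exact_mod_cast hr
  obtain ⟨n0, hn0⟩ := exists_pow_lt_of_lt_one hr' (show (1 / 2 : ℝ) < 1 by norm_num)
  have hnr : ((2 : ℝ) ^ n0)⁻¹ < r := by
    rw [one_div, inv_pow] at hn0
    exact hn0
  have hnot : ∀ y0 ∈ K 0, ∀ y1 ∈ K 1, cell 2 n0 y0 ≠ cell 2 n0 y1 := by
    intro y0 h0 y1 h1 he
    have h3 := PRED_near he
    have h4 := hsep y0 h0 y1 h1
    rw [edist_dist] at h4
    have h5 : ENNReal.ofReal (dist y0 y1) ≤ ENNReal.ofReal (r : ℝ) :=
      ENNReal.ofReal_le_ofReal (by linarith)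
    rw [ENNReal.ofReal_coe_nnreal] at h5
    exact absurd h4 (not_lt.2 h5)
  refine ⟨n0, fun c => if ∃ y ∈ K 1, cell 2 n0 y = c then 1 else 0, ?_⟩
  have hsub : {x | cell 2 1 x ≠ (fun c => if ∃ y ∈ K 1, cell 2 n0 y = c then 1 else 0)
      (cell 2 n0 (2 • x))} ⊆ Xᶜ ∪ ((fun x : T => 2 • x) ⁻¹' (B 0 \ K 0) ∪
        (fun x : T => 2 • x) ⁻¹' (B 1 \ K 1)) := by
    intro x hx
    rw [mem_ofPred_eq] at hx
    by_cases hxX : x ∈ X
    · right
      have hlt := cell_lt (b := 2) (by norm_num) 1 x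
      have hc : cell 2 1 x = 0 ∨ cell 2 1 x = 1 := by omega
      rcases hc with hc | hc
      · left
        refine ⟨⟨x, ⟨hxX, hc⟩, rfl⟩, ?_⟩
        intro hK
        apply hx
        rw [hc]
        dsimp only
        rw [if_neg]
        rintro ⟨y, hy, he⟩
        exact hnot _ hK y hy he.symm
      · right
        refine ⟨⟨x, ⟨hxX, hc⟩, rfl⟩, ?_⟩
        intro hK
        apply hx
        rw [hc]
        dsimp only
        rw [if_pos ⟨_, hK, rfl⟩]
    · left; exact hxX
  refine (measure_mono hsub).trans ?_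
  refine (measure_union_le _ _).trans ?_
  rw [hX0, zero_add]
  refine (measure_union_le _ _).trans ?_
  rw [h2.measure_preimage ((hBm 0).diff (hKc 0).measurableSet).nullMeasurableSet,
    h2.measure_preimage ((hBm 1).diff (hKc 1).measurableSet).nullMeasurableSet]
  calc σ (B 0 \ K 0) + σ (B 1 \ K 1) ≤ δ / 2 + δ / 2 := add_le_add (hKs 0).le (hKs 1).le
    _ = δ := ENNReal.add_halves δ

end Pool.Agent.LogSc
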