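import Pool.Agent.LogSc.Br

open MeasureTheory Set Filter Topology
open scoped ENNReal NNReal

namespace Pool.Agent.LogSc

/-! RHO. The one-step disintegration. HINT: with `ν_a = (ν.restrict {cell p 1 = a}).map (p •)` and
`g_a = ν_a.rnDeriv ν`: `ν_a ≤ ν`, so `g_a ≤ 1` a.e. and `ν_a = g_a ν`; `rho ν p (br p 1 a z) = min 1 (g_a z)`
by `cell_br`, `smul_br`; and `∫⁻ f = ∑_a ∫⁻_{cell = a} f = ∑_a ∫⁻ f (br p 1 a z) ∂ν_a` by `br_cell`.
Measurability of `rho`: countably many (finitely many) values of `cell p 1 x`. -/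

/-- The density of the branch `a`. -/
noncomputable def RHO_g (ν : Measure T) (p a : ℕ) (z : T) : ℝ≥0∞ :=
  min 1 (((ν.restrict {y | cell p 1 y = a}).map (fun y : T => p • y)).rnDeriv ν z)

theorem RHO_eq (ν : Measure T) (p : ℕ) (x : T) :
    rho ν p x = RHO_g ν p (cell p 1 x) (p • x) := rfl

theorem RHO_meas (ν : Measure T) (p a : ℕ) : Measurable (RHO_g ν p a) :=
  measurable_const.min (Measure.measurable_rnDeriv _ _)

theorem RHO_smul (p : ℕ) : Measurable (fun x : T => p • x) := (continuous_nsmul p).measurable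

theorem RHO_br (ν : Measure T) {p : ℕ} (hp : 0 < p) {a : ℕ} (ha : a < p) (z : T) :
    rho ν p (br p 1 a z) = RHO_g ν p a z := by
  have h1 : cell p 1 (br p 1 a z) = a := cell_br hp (by rwa [pow_one]) z
  have h2 : p • br p 1 a z = z := by
    have := smul_br hp 1 a z
    rwa [pow_one] at this
  rw [RHO_eq, h1, h2]

theorem rho_le_one (ν : Measure T) (p : ℕ) (x : T) : rho ν p x ≤ 1 := min_le_left _ _

theorem measurable_rho (ν : Measure T) (p : ℕ) : Measurable (rho ν p) := by
  have h1 : Measurable (fun q : ℕ × T => RHO_g ν p q.1 q.2) :=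
    measurable_from_prod_countable_right fun a => RHO_meas ν p a
  exact h1.comp ((measurable_cell p 1).prodMk (RHO_smul p))

theorem RHO_one {ν : Measure T} [IsFiniteMeasure ν] {p : ℕ} (hp : 0 < p)
    (h : MeasurePreserving (fun x : T => p • x) ν ν) {f : T → ℝ≥0∞} (hf : Measurable f)
    (a : ℕ) :
    ∫⁻ x in {y | cell p 1 y = a}, f x ∂ν = ∫⁻ z, RHO_g ν p a z * f (br p 1 a z) ∂ν := by
  set A : Set T := {y | cell p 1 y = a} with hA
  have hAm : MeasurableSet A := measurable_cell p 1 (measurableSet_singleton a)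
  set νa : Measure T := (ν.restrict A).map (fun y : T => p • y) with hνa
  have hle : νa ≤ ν := by
    have h1 : νa ≤ ν.map (fun y : T => p • y) :=
      Measure.map_mono Measure.restrict_le_self (RHO_smul p)
    rwa [h.map_eq] at h1
  have hfin : IsFiniteMeasure νa := isFiniteMeasure_of_le ν hle
  have hdec : νa.HaveLebesgueDecomposition ν :=
    Measure.haveLebesgueDecomposition_of_sigmaFinite νa ν
  have h1 : ∫⁻ x in A, f x ∂ν = ∫⁻ x in A, f (br p 1 a (p • x)) ∂ν := by
    refine setLIntegral_congr_fun hAm fun x hx => ?_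
    have h2 : br p 1 (cell p 1 x) (p ^ 1 • x) = x := br_cell hp 1 x
    have hx' : cell p 1 x = a := hx
    rw [hx', pow_one] at h2
    simp only [h2]
  have hfb : Measurable (fun z => f (br p 1 a z)) := hf.comp (measurable_br p 1 a)
  have h2 : ∫⁻ x in A, f (br p 1 a (p • x)) ∂ν = ∫⁻ z, f (br p 1 a z) ∂νa :=
    (lintegral_map hfb (RHO_smul p)).symm
  have h3 : ν.withDensity (νa.rnDeriv ν) = νa :=
    Measure.withDensity_rnDeriv_eq νa ν (Measure.absolutelyContinuous_of_le hle)
  rw [h1, h2, ← h3, lintegral_withDensity_eq_lintegral_mul ν (Measure.measurable_rnDeriv _ _) hfb]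
  refine lintegral_congr_ae ?_
  filter_upwards [Measure.rnDeriv_le_one_of_le hle] with z hz
  have hz' : νa.rnDeriv ν z ≤ 1 := hz
  simp only [Pi.mul_apply]
  congr 1
  unfold RHO_g
  rw [← hA, ← hνa, min_eq_right hz']

theorem lint_rho {ν : Measure T} [IsFiniteMeasure ν] {p : ℕ} (hp : 0 < p)
    (h : MeasurePreserving (fun x : T => p • x) ν ν) {f : T → ℝ≥0∞} (hf : Measurable f) :
    ∫⁻ x, f x ∂ν = ∫⁻ z, ∑ a ∈ Finset.range p, rho ν p (br p 1 a z) * f (br p 1 a z) ∂ν := by
  have hU : (⋃ a ∈ Finset.range p, {y : T | cell p 1 y = a}) = univ := by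
    ext y
    simp only [mem_iUnion, mem_ofPred_eq, exists_prop, mem_univ, iff_true, Finset.mem_range]
    exact ⟨cell p 1 y, by simpa using cell_lt hp 1 y, rfl⟩
  have hd : Set.PairwiseDisjoint (↑(Finset.range p)) (fun a => {y : T | cell p 1 y = a}) := by
    intro a _ b _ hab
    refine Set.disjoint_left.2 fun y hy hy' => hab ?_
    exact (show cell p 1 y = a from hy).symm.trans hy'
  have h1 : ∫⁻ x, f x ∂ν = ∑ a ∈ Finset.range p, ∫⁻ x in {y | cell p 1 y = a}, f x ∂ν := by
    rw [← setLIntegral_univ, ← hU]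
    exact lintegral_biUnion_finset hd
      (fun a _ => measurable_cell p 1 (measurableSet_singleton a)) _
  have h2 : ∫⁻ z, ∑ a ∈ Finset.range p, rho ν p (br p 1 a z) * f (br p 1 a z) ∂ν =
      ∑ a ∈ Finset.range p, ∫⁻ z, rho ν p (br p 1 a z) * f (br p 1 a z) ∂ν :=
    lintegral_finsetSum _ fun a _ =>
      ((measurable_rho ν p).comp (measurable_br p 1 a)).mul (hf.comp (measurable_br p 1 a))
  rw [h1, h2]
  refine Finset.sum_congr rfl fun a ha => ?_
  rw [RHO_one hp h hf a]
  refine lintegral_congr fun z => ?_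
  rw [RHO_br ν hp (Finset.mem_range.1 ha)]

end Pool.Agent.LogSc
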