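import Pool.Agent.LogSc.Rho

open MeasureTheory Set Filter Topology
open scoped ENNReal NNReal

namespace Pool.Agent.LogSc

/-! RHOK. The `k`-step disintegration. HINT: induction on `k` with `f` arbitrary: apply `lint_rho` to `f`
and then the induction hypothesis to `y ↦ ∑_a rho (br p 1 a y) * f (br p 1 a y)`; `br_comp`; reindex
`(a, c) ↦ a * p ^ k + c`. `sum_rhok`: take `f = indicator B 1 ∘ (p ^ k •)` in `lint_rhok`.
`int_rhok`: write `ν = ∑_a ((ν.withDensity (rhok ∘ br p k a)).map (br p k a))` (`Measure.ext`). -/

theorem rhok_le_one (ν : Measure T) (p k : ℕ) (x : T) : rhok ν p k x ≤ 1 := by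
  unfold rhok
  exact Finset.prod_le_one' (fun j _ => rho_le_one ν p _)

theorem measurable_rhok (ν : Measure T) (p k : ℕ) : Measurable (rhok ν p k) := by
  unfold rhok
  apply Finset.measurable_fun_prod
  intro j _
  exact (measurable_rho ν p).comp (continuous_nsmul (p ^ j)).measurable

theorem rhok_add (ν : Measure T) (p j k : ℕ) (x : T) :
    rhok ν p (j + k) x = rhok ν p j x * rhok ν p k (p ^ j • x) := by
  unfold rhok
  rw [Finset.prod_range_add]
  congr 1
  apply Finset.prod_congr rfl
  intro i _
  rw [← mul_smul, ← pow_add, add_comm i j]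

theorem RHOK_sum_range (m n : ℕ) {M : Type*} [AddCommMonoid M] (F : ℕ → M) :
    ∑ b ∈ Finset.range (m * n), F b =
      ∑ a ∈ Finset.range m, ∑ c ∈ Finset.range n, F (a * n + c) := by
  induction m with
  | zero => simp
  | succ m ih => rw [Nat.succ_mul, Finset.sum_range_add, ih, Finset.sum_range_succ]

theorem RHOK_one (ν : Measure T) (p : ℕ) (x : T) : rhok ν p 1 x = rho ν p x := by
  unfold rhok
  simp

theorem RHOK_zero (ν : Measure T) (p : ℕ) (x : T) : rhok ν p 0 x = 1 := by
  unfold rhok
  simp

theorem lint_rhok {ν : Measure T} [IsFiniteMeasure ν] {p : ℕ} (hp : 0 < p)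
    (h : MeasurePreserving (fun x : T => p • x) ν ν) (k : ℕ) {f : T → ℝ≥0∞} (hf : Measurable f) :
    ∫⁻ x, f x ∂ν =
      ∫⁻ z, ∑ a ∈ Finset.range (p ^ k), rhok ν p k (br p k a z) * f (br p k a z) ∂ν := by
  induction k generalizing f with
  | zero =>
    apply lintegral_congr
    intro z
    rw [pow_zero, Finset.sum_range_one, RHOK_zero, one_mul]
    congr 1
    unfold br
    simp [coe_rep]
  | succ k ih =>
    rw [lint_rho hp h hf]
    have hg : Measurable (fun z => ∑ a ∈ Finset.range p, rho ν p (br p 1 a z) * f (br p 1 a z)) := by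
      apply Finset.measurable_fun_sum
      intro a _
      exact ((measurable_rho ν p).comp (measurable_br p 1 a)).mul (hf.comp (measurable_br p 1 a))
    rw [ih hg]
    apply lintegral_congr
    intro z
    rw [add_comm k 1, pow_add, pow_one, RHOK_sum_range, Finset.sum_comm]
    apply Finset.sum_congr rfl
    intro c hc
    rw [Finset.mem_range] at hc
    rw [Finset.mul_sum]
    apply Finset.sum_congr rfl
    intro a _
    rw [br_comp hp 1 k a hc z, rhok_add, RHOK_one]
    have h1 : p ^ 1 • br p (1 + k) (a * p ^ k + c) z = br p k c z := by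
      rw [← br_comp hp 1 k a hc z, smul_br hp]
    rw [h1]
    ring

theorem RHOK_mp {ν : Measure T} {p : ℕ}
    (h : MeasurePreserving (fun x : T => p • x) ν ν) (k : ℕ) :
    MeasurePreserving (fun x : T => p ^ k • x) ν ν := by
  induction k with
  | zero =>
    simp only [pow_zero, one_smul]
    exact MeasurePreserving.id ν
  | succ k ih =>
    have h2 := h.comp ih
    have e : ((fun x : T => p • x) ∘ fun x : T => p ^ k • x) = fun x : T => p ^ (k + 1) • x := by
      funext x
      simp only [Function.comp]
      rw [← mul_smul, pow_succ, mul_comm]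
    rw [e] at h2
    exact h2

theorem sum_rhok {ν : Measure T} [IsFiniteMeasure ν] {p : ℕ} (hp : 0 < p)
    (h : MeasurePreserving (fun x : T => p • x) ν ν) (k : ℕ) :
    ∀ᵐ z ∂ν, ∑ a ∈ Finset.range (p ^ k), rhok ν p k (br p k a z) = 1 := by
  have hm : Measurable (fun z => ∑ a ∈ Finset.range (p ^ k), rhok ν p k (br p k a z)) := by
    apply Finset.measurable_fun_sum
    intro a _
    exact (measurable_rhok ν p k).comp (measurable_br p k a)
  refine ae_eq_of_forall_setLIntegral_eq_of_sigmaFinite hm measurable_const ?_
  intro B hB _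
  have hmp := RHOK_mp h k
  have h1 : ∫⁻ x, ((fun x : T => p ^ k • x) ⁻¹' B).indicator 1 x ∂ν = ν B := by
    rw [lintegral_indicator_one (hmp.measurable hB), hmp.measure_preimage hB.nullMeasurableSet]
  rw [lint_rhok hp h k (measurable_one.indicator (hmp.measurable hB))] at h1
  rw [lintegral_one, Measure.restrict_apply MeasurableSet.univ, univ_inter, ← h1,
    ← lintegral_indicator hB]
  apply lintegral_congr
  intro z
  by_cases hz : z ∈ B
  · rw [indicator_of_mem hz]
    apply Finset.sum_congr rfl
    intro a _
    have : br p k a z ∈ (fun x : T => p ^ k • x) ⁻¹' B := by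
      rw [mem_preimage, smul_br hp]
      exact hz
    rw [indicator_of_mem this]
    simp
  · rw [indicator_of_notMem hz]
    symm
    apply Finset.sum_eq_zero
    intro a _
    have : br p k a z ∉ (fun x : T => p ^ k • x) ⁻¹' B := by
      rw [mem_preimage, smul_br hp]
      exact hz
    rw [indicator_of_notMem this]
    simp

theorem int_rhok {ν : Measure T} [IsFiniteMeasure ν] {p : ℕ} (hp : 0 < p)
    (h : MeasurePreserving (fun x : T => p • x) ν ν) (k : ℕ) {f : T → ℂ} (hf : Continuous f) :
    ∫ x, f x ∂ν = ∫ z, ∑ a ∈ Finset.range (p ^ k),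
      (((rhok ν p k (br p k a z)).toReal : ℝ) : ℂ) * f (br p k a z) ∂ν := by
  have hdm : ∀ a, Measurable (fun z => rhok ν p k (br p k a z)) := fun a =>
    (measurable_rhok ν p k).comp (measurable_br p k a)
  have hν : ν = ∑ a ∈ Finset.range (p ^ k),
      ((ν.withDensity (fun z => rhok ν p k (br p k a z))).map (br p k a)) := by
    ext B hB
    have h1 : ∫⁻ x, B.indicator 1 x ∂ν = ν B := lintegral_indicator_one hB
    rw [lint_rhok hp h k (measurable_one.indicator hB)] at h1
    rw [← h1, Measure.coe_finsetSum, Finset.sum_apply, lintegral_finsetSum]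
    · apply Finset.sum_congr rfl
      intro a _
      rw [Measure.map_apply (measurable_br p k a) hB, withDensity_apply _ (measurable_br p k a hB),
        ← lintegral_indicator (measurable_br p k a hB)]
      apply lintegral_congr
      intro z
      by_cases hz : br p k a z ∈ B
      · rw [indicator_of_mem hz, indicator_of_mem (show z ∈ br p k a ⁻¹' B from hz)]
        simp
      · rw [indicator_of_notMem hz, indicator_of_notMem (show z ∉ br p k a ⁻¹' B from hz)]
        simp
    · intro a _
      exact (hdm a).mul ((measurable_one.indicator hB).comp (measurable_br p k a))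
  have hbd : ∃ C, ∀ x, ‖f x‖ ≤ C := by
    obtain ⟨C, hC⟩ := (isCompact_range hf).isBounded.exists_norm_le
    exact ⟨C, fun x => hC _ (mem_range_self x)⟩
  obtain ⟨C, hC⟩ := hbd
  have hfi : ∀ a, Integrable (fun z => (((rhok ν p k (br p k a z)).toReal : ℝ) : ℂ) *
      f (br p k a z)) ν := by
    intro a
    refine Integrable.of_bound (C := 1 * C) ?_ ?_
    · apply Measurable.aestronglyMeasurable
      exact ((Complex.measurable_ofReal.comp (hdm a).ennreal_toReal)).mul
        (hf.measurable.comp (measurable_br p k a))
    · refine Filter.Eventually.of_forall ?_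
      intro z
      rw [norm_mul]
      apply mul_le_mul _ (hC _) (norm_nonneg _) zero_le_one
      rw [Complex.norm_real, Real.norm_eq_abs, abs_of_nonneg ENNReal.toReal_nonneg]
      exact ENNReal.toReal_le_of_le_ofReal zero_le_one (by
        rw [ENNReal.ofReal_one]; exact rhok_le_one ν p k _)
  rw [integral_finsetSum _ (fun a _ => hfi a)]
  have hint : ∀ μ : Measure T, IsFiniteMeasure μ → Integrable f μ := by
    intro μ _
    exact Integrable.of_bound (C := C) hf.measurable.aestronglyMeasurable
      (Filter.Eventually.of_forall hC)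
  have hfin : ∀ a, IsFiniteMeasure (ν.withDensity (fun z => rhok ν p k (br p k a z))) := by
    intro a
    apply isFiniteMeasure_withDensity
    have : ∫⁻ z, rhok ν p k (br p k a z) ∂ν ≤ ∫⁻ _, 1 ∂ν :=
      lintegral_mono (fun z => rhok_le_one ν p k _)
    rw [lintegral_one] at this
    exact (this.trans_lt (measure_lt_top ν _)).ne
  conv_lhs => rw [hν]
  rw [integral_finsetSum_measure]
  · apply Finset.sum_congr rfl
    intro a _
    rw [integral_map (measurable_br p k a).aemeasurable hf.measurable.aestronglyMeasurable,
      integral_withDensity_eq_integral_toReal_smul (hdm a)]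
    · apply integral_congr_ae
      refine Filter.Eventually.of_forall ?_
      intro z
      simp only [Complex.real_smul]
    · refine Filter.Eventually.of_forall ?_
      intro z
      exact (rhok_le_one ν p k _).trans_lt ENNReal.one_lt_top
  · intro a _
    have := hfin a
    exact hint _ inferInstance

end Pool.Agent.LogSc
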