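import Pool.Agent.LogSc.RhoK

open MeasureTheory Set Filter Topology
open scoped ENNReal NNReal

namespace Pool.Agent.LogSc

/-! RLIM. If `p •` is not essentially injective on any invariant set of positive measure, the
conditional probabilities tend to `0`. HINT: `ρ∞ = ⨅ k, rhok k` (decreasing in `k`), `ρ∞ x = rho x *
ρ∞ (p • x) ≤ ρ∞ (p • x)`, equal integrals (invariance), so equality a.e.
(`ae_eq_of_ae_le_of_lintegral_le`). `V = {ρ∞ ≠ 0}` is invariant mod `ν`, `rho = 1` a.e. on `V`, and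
`V' = {x ∈ V | rho x = 1 ∧ ∑_a rho (br p 1 a (p • x)) = 1 ∧ ...}` has full measure in `V`; if `x, y ∈ V'`,
`p • x = p • y = z`, then `rho (br p 1 (cell p 1 x) z) = 1 = rho (br p 1 (cell p 1 y) z)` and the sum `1`
force equal cells, so `x = y` (`br_cell`). So `V` is `Good`, `ν V = 0`, `ρ∞ = 0` a.e.; `lintegral_iInf` or
dominated convergence. -/

theorem RLIM_one (ν : Measure T) (p : ℕ) (x : T) : rhok ν p 1 x = rho ν p x := by
  simp [rhok]

theorem RLIM_succ (ν : Measure T) (p k : ℕ) (x : T) :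
    rhok ν p (k + 1) x = rho ν p x * rhok ν p k (p • x) := by
  rw [add_comm, rhok_add, RLIM_one, pow_one]

theorem RLIM_anti (ν : Measure T) (p : ℕ) (x : T) : Antitone (fun k => rhok ν p k x) := by
  refine antitone_nat_of_succ_le fun k => ?_
  rw [rhok_add, RLIM_one]
  exact mul_le_of_le_one_right' (rho_le_one ν p _)

/-- The limit. -/
noncomputable def RLIM_r (ν : Measure T) (p : ℕ) (x : T) : ℝ≥0∞ := ⨅ k, rhok ν p k x

theorem RLIM_meas (ν : Measure T) (p : ℕ) : Measurable (RLIM_r ν p) :=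
  Measurable.iInf fun k => measurable_rhok ν p k

theorem RLIM_le (ν : Measure T) (p : ℕ) (x : T) : RLIM_r ν p x ≤ 1 :=
  (iInf_le _ 0).trans (rhok_le_one ν p 0 x)

theorem RLIM_eq (ν : Measure T) (p : ℕ) (x : T) :
    RLIM_r ν p x = rho ν p x * RLIM_r ν p (p • x) := by
  unfold RLIM_r
  have hne : rho ν p x ≠ ⊤ := ne_top_of_le_ne_top ENNReal.one_ne_top (rho_le_one ν p x)
  rw [ENNReal.mul_iInf fun h => absurd h hne]
  simp_rw [← RLIM_succ]
  exact ((RLIM_anti ν p x).iInf_nat_add 1).symm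

theorem RLIM_sum {ν : Measure T} [IsFiniteMeasure ν] {p : ℕ} (hp : 0 < p)
    (h : MeasurePreserving (fun x : T => p • x) ν ν) :
    ∀ᵐ x ∂ν, ∑ a ∈ Finset.range p, rho ν p (br p 1 a (p • x)) = 1 := by
  have h1 := sum_rhok hp h 1
  simp only [pow_one, RLIM_one] at h1
  exact h.quasiMeasurePreserving.ae h1

theorem rho_lim {ν : Measure T} [IsFiniteMeasure ν] {p : ℕ} (hp : 2 ≤ p)
    (h : MeasurePreserving (fun x : T => p • x) ν ν) (hgood : ∀ V, Good ν p V → ν V = 0) :
    Tendsto (fun k => ∫⁻ x, rhok ν p k x ∂ν) atTop (𝓝 0) := by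
  have hp0 : 0 < p := by omega
  have hfin : ∫⁻ x, RLIM_r ν p x ∂ν ≠ ⊤ := by
    have h1 : ∫⁻ x, RLIM_r ν p x ∂ν ≤ ∫⁻ _x, 1 ∂ν := lintegral_mono (RLIM_le ν p)
    refine ne_top_of_le_ne_top ?_ h1
    rw [lintegral_one]
    exact measure_ne_top ν univ
  have hinv : ∀ᵐ x ∂ν, RLIM_r ν p x = RLIM_r ν p (p • x) := by
    refine ae_eq_of_ae_le_of_lintegral_le (Eventually.of_forall fun x => ?_) hfin
      ((RLIM_meas ν p).comp h.measurable).aemeasurable ?_
    · rw [RLIM_eq ν p x]
      exact mul_le_of_le_one_left' (rho_le_one ν p _)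
    · exact (h.lintegral_comp (RLIM_meas ν p)).le
  set V : Set T := {x | RLIM_r ν p x ≠ 0} with hV
  have hVm : MeasurableSet V := (RLIM_meas ν p) (measurableSet_singleton 0).compl
  have hone : ∀ᵐ x ∂ν, x ∈ V → rho ν p x = 1 := by
    filter_upwards [hinv] with x hx hxV
    have h1 := RLIM_eq ν p x
    rw [← hx] at h1
    have h2 : RLIM_r ν p x ≠ 0 := hxV
    have h3 : RLIM_r ν p x ≠ ⊤ := ne_top_of_le_ne_top ENNReal.one_ne_top (RLIM_le ν p x)
    have h4 : 1 * RLIM_r ν p x = rho ν p x * RLIM_r ν p x := by rw [one_mul]; exact h1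
    exact ((ENNReal.mul_left_inj h2 h3).1 h4).symm
  have hgV : Good ν p V := by
    refine ⟨hVm, ?_, {x | x ∈ V ∧ rho ν p x = 1 ∧
      ∑ a ∈ Finset.range p, rho ν p (br p 1 a (p • x)) = 1}, fun x hx => hx.1, ?_, ?_, ?_⟩
    · filter_upwards [hinv] with x hx
      refine propext ?_
      change RLIM_r ν p (p • x) ≠ 0 ↔ RLIM_r ν p x ≠ 0
      rw [hx]
    · refine hVm.inter (MeasurableSet.inter ?_ ?_)
      · exact (measurable_rho ν p) (measurableSet_singleton 1)
      · have h1 : Measurable (fun x => ∑ a ∈ Finset.range p, rho ν p (br p 1 a (p • x))) :=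
          Finset.measurable_fun_sum _ fun a _ =>
            (measurable_rho ν p).comp ((measurable_br p 1 a).comp h.measurable)
        exact h1 (measurableSet_singleton 1)
    · rw [← compl_compl (V \ _), ← mem_ae_iff]
      filter_upwards [hone, RLIM_sum hp0 h] with x h1 h2
      rintro ⟨h3, h4⟩
      exact h4 ⟨h3, h1 h3, h2⟩
    · rintro x ⟨hx1, hx2, hx3⟩ y ⟨hy1, hy2, hy3⟩ hxy
      have hxy' : p • x = p • y := hxy
      have ex : br p 1 (cell p 1 x) (p • x) = x := by
        have := br_cell hp0 1 x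
        rwa [pow_one] at this
      have ey : br p 1 (cell p 1 y) (p • x) = y := by
        have := br_cell hp0 1 y
        rwa [pow_one, ← hxy'] at this
      by_cases hc : cell p 1 x = cell p 1 y
      · rw [← ex, ← ey, hc]
      · exfalso
        have hcx : cell p 1 x ∈ Finset.range p := by
          simpa using cell_lt hp0 1 x
        have hcy : cell p 1 y ∈ Finset.range p := by
          simpa using cell_lt hp0 1 y
        have h1 : ∑ a ∈ ({cell p 1 x, cell p 1 y} : Finset ℕ), rho ν p (br p 1 a (p • x)) ≤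
            ∑ a ∈ Finset.range p, rho ν p (br p 1 a (p • x)) := by
          refine Finset.sum_le_sum_of_subset ?_
          intro a ha
          rcases Finset.mem_insert.1 ha with rfl | ha
          · exact hcx
          · rw [Finset.mem_singleton.1 ha]
            exact hcy
        rw [Finset.sum_pair hc, ex, ey, hx2, hy2, hx3] at h1
        norm_num at h1
  have hV0 := hgood V hgV
  have hr0 : ∀ᵐ x ∂ν, RLIM_r ν p x = 0 := by
    rw [ae_iff]
    exact hV0
  have h1 : Tendsto (fun k => ∫⁻ x, rhok ν p k x ∂ν) atTop (𝓝 (∫⁻ x, RLIM_r ν p x ∂ν)) := by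
    refine lintegral_tendsto_of_tendsto_of_antitone (fun k => (measurable_rhok ν p k).aemeasurable)
      (Eventually.of_forall fun x => RLIM_anti ν p x) ?_ (Eventually.of_forall fun x =>
        tendsto_atTop_iInf (RLIM_anti ν p x))
    have h1 : ∫⁻ x, rhok ν p 0 x ∂ν ≤ ∫⁻ _x, 1 ∂ν := lintegral_mono (rhok_le_one ν p 0)
    refine ne_top_of_le_ne_top ?_ h1
    rw [lintegral_one]
    exact measure_ne_top ν univ
  rwa [lintegral_congr_ae hr0, lintegral_zero] at h1

end Pool.Agent.LogSc
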