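import Pool.Agent.LogSc.RhoK

open MeasureTheory Set Filter Topology
open scoped ENNReal NNReal

namespace Pool.Agent.LogSc

/-! SUFF. Pairs with a common suffix. HINT: `a = a' * p ^ κ + u`: `br p (t + κ) a z = br p t a' (br p κ u z)`
(`br_comp`), `rhok (t + κ) = rhok t * rhok κ ∘ (p ^ t •)` (`rhok_add`, `smul_br`). For `ν`-a.e. `z` and all
`u < p ^ κ`: `rhok κ (br p κ u z) = 0` or `∑_a' rhok t (br p t a' (br p κ u z)) = 1` (apply `lint_rhok κ`
to the indicator of the exceptional null set of `sum_rhok t`). So the inner sum is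
`∑_u (rhok κ (br p κ u z)) ^ 2`, whose integral is `∫⁻ rhok κ` (`lint_rhok` with `f = rhok κ`). -/

theorem SUFF_sum_range {p : ℕ} (hp : 0 < p) (t κ : ℕ) (F : ℕ → ℝ≥0∞) :
    ∑ a ∈ Finset.range (p ^ (t + κ)), F a =
      ∑ u ∈ Finset.range (p ^ κ), ∑ c ∈ Finset.range (p ^ t), F (c * p ^ κ + u) := by
  have hq : 0 < p ^ κ := by positivity
  rw [← Finset.sum_product']
  refine Finset.sum_nbij' (fun a => (a % p ^ κ, a / p ^ κ)) (fun x => x.2 * p ^ κ + x.1)
    ?_ ?_ ?_ ?_ ?_
  · intro a ha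
    simp only [Finset.mem_range, Finset.mem_product] at ha ⊢
    refine ⟨Nat.mod_lt _ hq, ?_⟩
    rw [Nat.div_lt_iff_lt_mul hq, ← pow_add]
    exact ha
  · intro x hx
    simp only [Finset.mem_range, Finset.mem_product] at hx ⊢
    calc x.2 * p ^ κ + x.1 < x.2 * p ^ κ + p ^ κ := by omega
      _ = (x.2 + 1) * p ^ κ := by ring
      _ ≤ p ^ t * p ^ κ := Nat.mul_le_mul_right _ hx.2
      _ = p ^ (t + κ) := by rw [pow_add]
  · intro a _
    simp only
    exact Nat.div_add_mod' a (p ^ κ)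
  · intro x hx
    simp only [Finset.mem_range, Finset.mem_product] at hx
    apply Prod.ext
    · simp only
      rw [Nat.mul_add_mod_of_lt hx.1]
    · simp only
      rw [Nat.add_comm, Nat.add_mul_div_right _ _ hq, Nat.div_eq_of_lt hx.1, Nat.zero_add]
  · intro a _
    simp only
    rw [Nat.div_add_mod' a (p ^ κ)]

theorem SUFF_pairs {p : ℕ} (hp : 0 < p) (t κ : ℕ) (F : ℕ → ℝ≥0∞) :
    ∑ a ∈ Finset.range (p ^ (t + κ)), ∑ b ∈ Finset.range (p ^ (t + κ)),
      (if a % p ^ κ = b % p ^ κ then F a * F b else 0) =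
      ∑ u ∈ Finset.range (p ^ κ), (∑ c ∈ Finset.range (p ^ t), F (c * p ^ κ + u)) ^ 2 := by
  rw [SUFF_sum_range hp t κ]
  refine Finset.sum_congr rfl ?_
  intro u hu
  rw [Finset.mem_range] at hu
  rw [sq, Finset.sum_mul]
  refine Finset.sum_congr rfl ?_
  intro c _
  rw [SUFF_sum_range hp t κ, Finset.sum_eq_single u]
  · rw [Finset.mul_sum]
    refine Finset.sum_congr rfl ?_
    intro d _
    rw [if_pos]
    rw [Nat.mul_add_mod_of_lt hu, Nat.mul_add_mod_of_lt hu]
  · intro v hv hvu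
    rw [Finset.mem_range] at hv
    refine Finset.sum_eq_zero ?_
    intro d _
    rw [if_neg]
    rw [Nat.mul_add_mod_of_lt hu, Nat.mul_add_mod_of_lt hv]
    exact fun h => hvu h.symm
  · intro h
    exact absurd (Finset.mem_range.2 hu) h

theorem pair_lint {ν : Measure T} [IsFiniteMeasure ν] {p : ℕ} (hp : 0 < p)
    (h : MeasurePreserving (fun x : T => p • x) ν ν) (t κ : ℕ) :
    ∫⁻ z, ∑ a ∈ Finset.range (p ^ (t + κ)), ∑ b ∈ Finset.range (p ^ (t + κ)),
      (if a % p ^ κ = b % p ^ κ then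
        rhok ν p (t + κ) (br p (t + κ) a z) * rhok ν p (t + κ) (br p (t + κ) b z) else 0) ∂ν =
      ∫⁻ x, rhok ν p κ x ∂ν := by
  have hS : Measurable (fun y : T => ∑ c ∈ Finset.range (p ^ t), rhok ν p t (br p t c y)) := by
    refine Finset.measurable_fun_sum _ ?_
    intro c _
    exact (measurable_rhok ν p t).comp (measurable_br p t c)
  have key : ∀ z : T, ∑ a ∈ Finset.range (p ^ (t + κ)), ∑ b ∈ Finset.range (p ^ (t + κ)),
      (if a % p ^ κ = b % p ^ κ then
        rhok ν p (t + κ) (br p (t + κ) a z) * rhok ν p (t + κ) (br p (t + κ) b z) else 0) =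
      ∑ u ∈ Finset.range (p ^ κ), rhok ν p κ (br p κ u z) *
        (fun y : T => rhok ν p κ y *
          (∑ c ∈ Finset.range (p ^ t), rhok ν p t (br p t c y)) ^ 2) (br p κ u z) := by
    intro z
    rw [SUFF_pairs hp t κ (fun a => rhok ν p (t + κ) (br p (t + κ) a z))]
    refine Finset.sum_congr rfl ?_
    intro u hu
    rw [Finset.mem_range] at hu
    have e : ∀ c ∈ Finset.range (p ^ t), rhok ν p (t + κ) (br p (t + κ) (c * p ^ κ + u) z) =
        rhok ν p t (br p t c (br p κ u z)) * rhok ν p κ (br p κ u z) := by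
      intro c _
      rw [← br_comp hp t κ c hu z, rhok_add, smul_br hp]
    rw [Finset.sum_congr rfl e, ← Finset.sum_mul]
    simp only
    ring
  rw [lintegral_congr key, ← lint_rhok hp h κ
    (f := fun y : T => rhok ν p κ y *
      (∑ c ∈ Finset.range (p ^ t), rhok ν p t (br p t c y)) ^ 2)
    ((measurable_rhok ν p κ).mul (hS.pow_const 2))]
  refine lintegral_congr_ae ?_
  filter_upwards [sum_rhok hp h t] with y hy
  rw [hy]
  ring

end Pool.Agent.LogSc
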